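import Mathlib
import Pool.Agent.H17.BruckRyser

/-!
# Brc: Bruck-Ryser-Chowla for `R Rᵀ = n I + ℓ J`

The linear forms `L_q(x) = ∑ p, R p q x_p` satisfy `∑_q L_q(x)² = n ∑ x_p² + ℓ (∑ x_p)²`.  The case `ℓ = 1` of the conclusion is `Pool.Agent.H17.bruck_ryser_form`
(file `Pool/Agent/H17/BruckRyser.lean`); repeat its proof with the term `ℓ (∑ x)²` (it uses `elimination`, `quatMat_sum` of that file: add a variable `x_∞` with the form `n x_∞²`, the number
`card C + 1` of variables is divisible by 4, `n` is a sum of four squares, so `∑ L_q² + n x_∞² = ∑ y_i² + ℓ w²`; eliminate `L_q = ± y_q`: a nontrivial rational solution of `n X² = Y² + ℓ Z²`, `Y ≠ 0`);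
then multiply by the denominators.
-/

set_option autoImplicit false

namespace Pool.Agent.H15.GP

open Finset Module Pool.Agent.H17

/-- Bruck-Ryser-Chowla over the rationals -/
theorem brc_form {I J : Type*} [Fintype I] [Fintype J] [DecidableEq I] [DecidableEq J]
    (hcard : Fintype.card I = Fintype.card J) (hmod : Fintype.card I % 4 = 3)
    (n l : ℕ) (hn : 0 < n) (L : J → ((I → ℚ) →ₗ[ℚ] ℚ))
    (h : ∀ x : I → ℚ, ∑ j, (L j x) ^ 2 = n * ∑ i, x i ^ 2 + l * (∑ i, x i) ^ 2) :
    ∃ X Y Z : ℚ, Y ≠ 0 ∧ (n : ℚ) * X ^ 2 = Y ^ 2 + l * Z ^ 2 := by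
  obtain ⟨a, b, c, d, habcd⟩ := Nat.sum_four_squares n
  have habcd' : (a : ℚ) ^ 2 + (b : ℚ) ^ 2 + (c : ℚ) ^ 2 + (d : ℚ) ^ 2 = n := by
    exact_mod_cast congrArg (fun m : ℕ => (m : ℚ)) habcd
  obtain ⟨k, hk⟩ : ∃ k, Fintype.card I + 1 = k * 4 := ⟨Fintype.card I / 4 + 1, by omega⟩
  have e : Option I ≃ Fin k × Fin 4 := by
    apply Fintype.equivOfCardEq
    rw [Fintype.card_option, Fintype.card_prod, Fintype.card_fin, Fintype.card_fin, hk]
  have eIJ : I ≃ J := Fintype.equivOfCardEq hcard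
  -- forms y
  let y : Option I → ((Option I → ℚ) →ₗ[ℚ] ℚ) := fun o =>
    ∑ s : Fin 4, quatMat a b c d (e o).2 s • LinearMap.proj (e.symm ((e o).1, s))
  have hy_apply : ∀ o u, y o u = ∑ s : Fin 4, quatMat a b c d (e o).2 s *
      u (e.symm ((e o).1, s)) := by
    intro o u
    simp [y, LinearMap.sum_apply]
  have hysum : ∀ u : Option I → ℚ, ∑ o, (y o u) ^ 2 = n * ∑ o, u o ^ 2 := by
    intro u
    have h1 : ∑ o, (y o u) ^ 2 = ∑ p : Fin k × Fin 4,
        (∑ s : Fin 4, quatMat a b c d p.2 s * u (e.symm (p.1, s))) ^ 2 := by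
      rw [← Equiv.sum_comp e]
      exact sum_congr rfl fun o _ => by rw [hy_apply]
    have h2 : ∑ o, u o ^ 2 = ∑ p : Fin k × Fin 4, u (e.symm p) ^ 2 := by
      rw [← Equiv.sum_comp e]
      exact sum_congr rfl fun o _ => by simp
    rw [h1, h2, Fintype.sum_prod_type, Fintype.sum_prod_type, mul_sum]
    refine sum_congr rfl fun q _ => ?_
    simp only
    rw [quatMat_sum a b c d (fun s => u (e.symm (q, s))), habcd']
  -- forms L
  let restr : (Option I → ℚ) →ₗ[ℚ] (I → ℚ) := LinearMap.funLeft ℚ ℚ some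
  let L' : Option I → ((Option I → ℚ) →ₗ[ℚ] ℚ) := fun o =>
    match o with
    | none => 0
    | some i => (L (eIJ i)).comp restr
  have hinj : ∀ u, (∀ i, y i u = 0) → u = 0 := by
    intro u hu
    have h1 := hysum u
    have h2 : ∑ o, (y o u) ^ 2 = 0 := sum_eq_zero fun o _ => by rw [hu o]; simp
    rw [h2] at h1
    have hn' : (n : ℚ) ≠ 0 := by exact_mod_cast hn.ne'
    have h3 : ∑ o, u o ^ 2 = 0 := by
      rcases mul_eq_zero.1 h1.symm with h | h
      · exact absurd h hn'
      · exact h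
    funext o
    have h4 := (sum_eq_zero_iff_of_nonneg (fun o _ => sq_nonneg (u o))).1 h3 o (mem_univ o)
    simpa using h4
  obtain ⟨W, hW1, hW2, hW3⟩ := elimination L' y hinj (univ.erase none)
  have hfr : finrank ℚ (Option I → ℚ) = Fintype.card I + 1 := by
    rw [Module.finrank_fintype_fun_eq_card, Fintype.card_option]
  have hcS : (univ.erase (none : Option I)).card = Fintype.card I := by
    rw [card_erase_of_mem (mem_univ _), card_univ, Fintype.card_option]
    simp
  rw [hfr, hcS] at hW2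
  have hWpos : 0 < finrank ℚ W := by omega
  obtain ⟨u, hu⟩ := (Module.finrank_pos_iff_exists_ne_zero).1 hWpos
  have hu0 : (u : Option I → ℚ) ≠ 0 := by
    intro h0
    exact hu (Subtype.ext h0)
  have hynone : y none u ≠ 0 := by
    intro h0
    apply hu0
    refine hW3 u u.2 fun i hi => ?_
    have : i = none := by simpa using hi
    rw [this]; exact h0
  refine ⟨(u : Option I → ℚ) none, y none u, ∑ i, (u : Option I → ℚ) (some i), hynone, ?_⟩
  have h1 := hysum u
  rw [Fintype.sum_option, Fintype.sum_option] at h1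
  have h2 : ∀ i, (L (eIJ i) (restr u)) ^ 2 = (y (some i) u) ^ 2 := by
    intro i
    have := hW1 u u.2 (some i) (by simp)
    simpa [L'] using this
  have h3 := h (restr u)
  rw [← Equiv.sum_comp eIJ] at h3
  rw [sum_congr rfl fun i _ => h2 i] at h3
  have h4 : ∀ i, restr u i = (u : Option I → ℚ) (some i) := fun i => rfl
  simp only [h4] at h3
  linarith

theorem brc {C D : Type} [Fintype C] [Fintype D] (n l : ℕ) (hn : 0 < n) (hcard : Fintype.card C = Fintype.card D)
    (hmod : Fintype.card C % 4 = 3) (R : C → D → ℕ) (hdiag : ∀ p, ∑ q, R p q ^ 2 = n + l)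
    (hoff : ∀ p p', p ≠ p' → ∑ q, R p q * R p' q = l) :
    ∃ X Y Z : ℤ, Y ≠ 0 ∧ (n : ℤ) * X ^ 2 = Y ^ 2 + l * Z ^ 2 := by
  classical
  let F : D → ((C → ℚ) →ₗ[ℚ] ℚ) := fun q => ∑ p, (R p q : ℚ) • LinearMap.proj p
  have hF : ∀ q x, F q x = ∑ p, (R p q : ℚ) * x p := by
    intro q x
    simp [F, LinearMap.sum_apply]
  have hform : ∀ x : C → ℚ, ∑ q, (F q x) ^ 2 = n * ∑ p, x p ^ 2 + l * (∑ p, x p) ^ 2 := by
    intro x
    have e1 : ∀ q, (F q x) ^ 2 = ∑ p, ∑ p', x p * x p' * ((R p q : ℚ) * R p' q) := by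
      intro q
      rw [hF, sq, sum_mul_sum]
      exact sum_congr rfl fun p _ => sum_congr rfl fun p' _ => by ring
    rw [sum_congr rfl fun q _ => e1 q, sum_comm]
    have e2 : ∀ p p', ∑ q, (R p q : ℚ) * R p' q = l + (if p = p' then (n : ℚ) else 0) := by
      intro p p'
      by_cases hpp : p = p'
      · subst hpp
        have h1 : ∑ q, R p q * R p q = n + l := by
          rw [← hdiag p]
          exact sum_congr rfl fun q _ => (sq _).symm
        rw [if_pos rfl]
        have h2 : ((∑ q, R p q * R p q : ℕ) : ℚ) = n + l := by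
          rw [h1]
          push_cast
          rfl
        push_cast at h2
        rw [h2, add_comm]
      · have h1 := hoff p p' hpp
        have h2 : ((∑ q, R p q * R p' q : ℕ) : ℚ) = l := by rw [h1]
        push_cast at h2
        rw [h2, if_neg hpp, add_zero]
    have e3 : ∀ p, ∑ q, ∑ p', x p * x p' * ((R p q : ℚ) * R p' q) = l * (x p * ∑ p', x p') + n * x p ^ 2 := by
      intro p
      rw [sum_comm]
      have e4 : ∀ p', ∑ q, x p * x p' * ((R p q : ℚ) * R p' q) =
          l * (x p * x p') + (if p = p' then x p * x p' * n else 0) := by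
        intro p'
        rw [← mul_sum, e2]
        split_ifs <;> ring
      rw [sum_congr rfl fun p' _ => e4 p', sum_add_distrib, sum_ite_eq, if_pos (mem_univ _), mul_sum, mul_sum]
      ring_nf
    rw [sum_congr rfl fun p _ => e3 p, sum_add_distrib, ← mul_sum, ← sum_mul, ← mul_sum]
    ring
  obtain ⟨X, Y, Z, hY, heq⟩ := brc_form hcard hmod n l hn F hform
  have hXd : (X.den : ℚ) ≠ 0 := by exact_mod_cast X.den_nz
  have hYd : (Y.den : ℚ) ≠ 0 := by exact_mod_cast Y.den_nz
  have hZd : (Z.den : ℚ) ≠ 0 := by exact_mod_cast Z.den_nz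
  have hX : (X.num : ℚ) = X * X.den := by rw [Rat.mul_den_eq_num]
  have hY' : (Y.num : ℚ) = Y * Y.den := by rw [Rat.mul_den_eq_num]
  have hZ : (Z.num : ℚ) = Z * Z.den := by rw [Rat.mul_den_eq_num]
  refine ⟨X.num * (Y.den * Z.den), Y.num * (X.den * Z.den), Z.num * (X.den * Y.den), ?_, ?_⟩
  · refine mul_ne_zero (Rat.num_ne_zero.2 hY) (mul_ne_zero ?_ ?_)
    · exact_mod_cast X.den_nz
    · exact_mod_cast Z.den_nz
  · have h1 : (((n : ℤ) * (X.num * (Y.den * Z.den)) ^ 2 : ℤ) : ℚ) =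
        (((Y.num * (X.den * Z.den)) ^ 2 + l * (Z.num * (X.den * Y.den)) ^ 2 : ℤ) : ℚ) := by
      push_cast
      rw [hX, hY', hZ]
      have e1 : (n : ℚ) * (X * X.den * (Y.den * Z.den)) ^ 2 = (n * X ^ 2) * (X.den * Y.den * Z.den) ^ 2 := by ring
      rw [e1, heq]
      ring
    exact_mod_cast h1

end Pool.Agent.H15.GP
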