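import Mathlib

/-!
# GP: definitions

MP_2920eb_co, theorem SharpBoundFails: for infinitely many `d` every connected `d`-regular graph has gap at most `√(d-2-1/100)/d`.

* `Gram G`: `G` is a symmetric nonnegative integer matrix with diagonal `2` and `G ≥ -1/100`.
* `Sys P B d`: a connected `d`-regular incidence system whose incidence matrix `N` satisfies `N Nᵀ ≥ d-2-1/100`, `Nᵀ N ≥ d-2-1/100`.
* `Red C D d L`: the quotient by the parallel classes: `R Rᵀ = (d-2) I + L (2 I + A)`.
* `Crit d`: the arithmetic condition.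
-/

set_option autoImplicit false

namespace Pool.Agent.H15.GP

open Finset

noncomputable section

/-- The bilinear form of an integer matrix. -/
def bil {X : Type} [Fintype X] (G : X → X → ℤ) (f g : X → ℤ) : ℤ := ∑ x, ∑ y, f x * g y * G x y

open Classical in
/-- The indicator function of a finite set. -/
def ind {X : Type} (S : Finset X) : X → ℤ := fun x => if x ∈ S then 1 else 0

/-- Symmetric nonnegative integer matrices with diagonal `2` and all eigenvalues at least `-1/100`. -/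
structure Gram {X : Type} [Fintype X] (G : X → X → ℤ) : Prop where
  symm : ∀ x y, G x y = G y x
  diag : ∀ x, G x x = 2
  nonneg : ∀ x y, 0 ≤ G x y
  psd : ∀ f : X → ℤ, -(∑ x, f x ^ 2) ≤ 100 * bil G f f

open Classical in
/-- A connected `d`-regular incidence system with `N Nᵀ ≥ d-2-1/100` and `Nᵀ N ≥ d-2-1/100`. -/
structure Sys (P B : Type) [Fintype P] [Fintype B] (d : ℕ) where
  inc : P → B → Prop
  row : ∀ x, (univ.filter fun b => inc x b).card = d
  col : ∀ b, (univ.filter fun x => inc x b).card = d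
  conn : ∀ (S : Set P) (T : Set B), (S.Nonempty ∨ T.Nonempty) →
    (∀ x b, inc x b → (x ∈ S ↔ b ∈ T)) → S = Set.univ ∧ T = Set.univ
  psd : ∀ f : P → ℤ, (100 * (d : ℤ) - 201) * ∑ x, f x ^ 2 ≤
    100 * ∑ b, (∑ x ∈ univ.filter (fun x => inc x b), f x) ^ 2
  psd' : ∀ g : B → ℤ, (100 * (d : ℤ) - 201) * ∑ b, g b ^ 2 ≤
    100 * ∑ x, (∑ b ∈ univ.filter (fun b => inc x b), g b) ^ 2

/-- The dual system. -/
def Sys.dual {P B : Type} [Fintype P] [Fintype B] {d : ℕ} (S : Sys P B d) : Sys B P d where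
  inc b x := S.inc x b
  row := S.col
  col := S.row
  conn U T h1 h2 := by
    have h := S.conn T U h1.symm (fun x b hxb => (h2 b x hxb).symm)
    exact ⟨h.2, h.1⟩
  psd := S.psd'
  psd' := S.psd

open Classical in
/-- The number of common blocks of two points. -/
def Sys.c {P B : Type} [Fintype P] [Fintype B] {d : ℕ} (S : Sys P B d) (x y : P) : ℕ :=
  (univ.filter fun b => S.inc x b ∧ S.inc y b).card

open Classical in
/-- The matrix `N Nᵀ - (d-2) I`. -/
def Sys.G {P B : Type} [Fintype P] [Fintype B] {d : ℕ} (S : Sys P B d) (x y : P) : ℤ :=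
  (S.c x y : ℤ) - (if x = y then (d : ℤ) - 2 else 0)

open Classical in
/-- The matrix `2 I + A` of a graph. -/
def gm {C : Type} (Γ : SimpleGraph C) (p q : C) : ℤ :=
  if p = q then 2 else if Γ.Adj p q then 1 else 0

open Classical in
/-- The reduced structure. -/
structure Red (C D : Type) [Fintype C] [Fintype D] (d L k : ℕ) where
  R : C → D → ℕ
  Γ : SimpleGraph C
  Lpos : 0 < L
  card : Fintype.card C = Fintype.card D
  rowsum : ∀ p, ∑ q, R p q = d
  colsum : ∀ q, ∑ p, R p q = d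
  rr : ∀ p, ∑ q, R p q ^ 2 = d - 2 + 2 * L
  rr_adj : ∀ p p', Γ.Adj p p' → ∑ q, R p q * R p' q = L
  rr_nadj : ∀ p p', p ≠ p' → ¬ Γ.Adj p p' → ∑ q, R p q * R p' q = 0
  cc : ∀ q, ∑ p, R p q ^ 2 = d - 2 + 2 * L
  conn : Γ.Connected
  reg : ∀ p, Γ.degree p = k
  hK : L * (k + 2) + d = d ^ 2 + 2
  gram : Gram (gm Γ)
  sq : Odd (Fintype.card C * (L - 1)) → IsSquare (d - 2)

/-- The arithmetic condition. -/
def Crit (d : ℕ) : Prop :=
  d % 16 = 15 ∧
  (∀ p : ℕ, p.Prime → p ∣ (d ^ 2 - d + 2) / 4 → p % 4 = 1) ∧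
  (∀ q : ℕ, 1 < q → q ∣ (d ^ 2 - d + 2) / 4 → ¬ IsSquare (d - 2 + 4 * ((d ^ 2 - d + 2) / 4 / q)))

end

end Pool.Agent.H15.GP
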