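import Mathlib
import Pool.Agent.H15.GP.Defs

/-!
# GrB: the bilinear form of an integer matrix

Elementary: distributivity, symmetry, values on indicator functions (`Finset.sum_ite_mem`, `Finset.sum_subset`).
-/

set_option autoImplicit false

namespace Pool.Agent.H15.GP

open Finset

noncomputable section

variable {X : Type} [Fintype X] (G : X → X → ℤ)

theorem bil_add_left (f g h : X → ℤ) : bil G (f + g) h = bil G f h + bil G g h := by
  simp only [bil, Pi.add_apply, add_mul, sum_add_distrib]

theorem bil_add_right (f g h : X → ℤ) : bil G f (g + h) = bil G f g + bil G f h := by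
  simp only [bil, Pi.add_apply, mul_add, add_mul, sum_add_distrib]

theorem bil_smul_left (c : ℤ) (f h : X → ℤ) : bil G (c • f) h = c * bil G f h := by
  simp only [bil, Pi.smul_apply, smul_eq_mul, mul_sum, mul_assoc]

theorem bil_smul_right (c : ℤ) (f h : X → ℤ) : bil G f (c • h) = c * bil G f h := by
  simp only [bil, Pi.smul_apply, smul_eq_mul, mul_sum]
  refine sum_congr rfl fun x _ => sum_congr rfl fun y _ => ?_
  ring

theorem bil_comm (hG : ∀ x y, G x y = G y x) (f g : X → ℤ) : bil G f g = bil G g f := by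
  simp only [bil]
  rw [sum_comm]
  refine sum_congr rfl fun x _ => sum_congr rfl fun y _ => ?_
  rw [hG y x]
  ring

theorem bil_ind (S T : Finset X) : bil G (ind S) (ind T) = ∑ x ∈ S, ∑ y ∈ T, G x y := by
  classical
  simp only [bil, ind, ite_mul, mul_ite, one_mul, mul_one, zero_mul, mul_zero]
  rw [← sum_subset (subset_univ S)]
  · refine sum_congr rfl fun x hx => ?_
    rw [← sum_subset (subset_univ T)]
    · refine sum_congr rfl fun y hy => ?_
      rw [if_pos hy, if_pos hx]
    · intro y _ hy
      rw [if_neg hy]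
  · intro x _ hx
    refine sum_eq_zero fun y _ => ?_
    rw [if_neg hx, ite_self]

theorem bil_ind_single (x y : X) : bil G (ind {x}) (ind {y}) = G x y := by
  rw [bil_ind, sum_singleton, sum_singleton]

theorem sum_ind_sq (S : Finset X) : ∑ x, ind S x ^ 2 = S.card := by
  classical
  have h : ∀ x : X, ind S x ^ 2 = if x ∈ S then (1 : ℤ) else 0 := by
    intro x
    unfold ind
    split_ifs <;> norm_num
  simp only [h]
  rw [sum_boole]
  congr 1
  congr 1
  ext x
  simp

private theorem ind_mul_ne {S T : Finset X} (h : Disjoint S T) (x : X) :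
    ind S x * ind T x = 0 := by
  classical
  unfold ind
  by_cases hS : x ∈ S
  · rw [if_neg (fun hT => (Finset.disjoint_left.1 h) hS hT), mul_zero]
  · rw [if_neg hS, zero_mul]

/-- The sum of squares of a combination of indicators of disjoint sets. -/
theorem sum_sq_three (S T U : Finset X) (hST : Disjoint S T) (hSU : Disjoint S U) (hTU : Disjoint T U) (a b c : ℤ) :
    ∑ x, (a • ind S + b • ind T + c • ind U : X → ℤ) x ^ 2 = a ^ 2 * S.card + b ^ 2 * T.card + c ^ 2 * U.card := by
  rw [← sum_ind_sq S, ← sum_ind_sq T, ← sum_ind_sq U, mul_sum, mul_sum, mul_sum,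
    ← sum_add_distrib, ← sum_add_distrib]
  refine sum_congr rfl fun x _ => ?_
  have h1 := ind_mul_ne hST x
  have h2 := ind_mul_ne hSU x
  have h3 := ind_mul_ne hTU x
  simp only [Pi.add_apply, Pi.smul_apply, smul_eq_mul]
  linear_combination (2 * a * b) * h1 + (2 * a * c) * h2 + (2 * b * c) * h3

/-- The same for four disjoint sets. -/
theorem sum_sq_four (S T U W : Finset X) (hST : Disjoint S T) (hSU : Disjoint S U) (hSW : Disjoint S W)
    (hTU : Disjoint T U) (hTW : Disjoint T W) (hUW : Disjoint U W) (a b c e : ℤ) :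
    ∑ x, (a • ind S + b • ind T + c • ind U + e • ind W : X → ℤ) x ^ 2 =
      a ^ 2 * S.card + b ^ 2 * T.card + c ^ 2 * U.card + e ^ 2 * W.card := by
  rw [← sum_ind_sq S, ← sum_ind_sq T, ← sum_ind_sq U, ← sum_ind_sq W, mul_sum, mul_sum, mul_sum,
    mul_sum, ← sum_add_distrib, ← sum_add_distrib, ← sum_add_distrib]
  refine sum_congr rfl fun x _ => ?_
  have h1 := ind_mul_ne hST x
  have h2 := ind_mul_ne hSU x
  have h3 := ind_mul_ne hTU x
  have h4 := ind_mul_ne hSW x
  have h5 := ind_mul_ne hTW x
  have h6 := ind_mul_ne hUW x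
  simp only [Pi.add_apply, Pi.smul_apply, smul_eq_mul]
  linear_combination (2 * a * b) * h1 + (2 * a * c) * h2 + (2 * b * c) * h3 +
    (2 * a * e) * h4 + (2 * b * e) * h5 + (2 * c * e) * h6

end

end Pool.Agent.H15.GP
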