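import Mathlib
import Pool.Agent.H15.GP.GrB

/-!
# GrT: entries at most 2, and equality 2 means equal rows

`Gram.le_two`: if `x = y` then `G x x = 2`; otherwise the test function `f = ind {x} - ind {y}` has `bil G f f = 4 - 2 G x y` and `∑ f² = 2`:
`-2 ≤ 100 (4 - 2 G x y)`, so `G x y ≤ 2` (integers).
`Gram.par`: trivial if `x = y`, `z = x` or `z = y`.  Otherwise put `e = G x z - G y z` and test `f = 2 s (ind {x} - ind {y}) - ind {z}` with `s = ±1` the sign of `e`:
`bil G f f = 4 (2 + 2 - 2·2) - 4 |e| + 2 = 2 - 4 |e|`, `∑ f² = 9`; if `e ≠ 0` then `-9 ≤ 100 (2 - 4 |e|) ≤ -200`, contradiction.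
-/

set_option autoImplicit false

namespace Pool.Agent.H15.GP

open Finset

noncomputable section

variable {X : Type} [Fintype X] {G : X → X → ℤ}

/-- The sum of the entries of a block. -/
def es (G : X → X → ℤ) (S T : Finset X) : ℤ := ∑ x ∈ S, ∑ y ∈ T, G x y

theorem es_single (x y : X) : es G {x} {y} = G x y := by
  simp [es]

theorem es_comm (hG : ∀ x y, G x y = G y x) (S T : Finset X) : es G S T = es G T S := by
  unfold es
  rw [sum_comm]
  exact sum_congr rfl fun x _ => sum_congr rfl fun y _ => hG y x

theorem es_union_left [DecidableEq X] (S T U : Finset X) (h : Disjoint S T) : es G (S ∪ T) U = es G S U + es G T U := by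
  unfold es
  rw [sum_union h]

theorem es_union_right [DecidableEq X] (S T U : Finset X) (h : Disjoint T U) : es G S (T ∪ U) = es G S T + es G S U := by
  unfold es
  rw [← sum_add_distrib]
  exact sum_congr rfl fun x _ => sum_union h

/-- A test function with three values. -/
theorem Gram.three (h : Gram G) (S T U : Finset X) (hST : Disjoint S T) (hSU : Disjoint S U) (hTU : Disjoint T U)
    (a b c : ℤ) : -(a ^ 2 * S.card + b ^ 2 * T.card + c ^ 2 * U.card) ≤
      100 * (a ^ 2 * es G S S + b ^ 2 * es G T T + c ^ 2 * es G U U + 2 * a * b * es G S T + 2 * a * c * es G S U +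
        2 * b * c * es G T U) := by
  have h1 := h.psd (a • ind S + b • ind T + c • ind U)
  rw [sum_sq_three S T U hST hSU hTU] at h1
  have h2 : bil G (a • ind S + b • ind T + c • ind U) (a • ind S + b • ind T + c • ind U) =
      a ^ 2 * es G S S + b ^ 2 * es G T T + c ^ 2 * es G U U + 2 * a * b * es G S T + 2 * a * c * es G S U +
        2 * b * c * es G T U := by
    simp only [bil_add_left, bil_add_right, bil_smul_left, bil_smul_right, bil_ind]
    have e1 := es_comm h.symm T S
    have e2 := es_comm h.symm U S
    have e3 := es_comm h.symm U T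
    unfold es at e1 e2 e3 ⊢
    rw [e1, e2, e3]
    ring
  rw [h2] at h1
  exact h1

/-- A test function with four values. -/
theorem Gram.four (h : Gram G) (S T U W : Finset X) (hST : Disjoint S T) (hSU : Disjoint S U) (hSW : Disjoint S W)
    (hTU : Disjoint T U) (hTW : Disjoint T W) (hUW : Disjoint U W) (a b c e : ℤ) :
    -(a ^ 2 * S.card + b ^ 2 * T.card + c ^ 2 * U.card + e ^ 2 * W.card) ≤
      100 * (a ^ 2 * es G S S + b ^ 2 * es G T T + c ^ 2 * es G U U + e ^ 2 * es G W W + 2 * a * b * es G S T +
        2 * a * c * es G S U + 2 * a * e * es G S W + 2 * b * c * es G T U + 2 * b * e * es G T W +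
        2 * c * e * es G U W) := by
  have h1 := h.psd (a • ind S + b • ind T + c • ind U + e • ind W)
  rw [sum_sq_four S T U W hST hSU hSW hTU hTW hUW] at h1
  have h2 : bil G (a • ind S + b • ind T + c • ind U + e • ind W) (a • ind S + b • ind T + c • ind U + e • ind W) =
      a ^ 2 * es G S S + b ^ 2 * es G T T + c ^ 2 * es G U U + e ^ 2 * es G W W + 2 * a * b * es G S T +
        2 * a * c * es G S U + 2 * a * e * es G S W + 2 * b * c * es G T U + 2 * b * e * es G T W +
        2 * c * e * es G U W := by
    simp only [bil_add_left, bil_add_right, bil_smul_left, bil_smul_right, bil_ind]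
    have e1 := es_comm h.symm T S
    have e2 := es_comm h.symm U S
    have e3 := es_comm h.symm U T
    have e4 := es_comm h.symm W S
    have e5 := es_comm h.symm W T
    have e6 := es_comm h.symm W U
    unfold es at e1 e2 e3 e4 e5 e6 ⊢
    rw [e1, e2, e3, e4, e5, e6]
    ring
  rw [h2] at h1
  exact h1

theorem Gram.le_two (h : Gram G) (x y : X) : G x y ≤ 2 := by
  classical
  by_cases hxy : x = y
  · subst hxy
    exact (h.diag x).le
  · have h1 := h.three {x} {y} ∅ (by simpa using hxy) (by simp) (by simp) 1 (-1) 0
    simp only [es_single, h.diag, card_singleton, card_empty] at h1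
    omega

theorem Gram.par (h : Gram G) {x y : X} (hxy : G x y = 2) (z : X) : G x z = G y z := by
  classical
  by_cases h1 : x = y
  · rw [h1]
  by_cases h2 : x = z
  · subst h2
    rw [h.diag, h.symm y x, hxy]
  by_cases h3 : y = z
  · subst h3
    rw [h.diag, hxy]
  have hd1 : Disjoint ({x} : Finset X) {y} := by simpa using h1
  have hd2 : Disjoint ({x} : Finset X) {z} := by simpa using h2
  have hd3 : Disjoint ({y} : Finset X) {z} := by simpa using h3
  have e1 := h.three {x} {y} {z} hd1 hd2 hd3 2 (-2) 1
  have e2 := h.three {x} {y} {z} hd1 hd2 hd3 2 (-2) (-1)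
  simp only [es_single, h.diag, card_singleton, hxy] at e1 e2
  omega

end

end Pool.Agent.H15.GP
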