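import Mathlib
import Pool.Agent.H15.GP.GrT

/-!
# GrQ: a vertex and a clique

Let `A ∪ B` be a clique (`A`, `B` disjoint), `z ∉ A ∪ B` adjacent to all of `A` and to none of `B`, `a = |A|`, `b = |B|`, `t = a + b`.
`clique_test`: test function `f = (t+1) z - (b+1) 1_A + a 1_B`.  With `G = gm Γ` (diagonal 2, adjacent 1, nonadjacent 0):
on the clique the form is `∑ f² + (∑ f)²`, `∑_{A ∪ B} f = -a(b+1) + ab = -a`, the cross term with `z` is `-2 (t+1)(b+1) a`, so
`bil G f f = 2(t+1)² + a(b+1)² + b a² + a² - 2a(t+1)(b+1) = (t+1)(2(t+1) - a(b+1))`, because `a(b+1)² + b a² + a² = a(b+1)(t+1)`; `∑ f² = (t+1)² + a(b+1)² + b a²`.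
`clique_dich`: if `a ≥ 3`, `b ≥ 2`, `a + b ≥ 9`, choose subsets `A' ⊆ A`, `B' ⊆ B` (`Finset.exists_subset_card_eq`) of sizes
`(7,2)` if `b = 2`; `(5,3)` if `b = 3`; `(4,4)` if `a, b ≥ 4`; `(3,6)` if `a = 3`; the inequality of `clique_test` reads
`-261 ≤ -1000`, `-236 ≤ -1800`, `-245 ≤ -1800`, `-301 ≤ -1000`: false.
-/

set_option autoImplicit false

namespace Pool.Agent.H15.GP

open Finset

noncomputable section

variable {C : Type} [Fintype C] {Γ : SimpleGraph C}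

theorem gm_self (p : C) : gm Γ p p = 2 := by
  simp [gm]

theorem gm_adj {p q : C} (h : Γ.Adj p q) : gm Γ p q = 1 := by
  simp [gm, h, h.ne]

theorem gm_nadj {p q : C} (hne : p ≠ q) (h : ¬ Γ.Adj p q) : gm Γ p q = 0 := by
  simp [gm, h, hne]

theorem es_clique (A : Finset C) (hA : ∀ p ∈ A, ∀ q ∈ A, p ≠ q → Γ.Adj p q) :
    es (gm Γ) A A = (A.card : ℤ) ^ 2 + A.card := by
  classical
  unfold es
  have h1 : ∀ p ∈ A, ∑ q ∈ A, gm Γ p q = (A.card : ℤ) + 1 := by
    intro p hp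
    rw [← add_sum_erase A _ hp, gm_self]
    have h2 : ∀ q ∈ A.erase p, gm Γ p q = 1 := by
      intro q hq
      rw [mem_erase] at hq
      exact gm_adj (hA p hp q hq.2 hq.1.symm)
    rw [sum_congr rfl h2, sum_const, card_erase_of_mem hp]
    have : 0 < A.card := card_pos.2 ⟨p, hp⟩
    simp only [nsmul_eq_mul, mul_one]
    push_cast [Nat.cast_sub (show 1 ≤ A.card by omega)]
    ring
  rw [sum_congr rfl h1, sum_const, nsmul_eq_mul]
  ring

theorem es_full (A B : Finset C) (h : ∀ p ∈ A, ∀ q ∈ B, Γ.Adj p q) : es (gm Γ) A B = (A.card : ℤ) * B.card := by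
  unfold es
  rw [sum_congr rfl fun p hp => sum_congr rfl fun q hq => gm_adj (h p hp q hq)]
  simp

theorem es_empty (A B : Finset C) (h : ∀ p ∈ A, ∀ q ∈ B, p ≠ q ∧ ¬ Γ.Adj p q) : es (gm Γ) A B = 0 := by
  unfold es
  exact sum_eq_zero fun p hp => sum_eq_zero fun q hq => gm_nadj (h p hp q hq).1 (h p hp q hq).2

theorem clique_test (hG : Gram (gm Γ)) (A B : Finset C) (z : C) (hzA : z ∉ A) (hzB : z ∉ B) (hAB : Disjoint A B)
    (hA : ∀ p ∈ A, ∀ q ∈ A, p ≠ q → Γ.Adj p q) (hB : ∀ p ∈ B, ∀ q ∈ B, p ≠ q → Γ.Adj p q)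
    (hAB' : ∀ p ∈ A, ∀ q ∈ B, Γ.Adj p q) (hzA' : ∀ p ∈ A, Γ.Adj z p) (hzB' : ∀ p ∈ B, ¬ Γ.Adj z p) :
    -(((A.card : ℤ) + B.card + 1) ^ 2 + A.card * (B.card + 1) ^ 2 + B.card * A.card ^ 2) ≤
      100 * (((A.card : ℤ) + B.card + 1) * (2 * (A.card + B.card + 1) - A.card * (B.card + 1))) := by
  classical
  have h1 := hG.three {z} A B (by simpa using hzA) (by simpa using hzB) hAB ((A.card : ℤ) + B.card + 1)
    (-((B.card : ℤ) + 1)) (A.card : ℤ)
  have e1 : es (gm Γ) {z} {z} = 2 := by rw [es_single, gm_self]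
  have e2 := es_clique A hA
  have e3 := es_clique B hB
  have e4 : es (gm Γ) {z} A = A.card := by
    rw [es_full {z} A (by intro p hp q hq; rw [mem_singleton] at hp; rw [hp]; exact hzA' q hq)]
    simp
  have e5 : es (gm Γ) {z} B = 0 := by
    refine es_empty {z} B ?_
    intro p hp q hq
    rw [mem_singleton] at hp
    rw [hp]
    exact ⟨fun h => hzB (h ▸ hq), hzB' q hq⟩
  have e6 := es_full A B hAB'
  rw [e1, e2, e3, e4, e5, e6, card_singleton] at h1
  push_cast at h1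
  nlinarith [h1]

theorem clique_dich (hG : Gram (gm Γ)) (A B : Finset C) (z : C) (hzA : z ∉ A) (hzB : z ∉ B) (hAB : Disjoint A B)
    (hA : ∀ p ∈ A, ∀ q ∈ A, p ≠ q → Γ.Adj p q) (hB : ∀ p ∈ B, ∀ q ∈ B, p ≠ q → Γ.Adj p q)
    (hAB' : ∀ p ∈ A, ∀ q ∈ B, Γ.Adj p q) (hzA' : ∀ p ∈ A, Γ.Adj z p) (hzB' : ∀ p ∈ B, ¬ Γ.Adj z p)
    (ha : 3 ≤ A.card) (hb : 2 ≤ B.card) (hab : 9 ≤ A.card + B.card) : False := by
  have key : ∀ i j : ℕ, i ≤ A.card → j ≤ B.card →
      -(((i : ℤ) + j + 1) ^ 2 + i * (j + 1) ^ 2 + j * i ^ 2) ≤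
        100 * (((i : ℤ) + j + 1) * (2 * (i + j + 1) - i * (j + 1))) := by
    intro i j hi hj
    obtain ⟨A', hA', hA'c⟩ := exists_subset_card_eq hi
    obtain ⟨B', hB', hB'c⟩ := exists_subset_card_eq hj
    have h1 := clique_test hG A' B' z (fun h => hzA (hA' h)) (fun h => hzB (hB' h))
      (disjoint_of_subset_left hA' (disjoint_of_subset_right hB' hAB))
      (fun p hp q hq hne => hA p (hA' hp) q (hA' hq) hne) (fun p hp q hq hne => hB p (hB' hp) q (hB' hq) hne)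
      (fun p hp q hq => hAB' p (hA' hp) q (hB' hq)) (fun p hp => hzA' p (hA' hp)) (fun p hp => hzB' p (hB' hp))
    rw [hA'c, hB'c] at h1
    exact h1
  by_cases h3 : A.card = 3
  · have := key 3 6 (by omega) (by omega)
    norm_num at this
  · by_cases hb2 : B.card = 2
    · have := key 7 2 (by omega) (by omega)
      norm_num at this
    · by_cases hb3 : B.card = 3
      · have := key 5 3 (by omega) (by omega)
        norm_num at this
      · have := key 4 4 (by omega) (by omega)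
        norm_num at this

end

end Pool.Agent.H15.GP
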