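import Mathlib
import Pool.Agent.H15.GP.GrQ

/-!
# GrN: the null vector `u + u' - y - z`

`u ≁ u'`, `y ≁ z`, `u, u'` adjacent to both `y` and `z`: `ν = u + u' - y - z` has `bil ν ν = 4 + 4 - 2·4 = 0`.
Let `e = gm x u + gm x u' - gm x y - gm x z` and suppose `e ≠ 0`; test `f = 2 s ν - x` with `s = ±1` the sign of `e`:
`bil f f = -4 |e| + 2 ≤ -2`, `∑ f² = 17`: `-17 ≤ -200`, contradiction.
-/

set_option autoImplicit false

namespace Pool.Agent.H15.GP

open Finset

noncomputable section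

variable {C : Type} [Fintype C] {Γ : SimpleGraph C}

theorem null_pair (hG : Gram (gm Γ)) (u u' y z x : C) (huu : u ≠ u') (hyz : y ≠ z) (h1 : ¬ Γ.Adj u u') (h2 : ¬ Γ.Adj y z)
    (h3 : Γ.Adj u y) (h4 : Γ.Adj u z) (h5 : Γ.Adj u' y) (h6 : Γ.Adj u' z)
    (hxu : x ≠ u) (hxu' : x ≠ u') (hxy : x ≠ y) (hxz : x ≠ z) :
    gm Γ x u + gm Γ x u' = gm Γ x y + gm Γ x z := by
  classical
  have e1 : es (gm Γ) {u, u'} {u, u'} = 4 := by
    simp only [es, sum_pair huu, gm_self, gm_nadj huu h1, gm_nadj huu.symm (fun h => h1 h.symm)]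
    norm_num
  have e2 : es (gm Γ) {y, z} {y, z} = 4 := by
    simp only [es, sum_pair hyz, gm_self, gm_nadj hyz h2, gm_nadj hyz.symm (fun h => h2 h.symm)]
    norm_num
  have e3 : es (gm Γ) {u, u'} {y, z} = 4 := by
    simp only [es, sum_pair huu, sum_pair hyz, gm_adj h3, gm_adj h4, gm_adj h5, gm_adj h6]
    norm_num
  have e4 : es (gm Γ) {u, u'} {x} = gm Γ x u + gm Γ x u' := by
    rw [es_comm hG.symm]
    simp only [es, sum_pair huu, sum_singleton]
  have e5 : es (gm Γ) {y, z} {x} = gm Γ x y + gm Γ x z := by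
    rw [es_comm hG.symm]
    simp only [es, sum_pair hyz, sum_singleton]
  have e6 : es (gm Γ) {x} {x} = 2 := by rw [es_single, gm_self]
  have d1 : Disjoint ({u, u'} : Finset C) {y, z} := by
    rw [disjoint_left]
    intro a ha hb
    simp only [mem_insert, mem_singleton] at ha hb
    rcases ha with rfl | rfl <;> rcases hb with rfl | rfl
    · exact h3.ne rfl
    · exact h4.ne rfl
    · exact h5.ne rfl
    · exact h6.ne rfl
  have d2 : Disjoint ({u, u'} : Finset C) {x} := by
    rw [disjoint_singleton_right]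
    simp only [mem_insert, mem_singleton, not_or]
    exact ⟨hxu, hxu'⟩
  have d3 : Disjoint ({y, z} : Finset C) {x} := by
    rw [disjoint_singleton_right]
    simp only [mem_insert, mem_singleton, not_or]
    exact ⟨hxy, hxz⟩
  have t1 := hG.three {u, u'} {y, z} {x} d1 d2 d3 2 (-2) 1
  have t2 := hG.three {u, u'} {y, z} {x} d1 d2 d3 2 (-2) (-1)
  rw [e1, e2, e3, e4, e5, e6, card_pair huu, card_pair hyz, card_singleton] at t1 t2
  push_cast at t1 t2
  omega

end

end Pool.Agent.H15.GP
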