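import Mathlib
import Pool.Agent.H15.GP.GrQ

/-!
# GrP: nonadjacent vertices with 10 pairwise adjacent common neighbours are twins

By symmetry suppose `x ~ y`, `x ≁ z`.  Then `x ∉ U`.  Let `A = {u ∈ U : u ~ x}`, `B = {u ∈ U : u ≁ x}` (`|A| + |B| ≥ 10`).
`clique_dich` for `(A ∪ {y}, B)` gives `|A| + 1 ≤ 2` or `|B| ≤ 1`; `clique_dich` for `(A, B ∪ {z})` gives `|A| ≤ 2` or `|B| + 1 ≤ 1`.
So either `|A| ≤ 1` (then `|B| ≥ 9`) or `|B| = 0` (then `|A| ≥ 9`): (`|A| = 2` forces `|B| ≥ 8`, excluded by the first alternative).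
Case `|B| ≥ 9`: `W ⊆ B`, `|W| = 9`, `f = 9 x - 18 (y + z) + 4 1_W`: `bil = 81·2 + 324·4 + 16·90 + 2(-162·1 + 36·0 - 72·18) = -18`, `∑ f² = 81 + 648 + 144 = 873`,
  contradiction `-873 ≤ -1800`.   (`bil(y+z, y+z) = 4`, `bil(1_W,1_W) = 18 + 72 = 90`, `bil(y+z,1_W) = 18`, `bil(x,y+z) = 1`, `bil(x,1_W) = 0`.)
Case `|A| ≥ 9`: `W ⊆ A`, `|W| = 9`, `f = 9 x + 18 (y + z) - 4 1_W`: `bil = 162 + 1296 + 1440 + 2(162 - 36·9 - 72·18) = -18`, same contradiction.
-/

set_option autoImplicit false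

namespace Pool.Agent.H15.GP

open Finset

noncomputable section

variable {C : Type} [Fintype C] {Γ : SimpleGraph C}

/-- the form of `{x}`, a nonadjacent pair `{y, z}` and a clique `W` joined to `y` and `z` -/
theorem petal_form (hG : Gram (gm Γ)) (y z : C) (hyz : y ≠ z) (hn : ¬ Γ.Adj y z) (W : Finset C)
    (hWW : ∀ p ∈ W, ∀ q ∈ W, p ≠ q → Γ.Adj p q) (hWy : ∀ p ∈ W, Γ.Adj y p) (hWz : ∀ p ∈ W, Γ.Adj z p)
    (x : C) (hxy : x ≠ y) (hxz : x ≠ z) (h1 : Γ.Adj x y) (h2 : ¬ Γ.Adj x z) (hxW : x ∉ W) (e : ℤ)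
    (he : es (gm Γ) {x} W = e) (a b c : ℤ) :
    -(a ^ 2 + b ^ 2 * 2 + c ^ 2 * W.card) ≤
      100 * (a ^ 2 * 2 + b ^ 2 * 4 + c ^ 2 * ((W.card : ℤ) ^ 2 + W.card) + 2 * a * b + 2 * a * c * e +
        2 * b * c * (2 * W.card)) := by
  classical
  have e1 : es (gm Γ) {x} {x} = 2 := by rw [es_single, gm_self]
  have e2 : es (gm Γ) {y, z} {y, z} = 4 := by
    simp only [es, sum_pair hyz, gm_self, gm_nadj hyz hn, gm_nadj hyz.symm (fun h => hn h.symm)]
    norm_num
  have e3 := es_clique W hWW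
  have e4 : es (gm Γ) {x} {y, z} = 1 := by
    simp only [es, sum_singleton, sum_pair hyz, gm_adj h1, gm_nadj hxz h2]
    norm_num
  have e5 : es (gm Γ) {y, z} W = 2 * W.card := by
    rw [es_full {y, z} W (by
      intro p hp q hq
      simp only [mem_insert, mem_singleton] at hp
      rcases hp with rfl | rfl
      · exact hWy q hq
      · exact hWz q hq), card_pair hyz]
    push_cast
    ring
  have d1 : Disjoint ({x} : Finset C) {y, z} := by
    rw [disjoint_singleton_left]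
    simp only [mem_insert, mem_singleton, not_or]
    exact ⟨hxy, hxz⟩
  have d2 : Disjoint ({x} : Finset C) W := by
    rw [disjoint_singleton_left]
    exact hxW
  have d3 : Disjoint ({y, z} : Finset C) W := by
    rw [disjoint_left]
    intro p hp hp'
    simp only [mem_insert, mem_singleton] at hp
    rcases hp with rfl | rfl
    · exact (hWy p hp').ne rfl
    · exact (hWz p hp').ne rfl
  have t := hG.three {x} {y, z} W d1 d2 d3 a b c
  rw [e1, e2, e3, e4, he, e5, card_singleton, card_pair hyz] at t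
  push_cast at t
  linarith

theorem petal_aux (hG : Gram (gm Γ)) (y z : C) (hyz : y ≠ z) (hn : ¬ Γ.Adj y z) (U : Finset C) (hU : 10 ≤ U.card)
    (hUU : ∀ p ∈ U, ∀ q ∈ U, p ≠ q → Γ.Adj p q) (hUy : ∀ p ∈ U, Γ.Adj y p) (hUz : ∀ p ∈ U, Γ.Adj z p)
    (x : C) (hxy : x ≠ y) (hxz : x ≠ z) (h1 : Γ.Adj x y) (h2 : ¬ Γ.Adj x z) : False := by
  classical
  have hxU : x ∉ U := fun h => h2 (hUz x h).symm
  have hyU : y ∉ U := fun h => (hUy y h).ne rfl
  have hzU : z ∉ U := fun h => (hUz z h).ne rfl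
  set A := U.filter fun u => Γ.Adj x u with hA
  set B := U.filter fun u => ¬ Γ.Adj x u with hB
  have hABc : A.card + B.card = U.card := card_filter_add_card_filter_not _
  have hAU : A ⊆ U := filter_subset _ _
  have hBU : B ⊆ U := filter_subset _ _
  have hAx : ∀ p ∈ A, Γ.Adj x p := fun p hp => (mem_filter.1 hp).2
  have hBx : ∀ p ∈ B, ¬ Γ.Adj x p := fun p hp => (mem_filter.1 hp).2
  have hdisj : Disjoint A B := by
    rw [disjoint_left]
    intro p hp hp'
    exact hBx p hp' (hAx p hp)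
  have hyA : y ∉ A := fun h => hyU (hAU h)
  have hzB : z ∉ B := fun h => hzU (hBU h)
  -- first application
  have c1 : ¬ (3 ≤ A.card + 1 ∧ 2 ≤ B.card ∧ 9 ≤ A.card + 1 + B.card) := by
    rintro ⟨g1, g2, g3⟩
    refine clique_dich hG (insert y A) B x ?_ (fun h => hxU (hBU h)) ?_ ?_ ?_ ?_ ?_ hBx ?_ g2 ?_
    · rw [mem_insert, not_or]
      exact ⟨hxy, fun h => hxU (hAU h)⟩
    · rw [disjoint_insert_left]
      exact ⟨fun h => hyU (hBU h), hdisj⟩
    · intro p hp q hq hne
      rw [mem_insert] at hp hq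
      rcases hp with rfl | hp <;> rcases hq with rfl | hq
      · exact absurd rfl hne
      · exact hUy q (hAU hq)
      · exact (hUy p (hAU hp)).symm
      · exact hUU p (hAU hp) q (hAU hq) hne
    · intro p hp q hq hne
      exact hUU p (hBU hp) q (hBU hq) hne
    · intro p hp q hq
      rw [mem_insert] at hp
      rcases hp with rfl | hp
      · exact hUy q (hBU hq)
      · exact hUU p (hAU hp) q (hBU hq) (fun h => (disjoint_left.1 hdisj) hp (h ▸ hq))
    · intro p hp
      rw [mem_insert] at hp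
      rcases hp with rfl | hp
      · exact h1
      · exact hAx p hp
    · rw [card_insert_of_notMem hyA]
      exact g1
    · rw [card_insert_of_notMem hyA]
      exact g3
  have c2 : ¬ (3 ≤ A.card ∧ 2 ≤ B.card + 1 ∧ 9 ≤ A.card + (B.card + 1)) := by
    rintro ⟨g1, g2, g3⟩
    refine clique_dich hG A (insert z B) x (fun h => hxU (hAU h)) ?_ ?_ ?_ ?_ ?_ hAx ?_ g1 ?_ ?_
    · rw [mem_insert, not_or]
      exact ⟨hxz, fun h => hxU (hBU h)⟩
    · rw [disjoint_insert_right]
      exact ⟨fun h => hzU (hAU h), hdisj⟩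
    · intro p hp q hq hne
      exact hUU p (hAU hp) q (hAU hq) hne
    · intro p hp q hq hne
      rw [mem_insert] at hp hq
      rcases hp with rfl | hp <;> rcases hq with rfl | hq
      · exact absurd rfl hne
      · exact hUz q (hBU hq)
      · exact (hUz p (hBU hp)).symm
      · exact hUU p (hBU hp) q (hBU hq) hne
    · intro p hp q hq
      rw [mem_insert] at hq
      rcases hq with rfl | hq
      · exact (hUz p (hAU hp)).symm
      · exact hUU p (hAU hp) q (hBU hq) (fun h => (disjoint_left.1 hdisj) hp (h ▸ hq))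
    · intro p hp
      rw [mem_insert] at hp
      rcases hp with rfl | hp
      · exact h2
      · exact hBx p hp
    · rw [card_insert_of_notMem hzB]
      exact g2
    · rw [card_insert_of_notMem hzB]
      exact g3
  have hcase : 9 ≤ B.card ∨ 9 ≤ A.card := by omega
  rcases hcase with h9 | h9
  · obtain ⟨W, hW, hWc⟩ := exists_subset_card_eq h9
    have he : es (gm Γ) {x} W = 0 := by
      refine es_empty {x} W ?_
      intro p hp q hq
      rw [mem_singleton] at hp
      subst hp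
      exact ⟨fun h => hxU (hBU (hW (h ▸ hq))), hBx q (hW hq)⟩
    have t := petal_form hG y z hyz hn W (fun p hp q hq hne => hUU p (hBU (hW hp)) q (hBU (hW hq)) hne)
      (fun p hp => hUy p (hBU (hW hp))) (fun p hp => hUz p (hBU (hW hp))) x hxy hxz h1 h2
      (fun h => hxU (hBU (hW h))) 0 he 9 (-18) 4
    rw [hWc] at t
    norm_num at t
  · obtain ⟨W, hW, hWc⟩ := exists_subset_card_eq h9
    have he : es (gm Γ) {x} W = 9 := by
      rw [es_full {x} W (by
        intro p hp q hq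
        rw [mem_singleton] at hp
        subst hp
        exact hAx q (hW hq)), hWc, card_singleton]
      norm_num
    have t := petal_form hG y z hyz hn W (fun p hp q hq hne => hUU p (hAU (hW hp)) q (hAU (hW hq)) hne)
      (fun p hp => hUy p (hAU (hW hp))) (fun p hp => hUz p (hAU (hW hp))) x hxy hxz h1 h2
      (fun h => hxU (hAU (hW h))) 9 he 9 18 (-4)
    rw [hWc] at t
    norm_num at t

theorem petal (hG : Gram (gm Γ)) (y z : C) (hyz : y ≠ z) (hn : ¬ Γ.Adj y z) (U : Finset C) (hU : 10 ≤ U.card)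
    (hUU : ∀ p ∈ U, ∀ q ∈ U, p ≠ q → Γ.Adj p q) (hUy : ∀ p ∈ U, Γ.Adj y p) (hUz : ∀ p ∈ U, Γ.Adj z p)
    (x : C) (hxy : x ≠ y) (hxz : x ≠ z) : Γ.Adj x y ↔ Γ.Adj x z :=
  ⟨fun h1 => by
    by_contra h2
    exact petal_aux hG y z hyz hn U hU hUU hUy hUz x hxy hxz h1 h2,
   fun h1 => by
    by_contra h2
    exact petal_aux hG z y hyz.symm (fun h => hn h.symm) U hU hUU hUz hUy x hxz hxy h1 h2⟩

end

end Pool.Agent.H15.GP
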