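import Mathlib
import Pool.Agent.H15.GP.GrP
import Pool.Agent.H15.GP.GrN

/-!
# GrC: a petal makes the whole graph a cocktail party graph

`y ≁ z` with 10 pairwise adjacent common neighbours `U`.  By `petal` the neighbourhoods of `y` and `z` agree; `W = Γ(y) = Γ(z)`, `|W| = k`.
Let `u ∈ W`.  If `u` were adjacent to all other elements of `W`, its degree would be `≥ (k - 1) + 2 = k + 1` (it is adjacent to `y` and `z` too).
So there is `u' ∈ W`, `u' ≠ u`, `u' ≁ u`.  For a neighbour `x` of `u` (`x ≠ u'` since `u ≁ u'`), if `x ∉ {y, z}` then by `null_pair`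
`gm x y + gm x z = 1 + gm x u' ≥ 1`, so `x` is adjacent to `y` or `z`, hence to both (`petal`), `x ∈ W`.
So `W ∪ {y, z}` is closed under adjacency (also for `y`, `z`), and it is everything by connectivity: `card C = k + 2`.
Then every vertex has exactly `k + 2 - 1 - k = 1` nonneighbour different from itself.
-/

set_option autoImplicit false

namespace Pool.Agent.H15.GP

open Finset

noncomputable section

variable {C : Type} [Fintype C] {Γ : SimpleGraph C}

open Classical in
theorem cp_of_petal (hG : Gram (gm Γ)) (hconn : Γ.Connected) (k : ℕ) (hreg : ∀ p, Γ.degree p = k)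
    (y z : C) (hyz : y ≠ z) (hn : ¬ Γ.Adj y z) (U : Finset C) (hU : 10 ≤ U.card)
    (hUU : ∀ p ∈ U, ∀ q ∈ U, p ≠ q → Γ.Adj p q) (hUy : ∀ p ∈ U, Γ.Adj y p) (hUz : ∀ p ∈ U, Γ.Adj z p) :
    Fintype.card C = k + 2 ∧ ∀ p, ∃! q, q ≠ p ∧ ¬ Γ.Adj p q := by
  have hpet := petal hG y z hyz hn U hU hUU hUy hUz
  set W := Γ.neighborFinset y with hW
  have hWy : ∀ u ∈ W, Γ.Adj y u := fun u hu => (SimpleGraph.mem_neighborFinset _ _ _).1 hu
  have hWz : ∀ u ∈ W, Γ.Adj z u := by
    intro u hu
    have h1 := hWy u hu
    have h2 : u ≠ z := by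
      rintro rfl
      exact hn h1
    exact ((hpet u h1.ne' h2).1 h1.symm).symm
  have hzW : ∀ u, Γ.Adj z u → u ∈ W := by
    intro u hu
    have h2 : u ≠ y := by
      rintro rfl
      exact hn hu.symm
    rw [hW, SimpleGraph.mem_neighborFinset]
    exact ((hpet u h2 hu.ne').2 hu.symm).symm
  have hWc : W.card = k := by
    rw [hW, SimpleGraph.card_neighborFinset_eq_degree, hreg]
  have hyW : y ∉ W := fun h => (hWy y h).ne rfl
  have hzW' : z ∉ W := fun h => hn (hWy z h)
  have hclosed : ∀ u ∈ W, ∀ x, Γ.Adj u x → x = y ∨ x = z ∨ x ∈ W := by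
    intro u hu x hux
    by_cases hxy : x = y
    · exact Or.inl hxy
    by_cases hxz : x = z
    · exact Or.inr (Or.inl hxz)
    right
    right
    have hex : ∃ u' ∈ W, u' ≠ u ∧ ¬ Γ.Adj u u' := by
      by_contra hcon
      push Not at hcon
      have h1 : insert y (insert z (W.erase u)) ⊆ Γ.neighborFinset u := by
        intro a ha
        rw [mem_insert, mem_insert, mem_erase] at ha
        rw [SimpleGraph.mem_neighborFinset]
        rcases ha with rfl | rfl | ⟨ha1, ha2⟩
        · exact (hWy u hu).symm
        · exact (hWz u hu).symm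
        · exact hcon a ha2 ha1
      have h2 := card_le_card h1
      rw [SimpleGraph.card_neighborFinset_eq_degree, hreg, card_insert_of_notMem (by
        rw [mem_insert, not_or]
        exact ⟨hyz, fun h => hyW (mem_of_mem_erase h)⟩), card_insert_of_notMem (fun h => hzW' (mem_of_mem_erase h)),
        card_erase_of_mem hu, hWc] at h2
      have h3 : 0 < k := by
        rw [← hWc]
        exact card_pos.2 ⟨u, hu⟩
      omega
    obtain ⟨u', hu', hne, hnadj⟩ := hex
    have hxu' : x ≠ u' := by
      rintro rfl
      exact hnadj hux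
    have hnull := null_pair hG u u' y z x hne.symm hyz hnadj hn (hWy u hu).symm (hWz u hu).symm (hWy u' hu').symm
      (hWz u' hu').symm hux.ne' hxu' hxy hxz
    have hnn := hG.nonneg x u'
    rw [gm_adj hux.symm] at hnull
    rw [hW, SimpleGraph.mem_neighborFinset]
    by_contra hcon
    have h1 : ¬ Γ.Adj x y := fun h => hcon h.symm
    have h2 : ¬ Γ.Adj x z := fun h => h1 ((hpet x hxy hxz).2 h)
    rw [gm_nadj hxy h1, gm_nadj hxz h2] at hnull
    omega
  have hS : ∀ v, v ∈ insert y (insert z W) := by
    intro v
    have h1 : ∀ v : C, v ∈ ((insert y (insert z W) : Finset C) : Set C) := by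
      intro v
      obtain ⟨w⟩ := hconn.preconnected y v
      have hgen : ∀ a b : C, Γ.Walk a b → a ∈ insert y (insert z W) → b ∈ insert y (insert z W) := by
        intro a b w
        induction w with
        | nil => exact fun h => h
        | cons h _ ih =>
          intro ha
          apply ih
          rw [mem_insert, mem_insert] at ha ⊢
          rcases ha with rfl | rfl | ha
          · right
            right
            rw [hW, SimpleGraph.mem_neighborFinset]
            exact h
          · right
            right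
            exact hzW _ h
          · exact hclosed _ ha _ h
      exact hgen y v w (mem_insert_self _ _)
    exact h1 v
  have hcard : Fintype.card C = k + 2 := by
    have h1 : (insert y (insert z W)) = univ := eq_univ_of_forall hS
    rw [← card_univ, ← h1, card_insert_of_notMem (by
      rw [mem_insert, not_or]
      exact ⟨hyz, hyW⟩), card_insert_of_notMem hzW', hWc]
  refine ⟨hcard, fun p => ?_⟩
  have h1 : (univ \ insert p (Γ.neighborFinset p)).card = 1 := by
    rw [card_sdiff_of_subset (subset_univ _), card_univ, hcard, card_insert_of_notMem (by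
      rw [SimpleGraph.mem_neighborFinset]
      exact fun h => h.ne rfl), SimpleGraph.card_neighborFinset_eq_degree, hreg]
    omega
  obtain ⟨a, ha⟩ := card_eq_one.1 h1
  have hmem : ∀ q, q ∈ univ \ insert p (Γ.neighborFinset p) ↔ q ≠ p ∧ ¬ Γ.Adj p q := by
    intro q
    rw [mem_sdiff, mem_insert, SimpleGraph.mem_neighborFinset, not_or]
    exact ⟨fun h => h.2, fun h => ⟨mem_univ _, h⟩⟩
  refine ⟨a, ?_, ?_⟩
  · have : a ∈ univ \ insert p (Γ.neighborFinset p) := by rw [ha]; exact mem_singleton_self a
    exact (hmem a).1 this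
  · intro q hq
    have : q ∈ univ \ insert p (Γ.neighborFinset p) := (hmem q).2 hq
    rw [ha, mem_singleton] at this
    exact this

end

end Pool.Agent.H15.GP
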