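import Mathlib
import Pool.Agent.H15.GP.GrQ

/-!
# GrB2: big cliques

A big clique is a maximal clique with at least 11 elements; `NoPetal Γ`: two nonadjacent vertices never have 10 pairwise adjacent common neighbours.
* `big_out`: a vertex `z` outside a big clique `Q` has at most 2 neighbours in `Q`.  `A` = neighbours, `B` = the others (`B` nonempty by maximality, `|A| + |B| ≥ 11`).
  If `|A| ≥ 3` then `|B| ≤ 1` by `clique_dich`, so `B = {p}`, `|A| ≥ 10`, and `z ≁ p` have the common neighbours `A`: excluded by `NoPetal`.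
* `big_inter`: two different big cliques share at most one vertex.  By maximality neither contains the other; if `p ≠ p' ∈ Q ∩ Q'`, every `z ∈ Q' \ Q` has exactly the neighbours `p, p'` in `Q`
  and (taking one such `z`) `Q ∩ Q' = {p, p'}`.  Take `W ⊆ Q \ {p,p'}`, `W' ⊆ Q' \ {p,p'}` with 9 elements (no edges between them): the test function `f = 9 (p + p') - 2 1_W - 2 1_W'` has
  `bil f f = 81·6 + 4·90 + 4·90 - 4·9·18 - 4·9·18 = -90` and `∑ f² = 162 + 36 + 36 = 234`; `-234 ≤ -9000` is false.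
* `big_three`: a vertex `P` is not in three different big cliques.  Take `Wᵢ ⊆ Qᵢ \ {P}` with 10 elements (pairwise disjoint by `big_inter`); a vertex of `Wⱼ` has at most 2 neighbours in `Qᵢ`, one of
  them `P`, so there are at most 10 edges between `Wᵢ` and `Wⱼ`; `f = 10 P - 1_{W₁} - 1_{W₂} - 1_{W₃}`: `bil f f ≤ 200 + 3·110 - 2·10·30 + 2·30 = -10`, `∑ f² = 130`; `-130 ≤ -1000` is false.
* `ext_big`: a clique with at least 11 elements is contained in a big clique (take a clique of maximal cardinality containing it).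
-/

set_option autoImplicit false

namespace Pool.Agent.H15.GP

open Finset

noncomputable section

variable {C : Type} [Fintype C] {Γ : SimpleGraph C}

/-- A maximal clique with at least 11 elements. -/
def Big (Γ : SimpleGraph C) (Q : Finset C) : Prop :=
  11 ≤ Q.card ∧ (∀ p ∈ Q, ∀ q ∈ Q, p ≠ q → Γ.Adj p q) ∧ ∀ z, z ∉ Q → ∃ p ∈ Q, ¬ Γ.Adj z p

/-- Nonadjacent vertices never have 10 pairwise adjacent common neighbours. -/
def NoPetal (Γ : SimpleGraph C) : Prop :=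
  ∀ y z, y ≠ z → ¬ Γ.Adj y z → ∀ U : Finset C, (∀ p ∈ U, ∀ q ∈ U, p ≠ q → Γ.Adj p q) →
    (∀ p ∈ U, Γ.Adj y p) → (∀ p ∈ U, Γ.Adj z p) → U.card ≤ 9

open Classical in
theorem big_out (hG : Gram (gm Γ)) (hN : NoPetal Γ) {Q : Finset C} (hQ : Big Γ Q) {z : C} (hz : z ∉ Q) :
    (Q.filter fun p => Γ.Adj z p).card ≤ 2 := by
  obtain ⟨h11, hcl, hmax⟩ := hQ
  set A := Q.filter fun p => Γ.Adj z p with hA
  set B := Q.filter fun p => ¬ Γ.Adj z p with hB
  have hABc : A.card + B.card = Q.card := card_filter_add_card_filter_not _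
  have hAQ : A ⊆ Q := filter_subset _ _
  have hBQ : B ⊆ Q := filter_subset _ _
  have hAz : ∀ p ∈ A, Γ.Adj z p := fun p hp => (mem_filter.1 hp).2
  have hBz : ∀ p ∈ B, ¬ Γ.Adj z p := fun p hp => (mem_filter.1 hp).2
  by_contra hcon
  have hB1 : B.card ≤ 1 := by
    by_contra hb
    refine clique_dich hG A B z (fun h => hz (hAQ h)) (fun h => hz (hBQ h)) ?_
      (fun p hp q hq hne => hcl p (hAQ hp) q (hAQ hq) hne) (fun p hp q hq hne => hcl p (hBQ hp) q (hBQ hq) hne)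
      ?_ hAz hBz (by omega) (by omega) (by omega)
    · rw [disjoint_left]
      intro p hp hp'
      exact hBz p hp' (hAz p hp)
    · intro p hp q hq
      refine hcl p (hAQ hp) q (hBQ hq) ?_
      rintro rfl
      exact hBz p hq (hAz p hp)
  obtain ⟨p, hp, hpz⟩ := hmax z hz
  have h9 := hN z p (fun h => hz (h ▸ hp)) hpz A (fun p hp q hq hne => hcl p (hAQ hp) q (hAQ hq) hne) hAz (by
    intro q hq
    refine hcl p hp q (hAQ hq) ?_
    rintro rfl
    exact hpz (hAz p hq))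
  omega

theorem Big.not_subset {Q Q' : Finset C} (hQ : Big Γ Q) (hQ' : Big Γ Q') (hne : Q ≠ Q') : ∃ z ∈ Q', z ∉ Q := by
  by_contra hcon
  push Not at hcon
  have h1 : Q' ⊆ Q := hcon
  have h2 : ∃ w ∈ Q, w ∉ Q' := by
    by_contra h
    push Not at h
    exact hne (Subset.antisymm h h1)
  obtain ⟨w, hw, hw'⟩ := h2
  obtain ⟨p, hp, hpn⟩ := hQ'.2.2 w hw'
  exact hpn (hQ.2.1 w hw p (h1 hp) (fun h => hw' (h ▸ hp)))

open Classical in
theorem big_inter (hG : Gram (gm Γ)) (hN : NoPetal Γ) {Q Q' : Finset C} (hQ : Big Γ Q) (hQ' : Big Γ Q') (hne : Q ≠ Q') :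
    (Q ∩ Q').card ≤ 1 := by
  by_contra hcon
  obtain ⟨p, hp, p', hp', hpp⟩ := one_lt_card.1 (not_le.1 hcon)
  rw [mem_inter] at hp hp'
  obtain ⟨z₀, hz₀, hz₀'⟩ := hQ.not_subset hQ' hne
  have hnb : ∀ z ∈ Q', z ∉ Q → ∀ q ∈ Q, Γ.Adj z q → q = p ∨ q = p' := by
    intro z hz hzQ q hq hzq
    by_contra hc
    rw [not_or] at hc
    have h1 := big_out hG hN hQ hzQ
    have h2 : ({q, p, p'} : Finset C) ⊆ Q.filter fun p => Γ.Adj z p := by
      intro a ha
      simp only [mem_insert, mem_singleton] at ha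
      rw [mem_filter]
      rcases ha with rfl | rfl | rfl
      · exact ⟨hq, hzq⟩
      · exact ⟨hp.1, hQ'.2.1 z hz a hp.2 (fun h => hzQ (h ▸ hp.1))⟩
      · exact ⟨hp'.1, hQ'.2.1 z hz a hp'.2 (fun h => hzQ (h ▸ hp'.1))⟩
    have h3 := card_le_card h2
    rw [card_insert_of_notMem (by simp [hc.1, hc.2]), card_pair hpp] at h3
    omega
  have hint : ∀ q ∈ Q, q ∈ Q' → q = p ∨ q = p' := by
    intro q hq hq'
    exact hnb z₀ hz₀ hz₀' q hq (hQ'.2.1 z₀ hz₀ q hq' (fun h => hz₀' (h ▸ hq)))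
  have h9 : ∀ R : Finset C, 11 ≤ R.card → ∃ W ⊆ R, W.card = 9 ∧ p ∉ W ∧ p' ∉ W := by
    intro R hR
    have h1 : 9 ≤ ((R.erase p).erase p').card := by
      have e1 := pred_card_le_card_erase (s := R) (a := p)
      have e2 := pred_card_le_card_erase (s := R.erase p) (a := p')
      omega
    obtain ⟨W, hW, hWc⟩ := exists_subset_card_eq h1
    refine ⟨W, fun a ha => ?_, hWc, fun h => ?_, fun h => ?_⟩
    · exact mem_of_mem_erase (mem_of_mem_erase (hW ha))
    · exact notMem_erase p _ (mem_of_mem_erase (hW h))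
    · exact notMem_erase p' _ (hW h)
  obtain ⟨W, hW, hWc, hWp, hWp'⟩ := h9 Q hQ.1
  obtain ⟨W', hW', hWc', hWp2, hWp2'⟩ := h9 Q' hQ'.1
  have e1 : es (gm Γ) {p, p'} {p, p'} = 6 := by
    rw [es_clique {p, p'} (by
      intro a ha b hb hab
      simp only [mem_insert, mem_singleton] at ha hb
      rcases ha with rfl | rfl <;> rcases hb with rfl | rfl
      · exact absurd rfl hab
      · exact hQ.2.1 _ hp.1 _ hp'.1 hab
      · exact hQ.2.1 _ hp'.1 _ hp.1 hab
      · exact absurd rfl hab), card_pair hpp]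
    norm_num
  have e2 := es_clique W (fun a ha b hb hab => hQ.2.1 a (hW ha) b (hW hb) hab)
  have e3 := es_clique W' (fun a ha b hb hab => hQ'.2.1 a (hW' ha) b (hW' hb) hab)
  have e4 : es (gm Γ) {p, p'} W = 18 := by
    rw [es_full {p, p'} W (by
      intro a ha b hb
      simp only [mem_insert, mem_singleton] at ha
      rcases ha with rfl | rfl
      · exact hQ.2.1 _ hp.1 _ (hW hb) (fun h => hWp (h ▸ hb))
      · exact hQ.2.1 _ hp'.1 _ (hW hb) (fun h => hWp' (h ▸ hb))), card_pair hpp, hWc]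
    norm_num
  have e5 : es (gm Γ) {p, p'} W' = 18 := by
    rw [es_full {p, p'} W' (by
      intro a ha b hb
      simp only [mem_insert, mem_singleton] at ha
      rcases ha with rfl | rfl
      · exact hQ'.2.1 _ hp.2 _ (hW' hb) (fun h => hWp2 (h ▸ hb))
      · exact hQ'.2.1 _ hp'.2 _ (hW' hb) (fun h => hWp2' (h ▸ hb))), card_pair hpp, hWc']
    norm_num
  have hW'Q : ∀ b ∈ W', b ∉ Q := by
    intro b hb hbQ
    rcases hint b hbQ (hW' hb) with rfl | rfl
    · exact hWp2 hb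
    · exact hWp2' hb
  have e6 : es (gm Γ) W W' = 0 := by
    refine es_empty W W' ?_
    intro a ha b hb
    refine ⟨fun h => hW'Q b hb (h ▸ hW ha), fun h => ?_⟩
    rcases hnb b (hW' hb) (hW'Q b hb) a (hW ha) h.symm with rfl | rfl
    · exact hWp ha
    · exact hWp' ha
  have d1 : Disjoint ({p, p'} : Finset C) W := by
    rw [disjoint_left]
    intro a ha hb
    simp only [mem_insert, mem_singleton] at ha
    rcases ha with rfl | rfl
    · exact hWp hb
    · exact hWp' hb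
  have d2 : Disjoint ({p, p'} : Finset C) W' := by
    rw [disjoint_left]
    intro a ha hb
    simp only [mem_insert, mem_singleton] at ha
    rcases ha with rfl | rfl
    · exact hWp2 hb
    · exact hWp2' hb
  have d3 : Disjoint W W' := by
    rw [disjoint_left]
    intro a ha hb
    exact hW'Q a hb (hW ha)
  have t := hG.three {p, p'} W W' d1 d2 d3 9 (-2) (-2)
  rw [e1, e2, e3, e4, e5, e6, card_pair hpp, hWc, hWc'] at t
  norm_num at t

open Classical in
theorem es_le (A B : Finset C) (k : ℕ) (h : ∀ x ∈ A, x ∉ B ∧ (B.filter fun p => Γ.Adj x p).card ≤ k) :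
    es (gm Γ) A B ≤ A.card * k := by
  unfold es
  have h1 : ∀ x ∈ A, ∑ y ∈ B, gm Γ x y ≤ k := by
    intro x hx
    obtain ⟨h2, h3⟩ := h x hx
    have h4 : ∀ y ∈ B, gm Γ x y = if Γ.Adj x y then 1 else 0 := by
      intro y hy
      have hne : x ≠ y := fun h => h2 (h ▸ hy)
      simp [gm, hne]
    rw [sum_congr rfl h4, sum_boole]
    exact_mod_cast h3
  refine le_trans (sum_le_sum h1) ?_
  rw [sum_const, nsmul_eq_mul]

theorem big_three (hG : Gram (gm Γ)) (hN : NoPetal Γ) {Q₁ Q₂ Q₃ : Finset C} (h1 : Big Γ Q₁) (h2 : Big Γ Q₂) (h3 : Big Γ Q₃)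
    (h12 : Q₁ ≠ Q₂) (h13 : Q₁ ≠ Q₃) (h23 : Q₂ ≠ Q₃) (P : C) (hP1 : P ∈ Q₁) (hP2 : P ∈ Q₂) (hP3 : P ∈ Q₃) : False := by
  classical
  have hex : ∀ Q, Big Γ Q → ∃ W ⊆ Q, W.card = 10 ∧ P ∉ W := by
    intro Q hQ
    have e0 : 10 ≤ (Q.erase P).card := by
      have e1 := pred_card_le_card_erase (s := Q) (a := P)
      have e2 := hQ.1
      omega
    obtain ⟨W, hW, hWc⟩ := exists_subset_card_eq e0
    exact ⟨W, fun a ha => mem_of_mem_erase (hW ha), hWc, fun h => notMem_erase P _ (hW h)⟩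
  obtain ⟨W₁, hW1, hc1, hn1⟩ := hex Q₁ h1
  obtain ⟨W₂, hW2, hc2, hn2⟩ := hex Q₂ h2
  obtain ⟨W₃, hW3, hc3, hn3⟩ := hex Q₃ h3
  -- an element of `Q'` different from `P` is not in `Q`
  have hout : ∀ Q Q' : Finset C, Big Γ Q → Big Γ Q' → Q ≠ Q' → P ∈ Q → P ∈ Q' → ∀ x ∈ Q', x ≠ P → x ∉ Q := by
    intro Q Q' hQ hQ' hne hPQ hPQ' x hx hxP hxQ
    have e1 := big_inter hG hN hQ hQ' hne
    have e2 : ({x, P} : Finset C) ⊆ Q ∩ Q' := by
      intro a ha
      simp only [mem_insert, mem_singleton] at ha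
      rw [mem_inter]
      rcases ha with rfl | rfl
      · exact ⟨hxQ, hx⟩
      · exact ⟨hPQ, hPQ'⟩
    have e3 := card_le_card e2
    rw [card_pair hxP] at e3
    omega
  have hes : ∀ Q Q' W W' : Finset C, Big Γ Q → Big Γ Q' → Q ≠ Q' → P ∈ Q → P ∈ Q' → W ⊆ Q → W' ⊆ Q' →
      P ∉ W → P ∉ W' → W.card = 10 → W'.card = 10 → es (gm Γ) W W' ≤ 10 ∧ Disjoint W W' := by
    intro Q Q' W W' hQ hQ' hne hPQ hPQ' hWQ hWQ' hPW hPW' hWc hWc'
    constructor
    · rw [es_comm hG.symm]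
      have e1 := es_le (Γ := Γ) W' W 1 (by
        intro x hx
        have hxQ := hout Q Q' hQ hQ' hne hPQ hPQ' x (hWQ' hx) (fun h => hPW' (h ▸ hx))
        refine ⟨fun h => hxQ (hWQ h), ?_⟩
        have e2 := big_out hG hN hQ hxQ
        have e3 : insert P (W.filter fun p => Γ.Adj x p) ⊆ Q.filter fun p => Γ.Adj x p := by
          intro a ha
          rw [mem_insert] at ha
          rw [mem_filter]
          rcases ha with rfl | ha
          · exact ⟨hPQ, hQ'.2.1 x (hWQ' hx) a hPQ' (fun h => hPW' (h ▸ hx))⟩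
          · exact ⟨hWQ (mem_filter.1 ha).1, (mem_filter.1 ha).2⟩
        have e4 := card_le_card e3
        rw [card_insert_of_notMem (fun h => hPW (mem_filter.1 h).1)] at e4
        omega)
      rw [hWc'] at e1
      norm_num at e1
      exact e1
    · rw [disjoint_left]
      intro x hx hx'
      exact hout Q Q' hQ hQ' hne hPQ hPQ' x (hWQ' hx') (fun h => hPW' (h ▸ hx')) (hWQ hx)
  obtain ⟨f12, g12⟩ := hes Q₁ Q₂ W₁ W₂ h1 h2 h12 hP1 hP2 hW1 hW2 hn1 hn2 hc1 hc2
  obtain ⟨f13, g13⟩ := hes Q₁ Q₃ W₁ W₃ h1 h3 h13 hP1 hP3 hW1 hW3 hn1 hn3 hc1 hc3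
  obtain ⟨f23, g23⟩ := hes Q₂ Q₃ W₂ W₃ h2 h3 h23 hP2 hP3 hW2 hW3 hn2 hn3 hc2 hc3
  have hPW : ∀ Q W : Finset C, Big Γ Q → P ∈ Q → W ⊆ Q → P ∉ W → W.card = 10 → es (gm Γ) {P} W = 10 := by
    intro Q W hQ hPQ hWQ hPW hWc
    rw [es_full {P} W (by
      intro a ha b hb
      rw [mem_singleton] at ha
      rw [ha]
      exact hQ.2.1 P hPQ b (hWQ hb) (fun h => hPW (h ▸ hb))), hWc, card_singleton]
    norm_num
  have e0 : es (gm Γ) {P} {P} = 2 := by rw [es_single, gm_self]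
  have e1 := es_clique W₁ (fun a ha b hb hab => h1.2.1 a (hW1 ha) b (hW1 hb) hab)
  have e2 := es_clique W₂ (fun a ha b hb hab => h2.2.1 a (hW2 ha) b (hW2 hb) hab)
  have e3 := es_clique W₃ (fun a ha b hb hab => h3.2.1 a (hW3 ha) b (hW3 hb) hab)
  have t := hG.four {P} W₁ W₂ W₃ (by simpa using hn1) (by simpa using hn2) (by simpa using hn3) g12 g13 g23
    10 (-1) (-1) (-1)
  rw [e0, e1, e2, e3, hPW Q₁ W₁ h1 hP1 hW1 hn1 hc1, hPW Q₂ W₂ h2 hP2 hW2 hn2 hc2,
    hPW Q₃ W₃ h3 hP3 hW3 hn3 hc3, card_singleton, hc1, hc2, hc3] at t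
  norm_num at t
  linarith

theorem ext_big (T : Finset C) (hT : 11 ≤ T.card) (hcl : ∀ p ∈ T, ∀ q ∈ T, p ≠ q → Γ.Adj p q) :
    ∃ Q, Big Γ Q ∧ T ⊆ Q := by
  classical
  set F : Finset (Finset C) := univ.filter fun Q => T ⊆ Q ∧ ∀ p ∈ Q, ∀ q ∈ Q, p ≠ q → Γ.Adj p q with hF
  have hne : F.Nonempty := ⟨T, by rw [hF, mem_filter]; exact ⟨mem_univ _, Subset.refl _, hcl⟩⟩
  obtain ⟨Q, hQ, hmax⟩ := exists_max_image F card hne
  rw [hF, mem_filter] at hQ
  obtain ⟨-, hTQ, hQcl⟩ := hQ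
  refine ⟨Q, ⟨le_trans hT (card_le_card hTQ), hQcl, ?_⟩, hTQ⟩
  intro z hz
  by_contra hcon
  push Not at hcon
  have h1 : insert z Q ∈ F := by
    rw [hF, mem_filter]
    refine ⟨mem_univ _, fun a ha => mem_insert_of_mem (hTQ ha), ?_⟩
    intro p hp q hq hpq
    rw [mem_insert] at hp hq
    rcases hp with rfl | hp <;> rcases hq with rfl | hq
    · exact absurd rfl hpq
    · exact hcon q hq
    · exact (hcon p hp).symm
    · exact hQcl p hp q hq hpq
  have h2 := hmax _ h1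
  rw [card_insert_of_notMem hz] at h2
  omega

end

end Pool.Agent.H15.GP
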