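import Mathlib
import Pool.Agent.H15.GP.GrB2

/-!
# GrL: every vertex is in exactly two big cliques, or the graph is complete

`complete_of_one`: if `P` is in a unique big clique `Q` and every edge lies in a big clique, then all neighbours of `P` are in `Q`, so `k = degree P = |Q| - 1`
(`Q` is a clique containing `P`); every vertex of `Q` has `|Q| - 1 = k` neighbours in `Q`, hence no others; `Q` is closed under adjacency and nonempty, so it is everything (connectivity) and `Γ` is complete.
`two_big`: if `Γ` is not complete then the number of big cliques through `P` is not 1 (`complete_of_one`), not 0 (hypothesis `hex`) and not ≥ 3 (`big_three`, `Finset.two_lt_card`).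
-/

set_option autoImplicit false

namespace Pool.Agent.H15.GP

open Finset

noncomputable section

variable {C : Type} [Fintype C] {Γ : SimpleGraph C}

/-- a nonempty set closed under adjacency is everything -/
theorem closed_univ (hconn : Γ.Connected) (S : Set C) (P : C) (hP : P ∈ S) (hS : ∀ p ∈ S, ∀ q, Γ.Adj p q → q ∈ S)
    (v : C) : v ∈ S := by
  obtain ⟨w⟩ := hconn.preconnected P v
  induction w with
  | nil => exact hP
  | cons h _ ih => exact ih (hS _ hP _ h)

open Classical in
theorem complete_of_one (hconn : Γ.Connected) (k : ℕ) (hreg : ∀ p, Γ.degree p = k)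
    (hedge : ∀ p q, Γ.Adj p q → ∃ Q, Big Γ Q ∧ p ∈ Q ∧ q ∈ Q)
    (P : C) (Q : Finset C) (hQ : Big Γ Q) (hP : P ∈ Q) (hu : ∀ Q', Big Γ Q' → P ∈ Q' → Q' = Q) :
    ∀ p q, p ≠ q → Γ.Adj p q := by
  obtain ⟨h11, hcl, hmax⟩ := hQ
  have hsub : ∀ p ∈ Q, Q.erase p ⊆ Γ.neighborFinset p := by
    intro p hp q hq
    rw [mem_erase] at hq
    rw [SimpleGraph.mem_neighborFinset]
    exact hcl p hp q hq.2 hq.1.symm
  have hPn : Γ.neighborFinset P = Q.erase P := by
    refine Subset.antisymm ?_ (hsub P hP)
    intro q hq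
    rw [SimpleGraph.mem_neighborFinset] at hq
    obtain ⟨Q', hQ', h1, h2⟩ := hedge P q hq
    rw [hu Q' hQ' h1] at h2
    rw [mem_erase]
    exact ⟨hq.ne', h2⟩
  have hk : k = Q.card - 1 := by
    rw [← hreg P, ← SimpleGraph.card_neighborFinset_eq_degree, hPn, card_erase_of_mem hP]
  have hnb : ∀ p ∈ Q, Γ.neighborFinset p = Q.erase p := by
    intro p hp
    refine (eq_of_subset_of_card_le (hsub p hp) ?_).symm
    rw [SimpleGraph.card_neighborFinset_eq_degree, hreg p, card_erase_of_mem hp, hk]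
  have hall : ∀ v, v ∈ Q := by
    intro v
    have := closed_univ hconn (Q : Set C) P (by simpa using hP) (by
      intro p hp q hpq
      have h1 : q ∈ Γ.neighborFinset p := by
        rw [SimpleGraph.mem_neighborFinset]
        exact hpq
      rw [hnb p (by simpa using hp)] at h1
      simpa using mem_of_mem_erase h1) v
    simpa using this
  intro p q hne
  exact hcl p (hall p) q (hall q) hne

open Classical in
theorem two_big (hG : Gram (gm Γ)) (hN : NoPetal Γ) (hconn : Γ.Connected) (k : ℕ) (hreg : ∀ p, Γ.degree p = k)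
    (hedge : ∀ p q, Γ.Adj p q → ∃ Q, Big Γ Q ∧ p ∈ Q ∧ q ∈ Q)
    (hnc : ¬ ∀ p q, p ≠ q → Γ.Adj p q) (P : C) (hex : ∃ Q, Big Γ Q ∧ P ∈ Q) :
    (univ.filter fun Q : Finset C => Big Γ Q ∧ P ∈ Q).card = 2 := by
  set F := univ.filter fun Q : Finset C => Big Γ Q ∧ P ∈ Q with hF
  have h0 : 0 < F.card := by
    obtain ⟨Q, hQ⟩ := hex
    exact card_pos.2 ⟨Q, by rw [hF, mem_filter]; exact ⟨mem_univ _, hQ⟩⟩
  have h1 : F.card ≠ 1 := by
    intro h
    obtain ⟨Q, hQ⟩ := card_eq_one.1 h
    have hQm : Q ∈ F := by rw [hQ]; exact mem_singleton_self Q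
    rw [hF, mem_filter] at hQm
    apply hnc
    refine complete_of_one hconn k hreg hedge P Q hQm.2.1 hQm.2.2 ?_
    intro Q' hQ' hPQ'
    have : Q' ∈ F := by
      rw [hF, mem_filter]
      exact ⟨mem_univ _, hQ', hPQ'⟩
    rw [hQ, mem_singleton] at this
    exact this
  have h2 : F.card ≤ 2 := by
    by_contra h
    obtain ⟨Q₁, m1, Q₂, m2, Q₃, m3, h12, h13, h23⟩ := two_lt_card.1 (not_le.1 h)
    rw [hF, mem_filter] at m1 m2 m3
    exact big_three hG hN m1.2.1 m2.2.1 m3.2.1 h12 h13 h23 P m1.2.2 m2.2.2 m3.2.2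
  omega

end

end Pool.Agent.H15.GP
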