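import Mathlib

/-!
# GrR: a rank inequality

Rows `v_p ∈ ℕ^E` (`p ∈ H`) with `⟨v_p, v_p'⟩ = L > 0` for `p ≠ p'`, `⟨v_p, v_p⟩ ≥ L`, at most one `p` with equality: they are linearly independent over `ℚ`, so `|H| ≤ |E|`.
Proof: if `∑ c_p v_p = 0` then `0 = ‖∑ c_p v_p‖² = L (∑ c_p)² + ∑ (⟨v_p,v_p⟩ - L) c_p²`; both terms vanish, so `c_p = 0` for all `p` with `⟨v_p,v_p⟩ > L`,
`∑ c_p = 0`, and the last coefficient vanishes too.  `LinearIndependent.fintype_card_le_finrank`, `Module.finrank_fintype_fun_eq_card`.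
`cs_eq`: if moreover two rows have `⟨v,v⟩ ≤ L` then (Cauchy-Schwarz, `L² ≤ ⟨v,v⟩ ⟨w,w⟩ ≤ L²`) both are `= L`.
-/

set_option autoImplicit false

namespace Pool.Agent.H15.GP

open Finset

theorem rank_ineq {C D : Type} (R : C → D → ℕ) (H : Finset C) (E : Finset D) (L : ℕ) (hL : 0 < L)
    (hoff : ∀ p ∈ H, ∀ p' ∈ H, p ≠ p' → ∑ q ∈ E, R p q * R p' q = L)
    (hdiag : ∀ p ∈ H, L ≤ ∑ q ∈ E, R p q ^ 2)
    (hone : ∀ p ∈ H, ∀ p' ∈ H, ∑ q ∈ E, R p q ^ 2 = L → ∑ q ∈ E, R p' q ^ 2 = L → p = p') :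
    H.card ≤ E.card := by
  classical
  let v : H → (E → ℚ) := fun p q => (R p q : ℚ)
  have hli : LinearIndependent ℚ v := by
    rw [Fintype.linearIndependent_iff]
    intro g hg
    have hinner : ∀ p p' : H, ∑ q : E, v p q * v p' q = (∑ q ∈ E, R p q * R p' q : ℕ) := by
      intro p p'
      push_cast
      rw [← sum_coe_sort E]
    have hval : ∀ p p' : H, ∑ q : E, v p q * v p' q =
        L + (if p = p' then ((∑ q ∈ E, R p q ^ 2 : ℕ) : ℚ) - L else 0) := by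
      intro p p'
      rw [hinner]
      by_cases hpp : p = p'
      · subst hpp
        rw [if_pos rfl]
        have : ∑ q ∈ E, R p q * R p q = ∑ q ∈ E, R p q ^ 2 := sum_congr rfl fun q _ => (sq _).symm
        rw [this]
        ring
      · rw [if_neg hpp, hoff p p.2 p' p'.2 (fun h => hpp (Subtype.ext h)), add_zero]
    have hnorm : (L : ℚ) * (∑ p, g p) ^ 2 + ∑ p : H, g p ^ 2 * (((∑ q ∈ E, R p q ^ 2 : ℕ) : ℚ) - L) = 0 := by
      have h1 : ∑ q : E, (∑ p, g p * v p q) ^ 2 = 0 := by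
        refine sum_eq_zero fun q _ => ?_
        have := congrFun hg q
        simp only [Finset.sum_apply, Pi.smul_apply, smul_eq_mul, Pi.zero_apply] at this
        rw [this]
        ring
      have h2 : ∑ q : E, (∑ p, g p * v p q) ^ 2 = ∑ p, ∑ p', g p * g p' * ∑ q : E, v p q * v p' q := by
        have e1 : ∀ q : E, (∑ p, g p * v p q) ^ 2 = ∑ p, ∑ p', g p * g p' * (v p q * v p' q) := by
          intro q
          rw [sq, sum_mul_sum]
          exact sum_congr rfl fun p _ => sum_congr rfl fun p' _ => by ring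
        rw [sum_congr rfl fun q _ => e1 q, sum_comm]
        refine sum_congr rfl fun p _ => ?_
        rw [sum_comm]
        exact sum_congr rfl fun p' _ => by rw [mul_sum]
      rw [h2] at h1
      rw [← h1]
      have e2 : ∀ p : H, ∑ p', g p * g p' * ∑ q : E, v p q * v p' q =
          L * (g p * ∑ p', g p') + g p ^ 2 * (((∑ q ∈ E, R p q ^ 2 : ℕ) : ℚ) - L) := by
        intro p
        have e3 : ∀ p' : H, g p * g p' * ∑ q : E, v p q * v p' q =
            L * (g p * g p') + (if p = p' then g p * g p' * (((∑ q ∈ E, R p q ^ 2 : ℕ) : ℚ) - L) else 0) := by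
          intro p'
          rw [hval]
          split_ifs <;> ring
        rw [sum_congr rfl fun p' _ => e3 p', sum_add_distrib, sum_ite_eq, if_pos (mem_univ _), mul_sum, mul_sum]
        ring_nf
      rw [sum_congr rfl fun p _ => e2 p, sum_add_distrib, ← mul_sum, ← sum_mul]
      ring
    have hterm : ∀ p : H, 0 ≤ g p ^ 2 * (((∑ q ∈ E, R p q ^ 2 : ℕ) : ℚ) - L) := by
      intro p
      have : (L : ℚ) ≤ ((∑ q ∈ E, R p q ^ 2 : ℕ) : ℚ) := by exact_mod_cast hdiag p p.2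
      exact mul_nonneg (sq_nonneg _) (by linarith)
    have hLq : (0 : ℚ) < L := by exact_mod_cast hL
    have hs0 : 0 ≤ ∑ p : H, g p ^ 2 * (((∑ q ∈ E, R p q ^ 2 : ℕ) : ℚ) - L) := sum_nonneg fun p _ => hterm p
    have hsq : 0 ≤ (L : ℚ) * (∑ p, g p) ^ 2 := by positivity
    have hz1 : ∑ p : H, g p ^ 2 * (((∑ q ∈ E, R p q ^ 2 : ℕ) : ℚ) - L) = 0 := by linarith
    have hz2 : (∑ p, g p) = 0 := by
      have : (L : ℚ) * (∑ p, g p) ^ 2 = 0 := by linarith
      rcases mul_eq_zero.1 this with h | h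
      · linarith
      · exact pow_eq_zero_iff two_ne_zero |>.1 h
    have hz3 : ∀ p : H, ∑ q ∈ E, R p q ^ 2 ≠ L → g p = 0 := by
      intro p hp
      have h1 := (sum_eq_zero_iff_of_nonneg (fun p _ => hterm p)).1 hz1 p (mem_univ p)
      rcases mul_eq_zero.1 h1 with h | h
      · exact pow_eq_zero_iff two_ne_zero |>.1 h
      · exfalso
        apply hp
        have : ((∑ q ∈ E, R p q ^ 2 : ℕ) : ℚ) = L := by linarith
        exact_mod_cast this
    intro p
    by_cases hp : ∑ q ∈ E, R p q ^ 2 = L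
    · have h1 : ∑ p', g p' = g p := by
        refine sum_eq_single p (fun p' _ hne => ?_) (fun h => absurd (mem_univ _) h)
        apply hz3
        intro hp'
        exact hne (Subtype.ext (hone p' p'.2 p p.2 hp' hp))
      rw [← h1]
      exact hz2
    · exact hz3 p hp
  have h := hli.fintype_card_le_finrank
  rw [Module.finrank_fintype_fun_eq_card, Fintype.card_coe, Fintype.card_coe] at h
  exact h

theorem cs_eq {D : Type} (v w : D → ℕ) (E : Finset D) (L : ℕ) (h : ∑ q ∈ E, v q * w q = L)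
    (hv : ∑ q ∈ E, v q ^ 2 ≤ L) (hw : ∑ q ∈ E, w q ^ 2 ≤ L) : ∑ q ∈ E, v q ^ 2 = L ∧ ∑ q ∈ E, w q ^ 2 = L := by
  have h1 : (∑ q ∈ E, v q * w q) ^ 2 ≤ (∑ q ∈ E, v q ^ 2) * ∑ q ∈ E, w q ^ 2 := sum_mul_sq_le_sq_mul_sq E v w
  rw [h, sq] at h1
  rcases Nat.eq_zero_or_pos L with h0 | hpos
  · subst h0
    omega
  constructor
  · by_contra hne
    have h2 : ∑ q ∈ E, v q ^ 2 < L := lt_of_le_of_ne hv hne
    have h3 : (∑ q ∈ E, v q ^ 2) * ∑ q ∈ E, w q ^ 2 < L * L := by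
      calc (∑ q ∈ E, v q ^ 2) * ∑ q ∈ E, w q ^ 2 ≤ (∑ q ∈ E, v q ^ 2) * L := Nat.mul_le_mul_left _ hw
        _ < L * L := Nat.mul_lt_mul_of_pos_right h2 hpos
    omega
  · by_contra hne
    have h2 : ∑ q ∈ E, w q ^ 2 < L := lt_of_le_of_ne hw hne
    have h3 : (∑ q ∈ E, v q ^ 2) * ∑ q ∈ E, w q ^ 2 < L * L := by
      calc (∑ q ∈ E, v q ^ 2) * ∑ q ∈ E, w q ^ 2 ≤ L * ∑ q ∈ E, w q ^ 2 := Nat.mul_le_mul_right _ hv
        _ < L * L := Nat.mul_lt_mul_of_pos_left h2 hpos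
    omega

end Pool.Agent.H15.GP
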