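import Mathlib
import Pool.Agent.H15.GP.GrB2

/-!
# GrS: the supports of the columns of R are big cliques' subsets

`supp M q = {p : R p q ≠ 0}`.
* `supp_clique`: if `p ≠ p'` in the support are not adjacent, `∑ q, R p q * R p' q = 0` (rr_nadj) forces each term to vanish.
* `supp_card`: Cauchy-Schwarz (`inner_mul_le_norm_mul_norm`, or `sq_sum_le_card_mul_sum_sq` over the support): `d² = (∑_{p ∈ supp} R p q)² ≤ |supp| ∑ R p q² = |supp| (d - 2 + 2L)`; if `|supp| ≤ 10` this contradicts `hbig`.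
* `supp_cover`: the sum `∑ q, R p q * R p' q = L > 0` has a nonzero term.
* `supp_ex`: `∑ q, R p q = d > 0` has a nonzero term.
* `edge_big`, `vertex_big`: extend the support of a column (`ext_big`).
* `supp_uniq`: the support has at least 11 ≥ 2 elements and two different big cliques share at most one vertex (`big_inter`).
-/

set_option autoImplicit false

namespace Pool.Agent.H15.GP

open Finset

noncomputable section

variable {C D : Type} [Fintype C] [Fintype D] {d L k : ℕ}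

open Classical in
/-- The support of a column. -/
def Red.supp (M : Red C D d L k) (q : D) : Finset C := univ.filter fun p => M.R p q ≠ 0

theorem Red.supp_clique (M : Red C D d L k) (q : D) : ∀ p ∈ M.supp q, ∀ p' ∈ M.supp q, p ≠ p' → M.Γ.Adj p p' := by
  intro p hp p' hp' hne
  by_contra hadj
  have h1 := M.rr_nadj p p' hne hadj
  have h2 := (sum_eq_zero_iff.1 h1) q (mem_univ q)
  rw [Red.supp, mem_filter] at hp hp'
  exact (mul_ne_zero hp.2 hp'.2) h2

theorem Red.supp_card (M : Red C D d L k) (hbig : 10 * (d - 2 + 2 * L) < d ^ 2) (q : D) : 11 ≤ (M.supp q).card := by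
  classical
  by_contra hcon
  have h1 : ∑ p ∈ M.supp q, M.R p q = d := by
    refine Eq.trans (sum_subset (subset_univ _) fun p _ hp => ?_) (M.colsum q)
    by_contra h
    exact hp (by rw [Red.supp, mem_filter]; exact ⟨mem_univ _, h⟩)
  have h2 : ∑ p ∈ M.supp q, M.R p q ^ 2 ≤ d - 2 + 2 * L := by
    rw [← M.cc q]
    exact sum_le_sum_of_subset (subset_univ _)
  have h3 : (∑ p ∈ M.supp q, M.R p q) ^ 2 ≤ (M.supp q).card * ∑ p ∈ M.supp q, M.R p q ^ 2 :=
    sq_sum_le_card_mul_sum_sq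
  rw [h1] at h3
  have h4 : (M.supp q).card * ∑ p ∈ M.supp q, M.R p q ^ 2 ≤ 10 * (d - 2 + 2 * L) :=
    Nat.mul_le_mul (by omega) h2
  omega

theorem Red.supp_cover (M : Red C D d L k) (p p' : C) (h : M.Γ.Adj p p') : ∃ q, p ∈ M.supp q ∧ p' ∈ M.supp q := by
  by_contra hcon
  have h1 : ∑ q, M.R p q * M.R p' q = 0 := by
    refine sum_eq_zero fun q _ => ?_
    by_contra hne
    apply hcon
    refine ⟨q, ?_, ?_⟩
    · rw [Red.supp, mem_filter]
      exact ⟨mem_univ _, fun h0 => hne (by rw [h0, zero_mul])⟩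
    · rw [Red.supp, mem_filter]
      exact ⟨mem_univ _, fun h0 => hne (by rw [h0, mul_zero])⟩
  have h2 := M.rr_adj p p' h
  have h3 := M.Lpos
  omega

theorem Red.supp_ex (M : Red C D d L k) (hd : 0 < d) (p : C) : ∃ q, p ∈ M.supp q := by
  by_contra hcon
  have h1 : ∑ q, M.R p q = 0 := by
    refine sum_eq_zero fun q _ => ?_
    by_contra hne
    apply hcon
    refine ⟨q, ?_⟩
    rw [Red.supp, mem_filter]
    exact ⟨mem_univ _, hne⟩
  have h2 := M.rowsum p
  omega

theorem Red.edge_big (M : Red C D d L k) (hbig : 10 * (d - 2 + 2 * L) < d ^ 2) (p p' : C) (h : M.Γ.Adj p p') :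
    ∃ Q, Big M.Γ Q ∧ p ∈ Q ∧ p' ∈ Q := by
  obtain ⟨q, h1, h2⟩ := M.supp_cover p p' h
  obtain ⟨Q, hQ, hs⟩ := ext_big (M.supp q) (M.supp_card hbig q) (M.supp_clique q)
  exact ⟨Q, hQ, hs h1, hs h2⟩

theorem Red.vertex_big (M : Red C D d L k) (hbig : 10 * (d - 2 + 2 * L) < d ^ 2) (hd : 0 < d) (p : C) :
    ∃ Q, Big M.Γ Q ∧ p ∈ Q := by
  obtain ⟨q, h1⟩ := M.supp_ex hd p
  obtain ⟨Q, hQ, hs⟩ := ext_big (M.supp q) (M.supp_card hbig q) (M.supp_clique q)
  exact ⟨Q, hQ, hs h1⟩

theorem Red.supp_uniq (M : Red C D d L k) (hbig : 10 * (d - 2 + 2 * L) < d ^ 2) (hN : NoPetal M.Γ) (q : D)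
    (Q Q' : Finset C) (hQ : Big M.Γ Q) (hQ' : Big M.Γ Q') (h : M.supp q ⊆ Q) (h' : M.supp q ⊆ Q') : Q = Q' := by
  classical
  by_contra hne
  have h1 := big_inter M.gram hN hQ hQ' hne
  have h2 : M.supp q ⊆ Q ∩ Q' := subset_inter h h'
  have h3 := card_le_card h2
  have h4 := M.supp_card hbig q
  have h5 : (Q ∩ Q').card ≤ 1 := by convert h1
  omega

end

end Pool.Agent.H15.GP
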