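import Mathlib
import Pool.Agent.H15.GP.GrL
import Pool.Agent.H15.GP.GrS
import Pool.Agent.H15.GP.GrR

/-!
# GrF: the case of two big cliques through every vertex is impossible

`M : Red C D d L k`, `hbig`, `NoPetal`, `Γ` not complete, `d ≥ 3`.  Let `s = card C = card D` (`M.card`), `s ≥ 1` (connected).
For a big clique `Q` let `E_Q = {q : supp q ⊆ Q}`; every `q` is in exactly one `E_Q` (`ext_big`, `supp_uniq`), so `∑_Q |E_Q| = s`.
For `P ∈ Q` let `α(P,Q) = ∑_{q ∈ E_Q} R P q²`.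
(1) `P ≠ P'` in `Q`: `∑_{q ∈ E_Q} R P q R P' q = L`: the full sum is `L` (rr_adj), and a nonzero term has `P, P' ∈ supp q ⊆ Q(q)`, so `Q(q) = Q` (`big_inter`), `q ∈ E_Q`.
(2) `∑_{Q ∋ P} α(P,Q) = d - 2 + 2L` (two cliques, `two_big`; a `q` with `R P q ≠ 0` has `P ∈ Q(q)`), so at least one `Q ∋ P` has `α(P,Q) > L` (as `d ≥ 3`).
(3) `H_Q = {P ∈ Q : α(P,Q) > L}`: `rank_ineq` gives `|H_Q| ≤ |E_Q|`.  `∑_Q |H_Q| ≥ s` by (2), `∑_Q |E_Q| = s`.  So `|H_Q| = |E_Q|` for every `Q` and every `P` is in exactly one `H_Q`: `∑_Q |H_Q| = s`.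
(4) `|Q \ H_Q| ≤ 1`: two elements `P, P'` of `Q \ H_Q` have `α = L` (`cs_eq`); `rank_ineq` for `insert P H_Q` gives `|H_Q| + 1 ≤ |E_Q|`, contradiction.
(5) So `|H_Q| ≥ |Q| - 1 ≥ 10 ≥ 10 |Q \ H_Q|`, and `∑_Q |Q \ H_Q| = ∑_Q |Q| - ∑_Q |H_Q| = 2 s - s = s` (each `P` in exactly two `Q`): `s = ∑ |H_Q| ≥ 10 s`, contradiction with `s ≥ 1`.
Split it into the numbered lemmas; `bigs = univ.filter (Big M.Γ)` is a `Finset (Finset C)`.
-/

set_option autoImplicit false

namespace Pool.Agent.H15.GP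

open Finset

noncomputable section

variable {C D : Type} [Fintype C] [Fintype D] {d L k : ℕ}

open Classical in
/-- The big cliques. -/
def Red.bigs (M : Red C D d L k) : Finset (Finset C) := univ.filter fun Q => Big M.Γ Q

open Classical in
/-- The columns with support in `Q`. -/
def Red.E (M : Red C D d L k) (Q : Finset C) : Finset D := univ.filter fun q => M.supp q ⊆ Q

open Classical in
/-- The partial row norm. -/
def Red.al (M : Red C D d L k) (P : C) (Q : Finset C) : ℕ := ∑ q ∈ M.E Q, M.R P q ^ 2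

open Classical in
/-- The points of `Q` with large partial norm. -/
def Red.H (M : Red C D d L k) (Q : Finset C) : Finset C := Q.filter fun P => L < M.al P Q

theorem Red.mem_bigs (M : Red C D d L k) {Q : Finset C} : Q ∈ M.bigs ↔ Big M.Γ Q := by
  simp [Red.bigs]

theorem Red.mem_E (M : Red C D d L k) {Q : Finset C} {q : D} : q ∈ M.E Q ↔ M.supp q ⊆ Q := by
  simp [Red.E]

theorem Red.mem_supp (M : Red C D d L k) {P : C} {q : D} : P ∈ M.supp q ↔ M.R P q ≠ 0 := by
  simp [Red.supp]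

theorem Red.ex_clq (M : Red C D d L k) (hbig : 10 * (d - 2 + 2 * L) < d ^ 2) (q : D) :
    ∃ Q, Big M.Γ Q ∧ M.supp q ⊆ Q :=
  ext_big (M.supp q) (M.supp_card hbig q) (M.supp_clique q)

open Classical in
/-- exactly one big clique contains the support of `q` -/
theorem Red.one_clq (M : Red C D d L k) (hbig : 10 * (d - 2 + 2 * L) < d ^ 2) (hN : NoPetal M.Γ) (q : D) :
    (M.bigs.filter fun Q => M.supp q ⊆ Q).card = 1 := by
  obtain ⟨Q, hQ, hs⟩ := M.ex_clq hbig q
  rw [card_eq_one]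
  refine ⟨Q, ?_⟩
  ext Q'
  rw [mem_filter, mem_singleton, M.mem_bigs]
  constructor
  · rintro ⟨h1, h2⟩
    exact M.supp_uniq hbig hN q Q' Q h1 hQ h2 hs
  · rintro rfl
    exact ⟨hQ, hs⟩

open Classical in
theorem Red.sum_E (M : Red C D d L k) (hbig : 10 * (d - 2 + 2 * L) < d ^ 2) (hN : NoPetal M.Γ) :
    ∑ Q ∈ M.bigs, (M.E Q).card = Fintype.card D := by
  have h1 : ∀ Q, (M.E Q).card = ∑ q : D, if M.supp q ⊆ Q then 1 else 0 := by
    intro Q
    rw [Red.E, card_filter]
  rw [sum_congr rfl fun Q _ => h1 Q, sum_comm]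
  have h2 : ∀ q : D, ∑ Q ∈ M.bigs, (if M.supp q ⊆ Q then 1 else 0) = 1 := by
    intro q
    rw [← card_filter]
    exact M.one_clq hbig hN q
  rw [sum_congr rfl fun q _ => h2 q, sum_const, card_univ, smul_eq_mul, mul_one]

theorem Red.off (M : Red C D d L k) (hbig : 10 * (d - 2 + 2 * L) < d ^ 2) (hN : NoPetal M.Γ) {Q : Finset C}
    (hQ : Big M.Γ Q) {P P' : C} (hP : P ∈ Q) (hP' : P' ∈ Q) (hne : P ≠ P') :
    ∑ q ∈ M.E Q, M.R P q * M.R P' q = L := by
  classical
  refine Eq.trans (sum_subset (subset_univ _) fun q _ hq => ?_) (M.rr_adj P P' (hQ.2.1 P hP P' hP' hne))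
  by_contra hne0
  have h1 : M.R P q ≠ 0 := fun h => hne0 (by rw [h, zero_mul])
  have h2 : M.R P' q ≠ 0 := fun h => hne0 (by rw [h, mul_zero])
  obtain ⟨Q', hQ', hs⟩ := M.ex_clq hbig q
  apply hq
  rw [M.mem_E]
  have hQQ : Q = Q' := by
    by_contra hQne
    have h3 := big_inter M.gram hN hQ hQ' hQne
    have h4 : ({P, P'} : Finset C) ⊆ Q ∩ Q' := by
      intro x hx
      rw [mem_insert, mem_singleton] at hx
      rw [mem_inter]
      rcases hx with rfl | rfl
      · exact ⟨hP, hs (M.mem_supp.2 h1)⟩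
      · exact ⟨hP', hs (M.mem_supp.2 h2)⟩
    have h5 := card_le_card h4
    rw [card_pair hne] at h5
    have h6 : (Q ∩ Q').card ≤ 1 := by convert h3
    omega
  rw [hQQ]
  exact hs

open Classical in
theorem Red.sum_al (M : Red C D d L k) (hbig : 10 * (d - 2 + 2 * L) < d ^ 2) (hN : NoPetal M.Γ) (P : C) :
    ∑ Q ∈ M.bigs.filter (fun Q => P ∈ Q), M.al P Q = d - 2 + 2 * L := by
  refine Eq.trans ?_ (M.rr P)
  have h1 : ∀ Q, M.al P Q = ∑ q : D, if M.supp q ⊆ Q then M.R P q ^ 2 else 0 := by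
    intro Q
    rw [Red.al, Red.E, sum_filter]
  rw [sum_congr rfl fun Q _ => h1 Q, sum_comm]
  refine sum_congr rfl fun q _ => ?_
  by_cases hq : M.R P q = 0
  · rw [hq]
    simp
  · rw [← sum_filter, filter_filter, sum_const]
    have h2 : (M.bigs.filter fun Q => P ∈ Q ∧ M.supp q ⊆ Q) = M.bigs.filter fun Q => M.supp q ⊆ Q := by
      ext Q
      simp only [mem_filter]
      constructor
      · rintro ⟨h, _, h'⟩
        exact ⟨h, h'⟩
      · rintro ⟨h, h'⟩
        exact ⟨h, h' (M.mem_supp.2 hq), h'⟩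
    rw [h2, M.one_clq hbig hN q, one_smul]

open Classical in
theorem Red.two_bigs (M : Red C D d L k) (hbig : 10 * (d - 2 + 2 * L) < d ^ 2) (hd : 3 ≤ d) (hN : NoPetal M.Γ)
    (hnc : ¬ ∀ p q, p ≠ q → M.Γ.Adj p q) (P : C) : (M.bigs.filter fun Q => P ∈ Q).card = 2 := by
  have h := two_big M.gram hN M.conn k (fun p => by convert M.reg p) (M.edge_big hbig) hnc P
    (M.vertex_big hbig (by omega) P)
  rw [Red.bigs, filter_filter]
  convert h

theorem Red.rank_H (M : Red C D d L k) (hbig : 10 * (d - 2 + 2 * L) < d ^ 2) (hN : NoPetal M.Γ) {Q : Finset C}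
    (hQ : Big M.Γ Q) : (M.H Q).card ≤ (M.E Q).card := by
  classical
  refine rank_ineq M.R (M.H Q) (M.E Q) L M.Lpos ?_ ?_ ?_
  · intro p hp p' hp' hne
    exact M.off hbig hN hQ (mem_filter.1 hp).1 (mem_filter.1 hp').1 hne
  · intro p hp
    exact (mem_filter.1 hp).2.le
  · intro p hp p' _ h1 _
    have := (mem_filter.1 hp).2
    rw [Red.al, h1] at this
    omega

open Classical in
theorem Red.few (M : Red C D d L k) (hbig : 10 * (d - 2 + 2 * L) < d ^ 2) (hN : NoPetal M.Γ) {Q : Finset C}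
    (hQ : Big M.Γ Q) (heq : (M.H Q).card = (M.E Q).card) : (Q \ M.H Q).card ≤ 1 := by
  by_contra hcon
  obtain ⟨P, hP, P', hP', hne⟩ := one_lt_card.1 (not_le.1 hcon)
  rw [mem_sdiff] at hP hP'
  have h1 : M.al P Q ≤ L := by
    by_contra h
    exact hP.2 (mem_filter.2 ⟨hP.1, not_le.1 h⟩)
  have h2 : M.al P' Q ≤ L := by
    by_contra h
    exact hP'.2 (mem_filter.2 ⟨hP'.1, not_le.1 h⟩)
  have h3 := cs_eq (M.R P) (M.R P') (M.E Q) L (M.off hbig hN hQ hP.1 hP'.1 hne) h1 h2
  have h4 : (insert P (M.H Q)).card ≤ (M.E Q).card := by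
    refine rank_ineq M.R (insert P (M.H Q)) (M.E Q) L M.Lpos ?_ ?_ ?_
    · intro p hp p' hp' hne'
      have hpQ : p ∈ Q := by
        rcases mem_insert.1 hp with rfl | h
        · exact hP.1
        · exact (mem_filter.1 h).1
      have hpQ' : p' ∈ Q := by
        rcases mem_insert.1 hp' with rfl | h
        · exact hP.1
        · exact (mem_filter.1 h).1
      exact M.off hbig hN hQ hpQ hpQ' hne'
    · intro p hp
      rcases mem_insert.1 hp with rfl | h
      · exact h3.1.ge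
      · exact (mem_filter.1 h).2.le
    · intro p hp p' hp' e1 e2
      have hpP : p = P := by
        rcases mem_insert.1 hp with h | h
        · exact h
        · have := (mem_filter.1 h).2
          rw [Red.al, e1] at this
          omega
      have hpP' : p' = P := by
        rcases mem_insert.1 hp' with h | h
        · exact h
        · have := (mem_filter.1 h).2
          rw [Red.al, e2] at this
          omega
      rw [hpP, hpP']
  rw [card_insert_of_notMem hP.2, heq] at h4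
  omega

theorem Red.not_line (M : Red C D d L k) (hbig : 10 * (d - 2 + 2 * L) < d ^ 2) (hd : 3 ≤ d) (hN : NoPetal M.Γ)
    (hnc : ¬ ∀ p q, p ≠ q → M.Γ.Adj p q) : False := by
  classical
  have htwo := M.two_bigs hbig hd hN hnc
  have hE := M.sum_E hbig hN
  rw [← M.card] at hE
  -- every point is in some `H Q`
  have hsumH : ∑ Q ∈ M.bigs, (M.H Q).card = ∑ P : C, (M.bigs.filter fun Q => P ∈ Q ∧ L < M.al P Q).card := by
    have e1 : ∀ Q, (M.H Q).card = ∑ P : C, if P ∈ Q ∧ L < M.al P Q then 1 else 0 := by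
      intro Q
      rw [← card_filter]
      congr 1
      ext P
      simp [Red.H]
    rw [sum_congr rfl fun Q _ => e1 Q, sum_comm]
    exact sum_congr rfl fun P _ => by rw [card_filter]
  have hge : Fintype.card C ≤ ∑ Q ∈ M.bigs, (M.H Q).card := by
    rw [hsumH, ← card_univ, card_eq_sum_ones]
    refine sum_le_sum fun P _ => ?_
    rw [Nat.one_le_iff_ne_zero, ← Nat.pos_iff_ne_zero, card_pos]
    by_contra hne
    rw [not_nonempty_iff_eq_empty, filter_eq_empty_iff] at hne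
    have h1 := M.sum_al hbig hN P
    have h2 : ∑ Q ∈ M.bigs.filter (fun Q => P ∈ Q), M.al P Q ≤ ∑ Q ∈ M.bigs.filter (fun Q => P ∈ Q), L := by
      refine sum_le_sum fun Q hQ => ?_
      rw [mem_filter] at hQ
      by_contra hlt
      exact hne hQ.1 ⟨hQ.2, not_le.1 hlt⟩
    rw [sum_const, htwo P, smul_eq_mul, h1] at h2
    omega
  have hle : ∀ Q ∈ M.bigs, (M.H Q).card ≤ (M.E Q).card := fun Q hQ => M.rank_H hbig hN (M.mem_bigs.1 hQ)
  have hle2 : ∑ Q ∈ M.bigs, (M.H Q).card ≤ Fintype.card C := by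
    rw [← hE]
    exact sum_le_sum hle
  have hHs : ∑ Q ∈ M.bigs, (M.H Q).card = Fintype.card C := le_antisymm hle2 hge
  have heq : ∀ Q ∈ M.bigs, (M.H Q).card = (M.E Q).card :=
    (sum_eq_sum_iff_of_le hle).1 (by rw [hHs, hE])
  have hsumQ : ∑ Q ∈ M.bigs, Q.card = 2 * Fintype.card C := by
    have e1 : ∀ Q : Finset C, Q.card = ∑ P : C, if P ∈ Q then 1 else 0 := by
      intro Q
      rw [← card_filter]
      congr 1
      ext P
      simp
    rw [sum_congr rfl fun Q _ => e1 Q, sum_comm]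
    have e2 : ∀ P : C, ∑ Q ∈ M.bigs, (if P ∈ Q then 1 else 0) = 2 := by
      intro P
      rw [← card_filter]
      exact htwo P
    rw [sum_congr rfl fun P _ => e2 P, sum_const, card_univ, smul_eq_mul, mul_comm]
  have hpt : ∀ Q ∈ M.bigs, 10 * Q.card ≤ 11 * (M.H Q).card := by
    intro Q hQ
    have hQb := M.mem_bigs.1 hQ
    have h1 := M.few hbig hN hQb (heq Q hQ)
    have h2 : (M.H Q).card + (Q \ M.H Q).card = Q.card := by
      have := card_sdiff_add_card_eq_card (show M.H Q ⊆ Q from filter_subset _ _)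
      omega
    have h3 := hQb.1
    omega
  have hfin : 10 * ∑ Q ∈ M.bigs, Q.card ≤ 11 * ∑ Q ∈ M.bigs, (M.H Q).card := by
    rw [mul_sum, mul_sum]
    exact sum_le_sum hpt
  rw [hsumQ, hHs] at hfin
  have hpos : 0 < Fintype.card C := by
    have := M.conn.nonempty
    exact Fintype.card_pos
  omega

end

end Pool.Agent.H15.GP
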