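import Mathlib
import Pool.Agent.H15.GP.GrC
import Pool.Agent.H15.GP.GrF

/-!
# Cls: complete or cocktail party

If `Γ` has a petal, `cp_of_petal`; otherwise `NoPetal Γ` and `not_line`.
-/

set_option autoImplicit false

namespace Pool.Agent.H15.GP

open Finset

noncomputable section

variable {C D : Type} [Fintype C] [Fintype D] {d L k : ℕ}

theorem Red.classify (M : Red C D d L k) (hbig : 10 * (d - 2 + 2 * L) < d ^ 2) (hd : 3 ≤ d) :
    (∀ p q, p ≠ q → M.Γ.Adj p q) ∨ (Fintype.card C = k + 2 ∧ ∀ p, ∃! q, q ≠ p ∧ ¬ M.Γ.Adj p q) := by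
  by_cases hN : NoPetal M.Γ
  · left
    by_contra hnc
    exact M.not_line hbig hd hN hnc
  · right
    unfold NoPetal at hN
    push Not at hN
    obtain ⟨y, z, hyz, hn, U, hUU, hUy, hUz, hU⟩ := hN
    exact cp_of_petal M.gram M.conn k M.reg y z hyz hn U (by omega) hUU hUy hUz

end

end Pool.Agent.H15.GP
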