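import Mathlib
import Pool.Agent.H15.GP.Defs

/-!
# Cr: arithmetic consequences of `Crit d`

`K1 = (d² - d + 2) / 4`.
* `eq`: `d ≡ 15 (mod 16)` gives `4 ∣ d² - d + 2`: `4 K1 + d = d² + 2`.
* `odd`: `d² - d + 2 ≡ 1 + 1 + 2 = 4 (mod 16)`, so `K1 ≡ 1 (mod 4)`.
* `dvd_mod4`: every divisor of `K1` is a product of primes `≡ 1 (mod 4)` (induction: `Nat.recOnMul`, or `Nat.prod_primeFactorsList`).
* `small`: an odd prime factor `p` of `t ∣ 4 K1` divides `K1`, so `p ≡ 1 (mod 4)`, and `p ∉ {5, 13, 17}` since `x² - x + 2` has no root modulo 5, 13, 17 (`decide`), so `p ≥ 29 > t`, impossible.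
  So `t` is a power of 2 (`Nat.eq_two_pow_or_exists_odd_prime_and_dvd`), and `8 ∤ 4 K1`.
* `nsq`: `d - 2 ≡ 13 (mod 16)` is not a square.
* `big`: if `d ≥ 31` then `29 L ≤ d² - d + 2` and `10 (d - 2) + 20 L < d²` follows from `9 d² - 270 d + 540 > 0`; if `d = 15` then `L (k+2) = 212`, `k + 2 ≥ 29`, so `L ≤ 7`, `L ∈ {1, 2, 4}`, `10 (13 + 8) = 210 < 225`.
-/

set_option autoImplicit false

namespace Pool.Agent.H15.GP

theorem Crit.ge {d : ℕ} (h : Crit d) : 15 ≤ d := by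
  have := h.1
  omega

theorem Crit.sqj {d : ℕ} (h : Crit d) : ∃ j, d = 16 * j + 15 ∧ d ^ 2 = 256 * j ^ 2 + 480 * j + 225 := by
  have h1 := h.1
  obtain ⟨j, hj⟩ : ∃ j, d = 16 * j + 15 := ⟨d / 16, by omega⟩
  refine ⟨j, hj, ?_⟩
  rw [hj]
  ring

theorem Crit.eq {d : ℕ} (h : Crit d) : 4 * ((d ^ 2 - d + 2) / 4) + d = d ^ 2 + 2 := by
  obtain ⟨j, hj, hj2⟩ := h.sqj
  omega

theorem Crit.odd {d : ℕ} (h : Crit d) : ((d ^ 2 - d + 2) / 4) % 2 = 1 := by
  obtain ⟨j, hj, hj2⟩ := h.sqj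
  omega

theorem Crit.pos {d : ℕ} (h : Crit d) : 0 < (d ^ 2 - d + 2) / 4 := by
  have := h.odd
  omega

theorem Crit.dvd_mod4 {d : ℕ} (h : Crit d) (t : ℕ) (ht : t ∣ (d ^ 2 - d + 2) / 4) : t % 4 = 1 := by
  have hpos := h.pos
  have hall : ∀ t : ℕ, t ≠ 0 → (∀ p : ℕ, p.Prime → p ∣ t → p % 4 = 1) → t % 4 = 1 := by
    intro t
    induction t using Nat.recOnMul with
    | zero => intro h0; exact absurd rfl h0
    | one => intro _ _; rfl
    | prime p hp => intro _ hq; exact hq p hp dvd_rfl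
    | mul a b iha ihb =>
      intro h0 hq
      have ha := iha (left_ne_zero_of_mul h0) fun p hp hpa => hq p hp (Dvd.dvd.mul_right hpa b)
      have hb := ihb (right_ne_zero_of_mul h0) fun p hp hpb => hq p hp (Dvd.dvd.mul_left hpb a)
      rw [Nat.mul_mod, ha, hb]
  refine hall t ?_ ?_
  · rintro rfl
    have := Nat.eq_zero_of_zero_dvd ht
    omega
  · intro p hp hpt
    exact h.2.1 p hp (dvd_trans hpt ht)

/-- the polynomial has no root modulo 5, 13, 17 -/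
theorem no_root (d p : ℕ) (hp : p = 5 ∨ p = 13 ∨ p = 17) (h : (p : ℤ) ∣ (d : ℤ) ^ 2 - d + 2) : False := by
  rcases hp with rfl | rfl | rfl
  · have h1 : (((d : ℤ) ^ 2 - d + 2 : ℤ) : ZMod 5) = 0 := (ZMod.intCast_zmod_eq_zero_iff_dvd _ 5).2 h
    push_cast at h1
    have h2 : ∀ x : ZMod 5, x ^ 2 - x + 2 ≠ 0 := by decide
    exact h2 _ h1
  · have h1 : (((d : ℤ) ^ 2 - d + 2 : ℤ) : ZMod 13) = 0 := (ZMod.intCast_zmod_eq_zero_iff_dvd _ 13).2 h
    push_cast at h1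
    have h2 : ∀ x : ZMod 13, x ^ 2 - x + 2 ≠ 0 := by decide
    exact h2 _ h1
  · have h1 : (((d : ℤ) ^ 2 - d + 2 : ℤ) : ZMod 17) = 0 := (ZMod.intCast_zmod_eq_zero_iff_dvd _ 17).2 h
    push_cast at h1
    have h2 : ∀ x : ZMod 17, x ^ 2 - x + 2 ≠ 0 := by decide
    exact h2 _ h1

theorem Crit.small {d : ℕ} (h : Crit d) (t : ℕ) (ht : t ∣ 4 * ((d ^ 2 - d + 2) / 4)) (ht' : t < 29) :
    t = 1 ∨ t = 2 ∨ t = 4 := by
  have hpos := h.pos
  have hodd := h.odd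
  have heq := h.eq
  have hcr := h.2.1
  set K1 := (d ^ 2 - d + 2) / 4 with hK1
  have ht0 : t ≠ 0 := by
    rintro rfl
    have := Nat.eq_zero_of_zero_dvd ht
    omega
  have hno : ∀ p : ℕ, p.Prime → p ≠ 2 → p ∣ t → False := by
    intro p hp hp2 hpt
    have hpodd : p % 2 = 1 := hp.eq_two_or_odd.resolve_left hp2
    have h1 : p ∣ K1 := by
      have h2 : Nat.Coprime p 4 := by
        have : Nat.Coprime p 2 := Nat.coprime_two_right.2 (Nat.odd_iff.2 hpodd)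
        exact Nat.Coprime.pow_right 2 this
      exact h2.dvd_of_dvd_mul_left (dvd_trans hpt ht)
    have h3 := hcr p hp h1
    have h4 : p < 29 := lt_of_le_of_lt (Nat.le_of_dvd (Nat.pos_of_ne_zero ht0) hpt) ht'
    have h5 : (p : ℤ) ∣ (d : ℤ) ^ 2 - d + 2 := by
      have e1 : (4 : ℤ) * K1 + d = d ^ 2 + 2 := by exact_mod_cast heq
      have e2 : (d : ℤ) ^ 2 - d + 2 = 4 * K1 := by linarith
      rw [e2]
      exact Dvd.dvd.mul_left (by exact_mod_cast h1) _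
    have h6 : p = 5 ∨ p = 13 ∨ p = 17 := by
      have h7 : p ≠ 9 := by rintro rfl; revert hp; norm_num
      have h8 : p ≠ 21 := by rintro rfl; revert hp; norm_num
      have h9 : p ≠ 25 := by rintro rfl; revert hp; norm_num
      have h10 : p ≠ 1 := hp.one_lt.ne'
      omega
    exact no_root d p h6 h5
  rcases Nat.eq_two_pow_or_exists_odd_prime_and_dvd t with ⟨k, hk⟩ | ⟨p, hp, hpt, hpo⟩
  · have hk3 : k < 3 := by
      by_contra hk3
      have h1 : 2 ^ 3 ∣ t := by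
        rw [hk]
        exact pow_dvd_pow 2 (by omega)
      have h2 : 8 ∣ 4 * K1 := dvd_trans (by simpa using h1) ht
      omega
    interval_cases k <;> simp_all
  · exfalso
    refine hno p hp ?_ hpt
    rintro rfl
    exact absurd hpo (by decide)

theorem Crit.nsq {d : ℕ} (h : Crit d) : ¬ IsSquare (d - 2) := by
  rintro ⟨s, hs⟩
  have h1 := h.1
  have h2 : s % 4 = 0 ∨ s % 4 = 1 ∨ s % 4 = 2 ∨ s % 4 = 3 := by omega
  have h3 : (s * s) % 8 = 5 := by omega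
  have h4 : (s * s) % 8 = 0 ∨ (s * s) % 8 = 1 ∨ (s * s) % 8 = 4 := by
    have : s % 8 = 0 ∨ s % 8 = 1 ∨ s % 8 = 2 ∨ s % 8 = 3 ∨ s % 8 = 4 ∨ s % 8 = 5 ∨ s % 8 = 6 ∨ s % 8 = 7 := by omega
    rcases this with h | h | h | h | h | h | h | h <;> simp [Nat.mul_mod, h]
  omega

theorem Crit.big {d : ℕ} (h : Crit d) (L k : ℕ) (hK : L * (k + 2) + d = d ^ 2 + 2) (hk : 29 ≤ k + 2) :
    10 * (d - 2 + 2 * L) < d ^ 2 := by
  have h1 := h.1
  have h29 : L * 29 ≤ L * (k + 2) := Nat.mul_le_mul_left _ hk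
  by_cases hd : 31 ≤ d
  · have h2 : d * 31 ≤ d * d := Nat.mul_le_mul_left _ hd
    have h3 : d ^ 2 = d * d := sq d
    omega
  · have h15 : d = 15 := by omega
    subst h15
    have h2 : L ≤ 7 := by omega
    have h3 : L ∣ 212 := ⟨k + 2, by omega⟩
    have h4 : L ≠ 7 ∧ L ≠ 6 ∧ L ≠ 5 := by
      refine ⟨?_, ?_, ?_⟩ <;> rintro rfl <;> revert h3 <;> decide
    omega

end Pool.Agent.H15.GP
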