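import Mathlib
import Pool.Agent.H15.GP.GrS
import Pool.Agent.H15.GP.GrL

/-!
# Cyc: the quotients of degree 0 and 2

`k0`: a connected graph of degree 0 has one vertex.
`cyc`: `Γ` connected of degree 2.  If `Γ` has a triangle `{p, q, r}`, it is closed under adjacency (degree 2), so it is everything and `Γ` is complete.  Otherwise the support of a column `q` (a clique,
`Red.supp_clique`) has at most 2 elements; with entries `x, y` (possibly `y = 0`): `x + y = d`, `x² + y² = d - 2 + 2L` (`colsum`, `cc`), and `4L + d = d² + 2` (`hK`), so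
`(x - y)² = 2 (x² + y²) - (x + y)² = 2 (d - 2) + 4 L - d² = d - 2`.
-/

set_option autoImplicit false

namespace Pool.Agent.H15.GP

open Finset

noncomputable section

variable {C D : Type} [Fintype C] [Fintype D] {d L : ℕ}

theorem Red.k0 (M : Red C D d L 0) : Fintype.card C = 1 := by
  classical
  obtain ⟨p⟩ := M.conn.nonempty
  have h1 : ∀ q, q ∈ ({p} : Set C) := by
    intro q
    refine closed_univ M.conn {p} p rfl ?_ q
    intro a _ b hab
    exfalso
    have h2 := M.reg a
    rw [← SimpleGraph.card_neighborFinset_eq_degree, card_eq_zero] at h2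
    have h3 : b ∈ M.Γ.neighborFinset a := by
      rw [SimpleGraph.mem_neighborFinset]
      exact hab
    rw [h2] at h3
    exact absurd h3 (notMem_empty b)
  rw [Fintype.card_eq_one_iff]
  exact ⟨p, fun q => h1 q⟩

theorem Red.cyc (M : Red C D d L 2) (hd : 2 ≤ d) : (∀ p q, p ≠ q → M.Γ.Adj p q) ∨ IsSquare (d - 2) := by
  classical
  by_cases htri : ∃ p q r, M.Γ.Adj p q ∧ M.Γ.Adj q r ∧ M.Γ.Adj p r
  · left
    obtain ⟨p, q, r, hpq, hqr, hpr⟩ := htri
    have hnb : ∀ a b c : C, M.Γ.Adj a b → M.Γ.Adj a c → b ≠ c → ∀ x, M.Γ.Adj a x → x = b ∨ x = c := by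
      intro a b c hab hac hbc x hx
      have h1 := M.reg a
      rw [← SimpleGraph.card_neighborFinset_eq_degree] at h1
      have h2 : ({b, c} : Finset C) ⊆ M.Γ.neighborFinset a := by
        intro y hy
        simp only [mem_insert, mem_singleton] at hy
        rw [SimpleGraph.mem_neighborFinset]
        rcases hy with rfl | rfl
        · exact hab
        · exact hac
      have h3 := eq_of_subset_of_card_le h2 (by rw [h1, card_pair hbc])
      have h4 : x ∈ M.Γ.neighborFinset a := by
        rw [SimpleGraph.mem_neighborFinset]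
        exact hx
      rw [← h3] at h4
      simpa using h4
    have hall : ∀ v, v ∈ ({p, q, r} : Set C) := by
      refine closed_univ M.conn {p, q, r} p (by simp) ?_
      intro a ha b hab
      simp only [Set.mem_insert_iff, Set.mem_singleton_iff] at ha ⊢
      rcases ha with rfl | rfl | rfl
      · rcases hnb a q r hpq hpr hqr.ne b hab with h | h
        · exact Or.inr (Or.inl h)
        · exact Or.inr (Or.inr h)
      · rcases hnb a p r hpq.symm hqr hpr.ne b hab with h | h
        · exact Or.inl h
        · exact Or.inr (Or.inr h)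
      · rcases hnb a p q hpr.symm hqr.symm hpq.ne b hab with h | h
        · exact Or.inl h
        · exact Or.inr (Or.inl h)
    intro a b hab
    have ha := hall a
    have hb := hall b
    simp only [Set.mem_insert_iff, Set.mem_singleton_iff] at ha hb
    rcases ha with rfl | rfl | rfl <;> rcases hb with rfl | rfl | rfl
    · exact absurd rfl hab
    · exact hpq
    · exact hpr
    · exact hpq.symm
    · exact absurd rfl hab
    · exact hqr
    · exact hpr.symm
    · exact hqr.symm
    · exact absurd rfl hab
  · right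
    obtain ⟨p₀⟩ := M.conn.nonempty
    have hDne : Nonempty D := by
      rw [← Fintype.card_pos_iff, ← M.card]
      exact Fintype.card_pos_iff.2 ⟨p₀⟩
    obtain ⟨q⟩ := hDne
    have hsupp2 : (M.supp q).card ≤ 2 := by
      by_contra hcon
      obtain ⟨a, ha, b, hb, c, hc, hab, hac, hbc⟩ := two_lt_card.1 (not_le.1 hcon)
      exact htri ⟨a, b, c, M.supp_clique q a ha b hb hab, M.supp_clique q b hb c hc hbc,
        M.supp_clique q a ha c hc hac⟩
    have h1 : ∑ p ∈ M.supp q, M.R p q = d := by
      refine Eq.trans (sum_subset (subset_univ _) fun p _ hp => ?_) (M.colsum q)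
      by_contra h
      exact hp (by rw [Red.supp, mem_filter]; exact ⟨mem_univ _, h⟩)
    have h2 : ∑ p ∈ M.supp q, M.R p q ^ 2 = d - 2 + 2 * L := by
      refine Eq.trans (sum_subset (subset_univ _) fun p _ hp => ?_) (M.cc q)
      have : M.R p q = 0 := by
        by_contra h
        exact hp (by rw [Red.supp, mem_filter]; exact ⟨mem_univ _, h⟩)
      rw [this]
      rfl
    have hxy : ∃ x y : ℕ, x + y = d ∧ x ^ 2 + y ^ 2 = d - 2 + 2 * L := by
      have h3 : (M.supp q).card = 0 ∨ (M.supp q).card = 1 ∨ (M.supp q).card = 2 := by omega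
      rcases h3 with h3 | h3 | h3
      · rw [card_eq_zero] at h3
        rw [h3, sum_empty] at h1
        omega
      · obtain ⟨a, ha⟩ := card_eq_one.1 h3
        rw [ha, sum_singleton] at h1 h2
        exact ⟨M.R a q, 0, by omega, by simpa using h2⟩
      · obtain ⟨a, b, hab, ha⟩ := card_eq_two.1 h3
        rw [ha, sum_pair hab] at h1 h2
        exact ⟨M.R a q, M.R b q, h1, h2⟩
    obtain ⟨x, y, e1, e2⟩ := hxy
    have hK := M.hK
    have e3 : ((d - 2 : ℕ) : ℤ) = ((x : ℤ) - y) * (x - y) := by
      have z1 : (x : ℤ) + y = d := by exact_mod_cast e1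
      have z2 : (x : ℤ) ^ 2 + y ^ 2 = d - 2 + 2 * L := by
        have : ((x ^ 2 + y ^ 2 : ℕ) : ℤ) = ((d - 2 + 2 * L : ℕ) : ℤ) := by rw [e2]
        push_cast [Nat.cast_sub hd] at this
        exact this
      have z3 : (L : ℤ) * (2 + 2) + d = d ^ 2 + 2 := by exact_mod_cast hK
      rw [Nat.cast_sub hd]
      push_cast
      rw [← z1] at z2 z3 ⊢
      linear_combination (-2 : ℤ) * z2 - z3
    have e4 : IsSquare ((d - 2 : ℕ) : ℤ) := ⟨(x : ℤ) - y, e3⟩
    exact Int.isSquare_natCast_iff.1 e4

end

end Pool.Agent.H15.GP
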