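import Mathlib

/-!
# DetK: `R Rᵀ = n I + ℓ J` of even order `m`, row and column sums `d`: `n` is a square

`R Rᵀ 1 = R (d 1) = d² 1`, so `n + ℓ m = d²` (sum the row `p` of `R Rᵀ`: `∑_{p'} ∑_q R p q R p' q = ∑_q R p q d = d²`).
`det (n I + ℓ J) = n^(m-1) (n + ℓ m)`: `n I + ℓ J = n (I + u vᵀ)`, `Matrix.det_one_add_mul_comm` (or `Matrix.det_one_add_replicateCol_mul_replicateRow`) over `ℚ`.
Reindexing the columns by an equivalence `C ≃ D` makes `R` square; `(det R)² = n^(m-1) d²`, `m - 1` odd, `d > 0`, `n > 0`: `n` is the square of a rational, hence of a natural number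
(`n * (n^((m-2)/2) d)² = (det R)²`).
-/

set_option autoImplicit false

namespace Pool.Agent.H15.GP

open Finset Matrix

/-- the determinant of `a I + b J` -/
theorem det_aIbJ {C : Type} [Fintype C] [DecidableEq C] (a b : ℚ) (ha : a ≠ 0) (hpos : 0 < Fintype.card C) :
    det (a • (1 : Matrix C C ℚ) + b • Matrix.of (fun _ _ => (1 : ℚ))) =
      a ^ (Fintype.card C - 1) * (a + b * Fintype.card C) := by
  let u : Matrix C Unit ℚ := fun _ _ => 1
  have h1 : a • (1 : Matrix C C ℚ) + b • Matrix.of (fun _ _ => (1 : ℚ)) =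
      a • (1 + ((a⁻¹ * b) • u) * uᵀ) := by
    rw [smul_add]
    congr 1
    ext x y
    simp only [Matrix.smul_apply, Matrix.of_apply, Matrix.mul_apply, univ_unique, sum_singleton,
      Matrix.transpose_apply, u, smul_eq_mul]
    field_simp
  rw [h1, det_smul, det_one_add_mul_comm]
  have h2 : det (1 + uᵀ * ((a⁻¹ * b) • u)) = 1 + a⁻¹ * b * Fintype.card C := by
    rw [det_unique]
    simp only [Matrix.add_apply, Matrix.one_apply_eq, Matrix.mul_apply, Matrix.transpose_apply, Matrix.smul_apply,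
      u, smul_eq_mul, mul_one, one_mul, sum_const, card_univ, nsmul_eq_mul]
    ring
  rw [h2]
  obtain ⟨m, hm⟩ : ∃ m, Fintype.card C = m + 1 := ⟨Fintype.card C - 1, by omega⟩
  rw [hm]
  simp only [Nat.add_sub_cancel]
  rw [pow_succ]
  push_cast
  field_simp

/-- a natural number times the square of a nonzero rational being a square -/
theorem isSquare_of_mul (n : ℕ) (x y : ℚ) (hx : x ≠ 0) (h : y ^ 2 = n * x ^ 2) : IsSquare n := by
  rw [← Rat.isSquare_natCast_iff]
  refine ⟨y / x, ?_⟩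
  have hx2 : x ^ 2 ≠ 0 := pow_ne_zero 2 hx
  rw [div_mul_div_comm, ← sq, h, ← sq, mul_div_assoc, div_self hx2, mul_one]

theorem det_complete {C D : Type} [Fintype C] [Fintype D] (n l d : ℕ) (hn : 0 < n) (hd : 0 < d)
    (hpos : 0 < Fintype.card C) (hcard : Fintype.card C = Fintype.card D) (R : C → D → ℕ)
    (hrow : ∀ p, ∑ q, R p q = d) (hcol : ∀ q, ∑ p, R p q = d) (hdiag : ∀ p, ∑ q, R p q ^ 2 = n + l)
    (hoff : ∀ p p', p ≠ p' → ∑ q, R p q * R p' q = l) (heven : Even (Fintype.card C)) : IsSquare n := by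
  classical
  have e : C ≃ D := Fintype.equivOfCardEq hcard
  have hn' : (n : ℚ) ≠ 0 := by exact_mod_cast hn.ne'
  have hd' : (d : ℚ) ≠ 0 := by exact_mod_cast hd.ne'
  let A : Matrix C C ℚ := fun p q => (R p (e q) : ℚ)
  have hA : A * Aᵀ = (n : ℚ) • (1 : Matrix C C ℚ) + (l : ℚ) • Matrix.of (fun _ _ => (1 : ℚ)) := by
    ext p q
    rw [Matrix.mul_apply, Matrix.add_apply, Matrix.smul_apply, Matrix.smul_apply, Matrix.one_apply]
    have h1 : ∑ j, A p j * Aᵀ j q = ((∑ b, R p b * R q b : ℕ) : ℚ) := by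
      rw [← e.sum_comp]
      push_cast
      rfl
    rw [h1]
    by_cases hpq : p = q
    · subst hpq
      have h2 : ∑ b, R p b * R p b = n + l := by
        rw [← hdiag p]
        exact sum_congr rfl fun b _ => (sq _).symm
      rw [h2]
      simp
    · rw [hoff p q hpq]
      simp [hpq]
  have hsum : (n : ℚ) + l * Fintype.card C = d ^ 2 := by
    obtain ⟨p⟩ : Nonempty C := Fintype.card_pos_iff.1 hpos
    have h1 : ∑ p', ∑ q, R p q * R p' q = d ^ 2 := by
      rw [sum_comm]
      have : ∀ q, ∑ p', R p q * R p' q = R p q * d := fun q => by rw [← mul_sum, hcol q]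
      rw [sum_congr rfl fun q _ => this q, ← sum_mul, hrow p, sq]
    have h2 : ∑ p', ∑ q, R p q * R p' q = n + l * Fintype.card C := by
      rw [← add_sum_erase univ _ (mem_univ p)]
      have h3 : ∑ q, R p q * R p q = n + l := by
        rw [← hdiag p]
        exact sum_congr rfl fun b _ => (sq _).symm
      have h4 : ∀ p' ∈ univ.erase p, ∑ q, R p q * R p' q = l := fun p' hp' =>
        hoff p p' (ne_of_mem_erase hp').symm
      rw [h3, sum_congr rfl h4, sum_const, card_erase_of_mem (mem_univ _), card_univ, smul_eq_mul]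
      obtain ⟨m, hm⟩ : ∃ m, Fintype.card C = m + 1 := ⟨Fintype.card C - 1, by omega⟩
      rw [hm]
      simp only [Nat.add_sub_cancel]
      ring
    rw [h2] at h1
    exact_mod_cast h1
  have hdet : A.det ^ 2 = (n : ℚ) ^ (Fintype.card C - 1) * d ^ 2 := by
    have h1 : A.det ^ 2 = (A * Aᵀ).det := by rw [det_mul, det_transpose, sq]
    rw [h1, hA, det_aIbJ _ _ hn' hpos, hsum]
  obtain ⟨m, hm⟩ := heven
  obtain ⟨j, rfl⟩ : ∃ j, m = j + 1 := ⟨m - 1, by omega⟩
  refine isSquare_of_mul n ((n : ℚ) ^ j * d) A.det (mul_ne_zero (pow_ne_zero _ hn') hd') ?_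
  rw [hdet, hm, show j + 1 + (j + 1) - 1 = 2 * j + 1 by omega]
  ring

end Pool.Agent.H15.GP
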