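import Mathlib
import Pool.Agent.H15.GP.DetK

/-!
# DetCP: `R Rᵀ = δ I + ℓ (2 I + A)`, `A` the cocktail party graph on `2T` vertices

Every vertex `p` has a unique antipode `σ p ≠ p` with `p ≁ σ p` (`hcp`); `σ` is an involution without fixed points.  `R Rᵀ = (δ + ℓ) I + ℓ J - ℓ P_σ`.
`d² = δ + 2 T ℓ` (sum a row of `R Rᵀ`).
`det (R Rᵀ) = (δ + 2ℓ)^T δ^(T-1) (δ + 2Tℓ)`: choose a set of representatives `C ≃ H ⊕ H` with `σ` swapping; the matrix is `[[X, Y], [Y, X]]` with `X = (δ + ℓ) I + ℓ J`, `Y = ℓ J - ℓ I`,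
and `[[1, 1], [0, 1]] [[X, Y], [Y, X]] [[1, -1], [0, 1]] = [[X + Y, 0], [Y, X - Y]]`, `X + Y = δ I + 2ℓ J`, `X - Y = (δ + 2ℓ) I`;
`det (δ I + 2ℓ J) = δ^(T-1) (δ + 2ℓT)`.
So `(det R)² = (δ + 2ℓ)^T δ^(T-1) d²` (columns reindexed by `C ≃ D`): if `T` is even then `δ` is a square, if `T` is odd then `δ + 2ℓ` is a square.
-/

set_option autoImplicit false

namespace Pool.Agent.H15.GP

open Finset Matrix

/-- the determinant of `[[X, Y], [Y, X]]` -/
theorem det_swap {H : Type} [Fintype H] [DecidableEq H] (X Y : Matrix H H ℚ) :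
    (fromBlocks X Y Y X).det = (X + Y).det * (X - Y).det := by
  have h1 : fromBlocks 1 1 0 1 * fromBlocks X Y Y X * fromBlocks 1 (-1) 0 1 =
      fromBlocks (X + Y) 0 Y (X - Y) := by
    rw [fromBlocks_multiply, fromBlocks_multiply]
    congr 1
    · simp
    · simp only [Matrix.one_mul, Matrix.mul_one, Matrix.mul_neg]
      rw [add_comm Y X]
      exact neg_add_cancel _
    · simp
    · simp only [Matrix.zero_mul, Matrix.one_mul, Matrix.mul_one, Matrix.mul_neg, zero_add]
      rw [sub_eq_add_neg, add_comm]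
  have h2 := congrArg Matrix.det h1
  rw [det_mul, det_mul, det_fromBlocks_zero₂₁, det_fromBlocks_zero₂₁, det_fromBlocks_zero₁₂] at h2
  simpa using h2

theorem det_cp {C D : Type} [Fintype C] [Fintype D] (δ l d T : ℕ) (hδ : 0 < δ) (hl : 0 < l) (hd : 0 < d) (hT : 0 < T)
    (hC : Fintype.card C = 2 * T) (hcard : Fintype.card C = Fintype.card D) (Γ : SimpleGraph C)
    (hcp : ∀ p, ∃! q, q ≠ p ∧ ¬ Γ.Adj p q) (R : C → D → ℕ)
    (hrow : ∀ p, ∑ q, R p q = d) (hcol : ∀ q, ∑ p, R p q = d) (hrr : ∀ p, ∑ q, R p q ^ 2 = δ + 2 * l)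
    (hadj : ∀ p p', Γ.Adj p p' → ∑ q, R p q * R p' q = l)
    (hnadj : ∀ p p', p ≠ p' → ¬ Γ.Adj p p' → ∑ q, R p q * R p' q = 0) :
    (Even T → IsSquare δ) ∧ (Odd T → IsSquare (δ + 2 * l)) := by
  classical
  have hδ' : (δ : ℚ) ≠ 0 := by exact_mod_cast hδ.ne'
  have hd' : (d : ℚ) ≠ 0 := by exact_mod_cast hd.ne'
  -- the antipode
  choose σ hσ hσu using hcp
  have hσ1 : ∀ p, σ p ≠ p := fun p => (hσ p).1
  have hσ2 : ∀ p, ¬ Γ.Adj p (σ p) := fun p => (hσ p).2
  have hσ3 : ∀ p q, q ≠ p → q ≠ σ p → Γ.Adj p q := by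
    intro p q h1 h2
    by_contra h3
    exact h2 (hσu p q ⟨h1, h3⟩)
  have hσσ : ∀ p, σ (σ p) = p := by
    intro p
    by_contra h
    exact hσ2 p ((hσ3 (σ p) p (hσ1 p).symm (Ne.symm h)).symm)
  -- representatives
  let ε : C ≃ Fin (Fintype.card C) := Fintype.equivFin C
  let H : Type := {p : C // ε p < ε (σ p)}
  have hHσ : ∀ h : H, ¬ ε (σ h.1) < ε (σ (σ h.1)) := by
    intro h
    rw [hσσ]
    exact not_lt.2 h.2.le
  let f : H ⊕ H → C := Sum.elim (fun h => h.1) (fun h => σ h.1)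
  have hf : Function.Bijective f := by
    constructor
    · rintro (h | h) (h' | h') heq
      · exact congrArg Sum.inl (Subtype.ext heq)
      · exfalso
        have heq' : h.1 = σ h'.1 := heq
        apply hHσ h'
        rw [← heq']
        exact h.2
      · exfalso
        have heq' : σ h.1 = h'.1 := heq
        apply hHσ h
        rw [heq']
        exact h'.2
      · have heq' : σ h.1 = σ h'.1 := heq
        have : h.1 = h'.1 := by rw [← hσσ h.1, heq', hσσ]
        exact congrArg Sum.inr (Subtype.ext this)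
    · intro p
      by_cases hp : ε p < ε (σ p)
      · exact ⟨Sum.inl ⟨p, hp⟩, rfl⟩
      · have h1 : ε (σ p) < ε p := by
          rcases lt_or_eq_of_le (not_lt.1 hp) with h | h
          · exact h
          · exact absurd (ε.injective h) (hσ1 p)
        exact ⟨Sum.inr ⟨σ p, by rw [hσσ]; exact h1⟩, hσσ p⟩
  let F : H ⊕ H ≃ C := Equiv.ofBijective f hf
  have hcardH : Fintype.card H = T := by
    have h1 := Fintype.card_congr F
    rw [Fintype.card_sum] at h1
    have h2 : Fintype.card H + Fintype.card H = 2 * T := h1.trans hC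
    omega
  have e : C ≃ D := Fintype.equivOfCardEq hcard
  let A : Matrix (H ⊕ H) (H ⊕ H) ℚ := fun i j => (R (F i) (e (F j)) : ℚ)
  let J : Matrix H H ℚ := Matrix.of fun _ _ => (1 : ℚ)
  let X : Matrix H H ℚ := ((δ : ℚ) + l) • (1 : Matrix H H ℚ) + (l : ℚ) • J
  let Y : Matrix H H ℚ := (-(l : ℚ)) • (1 : Matrix H H ℚ) + (l : ℚ) • J
  have hgen : ∀ i j, ∑ k, A i k * Aᵀ k j = ((∑ b, R (F i) b * R (F j) b : ℕ) : ℚ) := by
    intro i j
    rw [← e.sum_comp, ← F.sum_comp]
    push_cast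
    rfl
  have hself : ∀ p, ∑ b, R p b * R p b = δ + 2 * l := by
    intro p
    rw [← hrr p]
    exact sum_congr rfl fun b _ => (sq _).symm
  have hA : A * Aᵀ = fromBlocks X Y Y X := by
    ext i j
    rw [Matrix.mul_apply, hgen]
    rcases i with h | h <;> rcases j with h' | h'
    · rw [fromBlocks_apply₁₁]
      by_cases hh : h = h'
      · subst hh
        rw [hself]
        simp [X, J]
        ring
      · have h1 : Γ.Adj (F (Sum.inl h)) (F (Sum.inl h')) := by
          refine hσ3 _ _ (fun h2 => hh (Subtype.ext h2.symm)) (fun h2 => ?_)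
          have h3 : h'.1 = σ h.1 := h2
          apply hHσ h
          rw [← h3]
          exact h'.2
        rw [hadj _ _ h1]
        simp [X, J, hh]
    · rw [fromBlocks_apply₁₂]
      by_cases hh : h = h'
      · subst hh
        have h1 : ¬ Γ.Adj (F (Sum.inl h)) (F (Sum.inr h)) := hσ2 h.1
        have h2 : F (Sum.inl h) ≠ F (Sum.inr h) := (hσ1 h.1).symm
        rw [hnadj _ _ h2 h1]
        simp [Y, J]
      · have h1 : Γ.Adj (F (Sum.inl h)) (F (Sum.inr h')) := by
          refine hσ3 _ _ (fun h2 => ?_) (fun h2 => ?_)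
          · have h3 : σ h'.1 = h.1 := h2
            apply hHσ h'
            rw [h3]
            exact h.2
          · have h3 : σ h'.1 = σ h.1 := h2
            exact hh (Subtype.ext (by rw [← hσσ h.1, ← h3, hσσ]))
        rw [hadj _ _ h1]
        simp [Y, J, hh]
    · rw [fromBlocks_apply₂₁]
      by_cases hh : h = h'
      · subst hh
        have h1 : ¬ Γ.Adj (F (Sum.inr h)) (F (Sum.inl h)) := fun h => hσ2 _ h.symm
        have h2 : F (Sum.inr h) ≠ F (Sum.inl h) := hσ1 h.1
        rw [hnadj _ _ h2 h1]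
        simp [Y, J]
      · have h1 : Γ.Adj (F (Sum.inr h)) (F (Sum.inl h')) := by
          refine hσ3 _ _ (fun h2 => ?_) (fun h2 => ?_)
          · have h3 : h'.1 = σ h.1 := h2
            apply hHσ h
            rw [← h3]
            exact h'.2
          · have h3 : h'.1 = σ (σ h.1) := h2
            rw [hσσ] at h3
            exact hh (Subtype.ext h3.symm)
        rw [hadj _ _ h1]
        simp [Y, J, hh]
    · rw [fromBlocks_apply₂₂]
      by_cases hh : h = h'
      · subst hh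
        rw [hself]
        simp [X, J]
        ring
      · have h1 : Γ.Adj (F (Sum.inr h)) (F (Sum.inr h')) := by
          refine hσ3 _ _ (fun h2 => ?_) (fun h2 => ?_)
          · have h3 : σ h'.1 = σ h.1 := h2
            exact hh (Subtype.ext (by rw [← hσσ h.1, ← h3, hσσ]))
          · have h3 : σ h'.1 = σ (σ h.1) := h2
            rw [hσσ] at h3
            apply hHσ h'
            rw [h3]
            exact h.2
        rw [hadj _ _ h1]
        simp [X, J, hh]
  have hXY : X + Y = (δ : ℚ) • (1 : Matrix H H ℚ) + (2 * l : ℚ) • J := by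
    ext i j
    simp only [X, Y, J, Matrix.add_apply, Matrix.smul_apply, Matrix.of_apply, smul_eq_mul]
    ring
  have hXY' : X - Y = ((δ : ℚ) + 2 * l) • (1 : Matrix H H ℚ) := by
    ext i j
    simp only [X, Y, J, Matrix.add_apply, Matrix.sub_apply, Matrix.smul_apply, Matrix.of_apply, smul_eq_mul]
    ring
  have hsum : (δ : ℚ) + 2 * l * T = d ^ 2 := by
    have hne : Nonempty H := Fintype.card_pos_iff.1 (by omega)
    obtain ⟨h⟩ := hne
    have h1 : ∑ j, (A * Aᵀ) (Sum.inl h) j = (d : ℚ) ^ 2 := by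
      have h2 : ∀ j, (A * Aᵀ) (Sum.inl h) j = ((∑ b, R (F (Sum.inl h)) b * R (F j) b : ℕ) : ℚ) := by
        intro j
        rw [Matrix.mul_apply, hgen]
      rw [sum_congr rfl fun j _ => h2 j, ← Nat.cast_sum]
      have h3 : ∑ j, ∑ b, R (F (Sum.inl h)) b * R (F j) b = d ^ 2 := by
        rw [F.sum_comp (fun p => ∑ b, R (F (Sum.inl h)) b * R p b), sum_comm]
        have : ∀ q, ∑ p', R (F (Sum.inl h)) q * R p' q = R (F (Sum.inl h)) q * d := fun q => by
          rw [← mul_sum, hcol q]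
        rw [sum_congr rfl fun q _ => this q, ← sum_mul, hrow, sq]
      rw [h3]
      push_cast
      rfl
    rw [hA, Fintype.sum_sum_type] at h1
    simp only [fromBlocks_apply₁₁, fromBlocks_apply₁₂] at h1
    rw [← sum_add_distrib] at h1
    have h4 : ∀ j, X h j + Y h j = (if h = j then (δ : ℚ) else 0) + 2 * l := by
      intro j
      have := congrFun (congrFun hXY h) j
      rw [Matrix.add_apply] at this
      rw [this]
      by_cases hh : h = j
      · simp [hh, J]
      · simp [hh, J]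
    rw [sum_congr rfl fun j _ => h4 j, sum_add_distrib, sum_ite_eq, if_pos (mem_univ _), sum_const, card_univ,
      hcardH, nsmul_eq_mul] at h1
    rw [← h1]
    ring
  have hdet : A.det ^ 2 = ((δ : ℚ) ^ (T - 1) * d ^ 2) * ((δ : ℚ) + 2 * l) ^ T := by
    have h1 : A.det ^ 2 = (A * Aᵀ).det := by rw [det_mul, det_transpose, sq]
    rw [h1, hA, det_swap, hXY, hXY', det_smul, det_one, mul_one, det_aIbJ _ _ hδ' (by omega), hcardH, hsum]
  have hl' : (δ : ℚ) + 2 * l ≠ 0 := by positivity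
  constructor
  · rintro ⟨m, hm⟩
    obtain ⟨j, rfl⟩ : ∃ j, m = j + 1 := ⟨m - 1, by omega⟩
    refine isSquare_of_mul δ ((δ : ℚ) ^ j * d * ((δ : ℚ) + 2 * l) ^ (j + 1)) A.det
      (mul_ne_zero (mul_ne_zero (pow_ne_zero _ hδ') hd') (pow_ne_zero _ hl')) ?_
    rw [hdet, hm, show j + 1 + (j + 1) - 1 = 2 * j + 1 by omega]
    ring
  · rintro ⟨m, hm⟩
    refine isSquare_of_mul (δ + 2 * l) ((δ : ℚ) ^ m * d * ((δ : ℚ) + 2 * l) ^ m) A.det
      (mul_ne_zero (mul_ne_zero (pow_ne_zero _ hδ') hd') (pow_ne_zero _ hl')) ?_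
    rw [hdet, hm, show 2 * m + 1 - 1 = 2 * m by omega]
    push_cast
    ring

end Pool.Agent.H15.GP
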