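import Mathlib

/-!
# Mod8: `n X² = Y² + ℓ Z²` has only the trivial solution if `ℓ ≡ 1 (mod 4)` and `n ≡ ℓ + 5 (mod 8)`

Infinite descent (induction on `|X| + |Y| + |Z|`): modulo 8 a solution has `X, Y, Z` all even.
`ℓ ≡ 1`: `n ≡ 6`: `6 X² ≡ Y² + Z²`; squares are `0, 1, 4` modulo 8.  `X` odd: `Y² + Z² ≡ 6`, impossible.  `X` even: `6 X² ≡ 0`, `Y² + Z² ≡ 0`, so `Y`, `Z` are even.
`ℓ ≡ 5`: `n ≡ 2`: `2 X² ≡ Y² + 5 Z²`, the same.  (`decide` over `ZMod 8`.)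
-/

set_option autoImplicit false

namespace Pool.Agent.H15.GP

theorem mod8_even (n l : ℕ) (hl : l % 4 = 1) (hn : n % 8 = (l + 5) % 8) (X Y Z : ℤ)
    (h : (n : ℤ) * X ^ 2 = Y ^ 2 + l * Z ^ 2) : X % 2 = 0 ∧ Y % 2 = 0 ∧ Z % 2 = 0 := by
  have h8 : ∀ W : ℤ, W % 2 = 1 → W ^ 2 % 8 = 1 := by
    intro W hW
    have : W % 8 = 1 ∨ W % 8 = 3 ∨ W % 8 = 5 ∨ W % 8 = 7 := by omega
    rcases this with h | h | h | h <;> simp [pow_two, Int.mul_emod, h]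
  have h4 : ∀ W : ℤ, W % 2 = 0 → W ^ 2 % 8 = 0 ∨ W ^ 2 % 8 = 4 := by
    intro W hW
    have : W % 8 = 0 ∨ W % 8 = 2 ∨ W % 8 = 4 ∨ W % 8 = 6 := by omega
    rcases this with h | h | h | h <;> simp [pow_two, Int.mul_emod, h]
  have hcase : ((l : ℤ) % 8 = 1 ∧ (n : ℤ) % 8 = 6) ∨ ((l : ℤ) % 8 = 5 ∧ (n : ℤ) % 8 = 2) := by omega
  have hmod : ((n : ℤ) % 8 * (X ^ 2 % 8)) % 8 = (Y ^ 2 % 8 + ((l : ℤ) % 8 * (Z ^ 2 % 8)) % 8) % 8 := by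
    rw [← Int.mul_emod, ← Int.mul_emod, ← Int.add_emod, h]
  have hX := Int.emod_two_eq_zero_or_one X
  have hY := Int.emod_two_eq_zero_or_one Y
  have hZ := Int.emod_two_eq_zero_or_one Z
  have hX' : (X % 2 = 1 ∧ X ^ 2 % 8 = 1) ∨ (X % 2 = 0 ∧ (X ^ 2 % 8 = 0 ∨ X ^ 2 % 8 = 4)) := by
    rcases hX with h | h
    · exact Or.inr ⟨h, h4 X h⟩
    · exact Or.inl ⟨h, h8 X h⟩
  have hY' : (Y % 2 = 1 ∧ Y ^ 2 % 8 = 1) ∨ (Y % 2 = 0 ∧ (Y ^ 2 % 8 = 0 ∨ Y ^ 2 % 8 = 4)) := by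
    rcases hY with h | h
    · exact Or.inr ⟨h, h4 Y h⟩
    · exact Or.inl ⟨h, h8 Y h⟩
  have hZ' : (Z % 2 = 1 ∧ Z ^ 2 % 8 = 1) ∨ (Z % 2 = 0 ∧ (Z ^ 2 % 8 = 0 ∨ Z ^ 2 % 8 = 4)) := by
    rcases hZ with h | h
    · exact Or.inr ⟨h, h4 Z h⟩
    · exact Or.inl ⟨h, h8 Z h⟩
  rcases hcase with ⟨c1, c2⟩ | ⟨c1, c2⟩ <;> rw [c1, c2] at hmod <;>
    rcases hX' with ⟨x1, x2⟩ | ⟨x1, x2 | x2⟩ <;> rcases hY' with ⟨y1, y2⟩ | ⟨y1, y2 | y2⟩ <;>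
    rcases hZ' with ⟨z1, z2⟩ | ⟨z1, z2 | z2⟩ <;> rw [x2, y2, z2] at hmod <;> omega

theorem mod8 (n l : ℕ) (hl : l % 4 = 1) (hn : n % 8 = (l + 5) % 8) (X Y Z : ℤ)
    (h : (n : ℤ) * X ^ 2 = Y ^ 2 + l * Z ^ 2) : X = 0 ∧ Y = 0 ∧ Z = 0 := by
  have key : ∀ m : ℕ, ∀ X Y Z : ℤ, X.natAbs + Y.natAbs + Z.natAbs ≤ m →
      (n : ℤ) * X ^ 2 = Y ^ 2 + l * Z ^ 2 → X = 0 ∧ Y = 0 ∧ Z = 0 := by
    intro m
    induction m with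
    | zero =>
      intro X Y Z hm _
      omega
    | succ m ih =>
      intro X Y Z hm h
      obtain ⟨hX, hY, hZ⟩ := mod8_even n l hl hn X Y Z h
      obtain ⟨X', rfl⟩ : ∃ X', X = 2 * X' := ⟨X / 2, by omega⟩
      obtain ⟨Y', rfl⟩ : ∃ Y', Y = 2 * Y' := ⟨Y / 2, by omega⟩
      obtain ⟨Z', rfl⟩ : ∃ Z', Z = 2 * Z' := ⟨Z / 2, by omega⟩
      have h' : (n : ℤ) * X' ^ 2 = Y' ^ 2 + l * Z' ^ 2 := by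
        have : (4 : ℤ) * (n * X' ^ 2) = 4 * (Y' ^ 2 + l * Z' ^ 2) := by linear_combination h
        linarith
      by_cases h0 : X' = 0 ∧ Y' = 0 ∧ Z' = 0
      · obtain ⟨rfl, rfl, rfl⟩ := h0
        simp
      · have h1 := ih X' Y' Z' (by omega) h'
        exact absurd h1 h0
  exact key _ X Y Z le_rfl h

end Pool.Agent.H15.GP
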