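import Mathlib
import Pool.Agent.H15.GP.Cls
import Pool.Agent.H15.GP.Brc
import Pool.Agent.H15.GP.Mod8
import Pool.Agent.H15.GP.DetK
import Pool.Agent.H15.GP.DetCP
import Pool.Agent.H15.GP.Cyc
import Pool.Agent.H15.GP.Cr

/-!
# Asm: no reduced structure for a critical `d`

`K1 = (d² - d + 2)/4`, `L (k + 2) = 4 K1`.
`complete_false`: `Γ` complete, `m = card C = k + 1`, `L (m + 1) = 4 K1`.
* `L` odd: `4 ∣ m + 1`, `L ∣ K1` so `L ≡ 1 (mod 4)`; `brc` with `n = d - 2 + L`, `ℓ = L`, and `mod8` (`d - 2 ≡ 5 (mod 8)`).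
* `L ≡ 2 (mod 4)`: `m + 1` even, `m (L - 1)` odd: `sq` contradicts `nsq`.
* `4 ∣ L`: `(L/4)(m + 1) = K1` odd, so `m` is even; `det_complete`: `d - 2 + L` is a square, `q = m + 1 > 1` divides `K1`, `L = 4 (K1 / q)`: contradiction with `Crit`.
`cp_false`: `card C = k + 2`, even (the antipodal map is a fixed point free involution) `= 2T`; `2 T L = 4 K1`; `det_cp` with `δ = d - 2`, `ℓ = L`: `T` even contradicts `nsq`; `T` odd divides `K1`, `2L = 4 (K1 / T)`, `T > 1` as `29 ≤ k + 2`.
`red_false`: `k + 2 ∣ 4 K1`, `small`: `k + 2 ≥ 29` or `k = 0` or `k = 2`.  `k = 0`: `card C = 1`, `L = 2 K1` even, `sq`.  `k = 2`: `cyc`.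
-/

set_option autoImplicit false

namespace Pool.Agent.H15.GP

open Finset

noncomputable section

variable {C D : Type} [Fintype C] [Fintype D] {d L k : ℕ}

theorem Red.LK (M : Red C D d L k) (h : Crit d) : L * (k + 2) = 4 * ((d ^ 2 - d + 2) / 4) := by
  have h1 := M.hK
  have h2 := h.eq
  omega

theorem Red.complete_false (M : Red C D d L k) (h : Crit d) (hc : ∀ p q, p ≠ q → M.Γ.Adj p q) : False := by
  classical
  have hd := h.ge
  have hd16 := h.1
  have hLK := M.LK h
  have hodd := h.odd
  have hdm := h.dvd_mod4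
  have hnsq := h.nsq
  have hcr := h.2.2
  set K1 := (d ^ 2 - d + 2) / 4 with hK1
  have hLpos := M.Lpos
  have hcard : Fintype.card C = k + 1 := by
    obtain ⟨p⟩ : Nonempty C := M.conn.nonempty
    have h1 : (univ.erase p).card = k := by
      rw [← M.reg p, ← SimpleGraph.card_neighborFinset_eq_degree]
      congr 1
      ext q
      rw [mem_erase, SimpleGraph.mem_neighborFinset]
      constructor
      · rintro ⟨h1, _⟩
        exact hc p q (Ne.symm h1)
      · intro h1
        exact ⟨h1.ne', mem_univ _⟩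
    rw [card_erase_of_mem (mem_univ _), card_univ] at h1
    have h2 : 0 < Fintype.card C := Fintype.card_pos_iff.2 ⟨p⟩
    omega
  have hdiag : ∀ p, ∑ q, M.R p q ^ 2 = (d - 2 + L) + L := by
    intro p
    rw [M.rr p]
    ring
  have hoff : ∀ p p', p ≠ p' → ∑ q, M.R p q * M.R p' q = L := fun p p' hne => M.rr_adj p p' (hc p p' hne)
  have hL4 : L % 2 = 1 ∨ L % 4 = 2 ∨ L % 4 = 0 := by omega
  rcases hL4 with hL | hL | hL
  · -- Bruck-Ryser-Chowla
    have hco : Nat.Coprime L 4 := by
      have : Nat.Coprime L 2 := (Nat.coprime_two_right.2 (Nat.odd_iff.2 hL))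
      exact Nat.Coprime.pow_right 2 this
    have h4 : 4 ∣ k + 2 := by
      have : 4 ∣ L * (k + 2) := ⟨K1, hLK⟩
      exact hco.symm.dvd_of_dvd_mul_left this
    have hLd : L ∣ K1 := by
      have : L ∣ 4 * K1 := ⟨k + 2, hLK.symm⟩
      exact hco.dvd_of_dvd_mul_left this
    have hLm := hdm L hLd
    obtain ⟨X, Y, Z, hY, heq⟩ := brc (d - 2 + L) L (by omega) M.card (by omega) M.R hdiag hoff
    exact hY (mod8 (d - 2 + L) L hLm (by omega) X Y Z heq).2.1
  · -- the number `s (L - 1)` is odd
    apply hnsq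
    apply M.sq
    rw [hcard]
    obtain ⟨L', hL'⟩ : ∃ L', L = 2 * L' := ⟨L / 2, by omega⟩
    have h1 : L' * (k + 2) = 2 * K1 := by
      have : 2 * (L' * (k + 2)) = 2 * (2 * K1) := by
        rw [← mul_assoc, ← hL', hLK]
        ring
      omega
    have h2 : Even (L' * (k + 2)) := by
      rw [h1]
      exact even_two_mul _
    have h3 : ¬ Even L' := by
      rw [Nat.even_iff]
      omega
    have h4 : Even (k + 2) := by
      rcases Nat.even_mul.1 h2 with h | h
      · exact absurd h h3
      · exact h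
    refine Odd.mul ?_ ?_
    · rw [Nat.odd_iff]
      rw [Nat.even_iff] at h4
      omega
    · rw [Nat.odd_iff]
      omega
  · -- the determinant
    obtain ⟨L', hL'⟩ : ∃ L', L = 4 * L' := ⟨L / 4, by omega⟩
    have h1 : L' * (k + 2) = K1 := by
      have : 4 * (L' * (k + 2)) = 4 * K1 := by
        rw [← mul_assoc, ← hL', hLK]
      omega
    have h2 : Odd (k + 2) := by
      have : Odd (L' * (k + 2)) := by
        rw [h1, Nat.odd_iff]
        exact hodd
      exact (Nat.odd_mul.1 this).2
    have h3 : IsSquare (d - 2 + L) := by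
      refine det_complete (d - 2 + L) L d (by omega) (by omega) (by omega) M.card M.R M.rowsum M.colsum hdiag hoff ?_
      rw [hcard, Nat.even_iff]
      rw [Nat.odd_iff] at h2
      omega
    have h4 : K1 / (k + 2) = L' := by
      rw [← h1]
      exact Nat.mul_div_cancel _ (by omega)
    have h5 := hcr (k + 2) (by omega) ⟨L', by rw [← h1]; ring⟩
    rw [h4, ← hL'] at h5
    exact h5 h3

theorem Red.cp_false (M : Red C D d L k) (h : Crit d) (hk : 29 ≤ k + 2) (hC : Fintype.card C = k + 2)
    (hcp : ∀ p, ∃! q, q ≠ p ∧ ¬ M.Γ.Adj p q) : False := by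
  classical
  have hd := h.ge
  have hLK := M.LK h
  have hodd := h.odd
  have hnsq := h.nsq
  have hcr := h.2.2
  set K1 := (d ^ 2 - d + 2) / 4 with hK1
  have heven : Even (Fintype.card C) := by
    have hcp' := hcp
    choose σ hσ hσu using hcp'
    have hσσ : ∀ p, σ (σ p) = p := by
      intro p
      exact (hσu (σ p) p ⟨(hσ p).1.symm, fun h => (hσ p).2 h.symm⟩).symm
    have h1 : ∑ _x : C, (1 : ZMod 2) = 0 := by
      refine sum_involution (fun x _ => σ x) (fun x _ => by decide) (fun x _ _ => (hσ x).1)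
        (fun x _ => mem_univ _) (fun x _ => hσσ x)
    rw [sum_const, card_univ, nsmul_eq_mul, mul_one] at h1
    rw [← ZMod.natCast_eq_zero_iff_even]
    exact h1
  obtain ⟨T, hT⟩ := heven
  have hT2 : Fintype.card C = 2 * T := by omega
  have hLT : L * T = 2 * K1 := by
    have h1 : 2 * (L * T) = 2 * (2 * K1) := by
      have : k + 2 = 2 * T := by omega
      rw [this] at hLK
      linarith
    omega
  have hdet := det_cp (d - 2) L d T (by omega) M.Lpos (by omega) (by omega) hT2 M.card M.Γ hcp M.R M.rowsum M.colsum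
    M.rr M.rr_adj M.rr_nadj
  rcases Nat.even_or_odd T with hTe | hTo
  · exact hnsq (hdet.1 hTe)
  · have hTK : T ∣ K1 := by
      have h1 : T ∣ 2 * K1 := ⟨L, by rw [← hLT]; ring⟩
      have h2 : Nat.Coprime T 2 := Nat.coprime_two_right.2 hTo
      exact h2.dvd_of_dvd_mul_left h1
    obtain ⟨j, hj⟩ := hTK
    have hL2 : L = 2 * j := by
      have h1 : T * L = T * (2 * j) := by
        rw [mul_comm T L, hLT, hj]
        ring
      exact Nat.eq_of_mul_eq_mul_left (by omega) h1
    have h4 : K1 / T = j := by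
      rw [hj]
      exact Nat.mul_div_cancel_left _ (by omega)
    have h5 := hcr T (by omega) ⟨j, hj⟩
    rw [h4] at h5
    have h6 := hdet.2 hTo
    rw [hL2, show 2 * (2 * j) = 4 * j by ring] at h6
    exact h5 h6

theorem Red.red_false (M : Red C D d L k) (h : Crit d) : False := by
  classical
  have hLK := M.LK h
  by_cases hk : 29 ≤ k + 2
  · rcases M.classify (h.big L k M.hK hk) (by have := h.ge; omega) with hc | ⟨hC, hcp⟩
    · exact M.complete_false h hc
    · exact M.cp_false h hk hC hcp
  · have h1 : k + 2 ∣ 4 * ((d ^ 2 - d + 2) / 4) := ⟨L, by rw [← hLK]; ring⟩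
    rcases h.small (k + 2) h1 (by omega) with h2 | h2 | h2
    · omega
    · obtain rfl : k = 0 := by omega
      have h3 := M.k0
      apply M.complete_false h
      intro p q hpq
      exact absurd ((Fintype.card_eq_one_iff_nonempty_unique.1 h3).elim fun u => by
        have := u
        exact Subsingleton.elim p q) hpq
    · obtain rfl : k = 2 := by omega
      rcases M.cyc (by have := h.ge; omega) with hc | hs
      · exact M.complete_false h hc
      · exact h.nsq hs

end

end Pool.Agent.H15.GP
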