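import Mathlib

/-!
# PelA: two solutions of `x² = D y² + N` in the same class

Let `x² = D y² + N`, `x'² = D y'² + N`, `gcd(x, y) = 1`, `x y' ≡ x' y (mod N)`, `y < y'`, `y > 0`, `D ≥ 2`, `N > 0`.  Then `2 y ≤ y'`.
* `gcd(y, N) = 1`: a common prime divides `x²`, hence `x`, contradiction.
* `A = x x' - D y y' > 0` because `(x x')² > (D y y')²`; `B = x y' - x' y > 0` because `(x y')² - (x' y)² = N (y'² - y²) > 0` (integers).
* `N ∣ B` by hypothesis; `y A = x (x' y) - D y² y' ≡ x² y' - D y² y' = N y' ≡ 0 (mod N)`, so `N ∣ A`.  Write `A = N u`, `B = N v`, `u, v ≥ 1`.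
* `A² - D B² = (x² - D y²)(x'² - D y'²) = N²`, so `u² = D v² + 1 ≥ 3`, `u ≥ 2`.
* `x B + y A = y' (x² - D y²) = N y'`, so `y' = x v + y u ≥ 2 y`.
-/

set_option autoImplicit false

namespace Pool.Agent.H15.GP

theorem growth (D N x y x' y' : ℕ) (hD : 2 ≤ D) (hN : 0 < N) (h : x ^ 2 = D * y ^ 2 + N)
    (h' : x' ^ 2 = D * y' ^ 2 + N) (hy : 0 < y) (hxy : Nat.Coprime x y)
    (hmod : (N : ℤ) ∣ (x : ℤ) * y' - x' * y) (hlt : y < y') : 2 * y ≤ y' := by
  have hyN : Nat.Coprime y N := by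
    by_contra hcon
    obtain ⟨p, hp, h1, h2⟩ := Nat.Prime.not_coprime_iff_dvd.1 hcon
    have h3 : p ∣ x ^ 2 := by
      rw [h]
      exact dvd_add (Dvd.dvd.mul_left (dvd_pow h1 two_ne_zero) _) h2
    have h4 : p ∣ x := hp.dvd_of_dvd_pow h3
    have h5 : p ∣ Nat.gcd x y := Nat.dvd_gcd h4 h1
    rw [hxy] at h5
    exact hp.one_lt.ne' (Nat.dvd_one.1 h5)
  have z1 : (x : ℤ) ^ 2 = D * y ^ 2 + N := by exact_mod_cast h
  have z2 : (x' : ℤ) ^ 2 = D * y' ^ 2 + N := by exact_mod_cast h'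
  have zD : (2 : ℤ) ≤ D := by exact_mod_cast hD
  have zN : (0 : ℤ) < N := by exact_mod_cast hN
  have zy : (0 : ℤ) < y := by exact_mod_cast hy
  have zlt : (y : ℤ) < y' := by exact_mod_cast hlt
  have zx : (0 : ℤ) ≤ x := by positivity
  have zx' : (0 : ℤ) ≤ x' := by positivity
  have hxpos : (0 : ℤ) < x := by
    rcases lt_or_eq_of_le zx with h0 | h0
    · exact h0
    · exfalso
      rw [← h0] at z1
      nlinarith [mul_nonneg (show (0 : ℤ) ≤ D by linarith) (sq_nonneg (y : ℤ))]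
  set A : ℤ := x * x' - D * y * y' with hA
  set B : ℤ := x * y' - x' * y with hB
  have hApos : 0 < A := by
    have h1 : (D * y * y' : ℤ) ^ 2 < (x * x') ^ 2 := by
      have : ((x : ℤ) * x') ^ 2 = (D * y ^ 2 + N) * (D * y' ^ 2 + N) := by rw [mul_pow, z1, z2]
      rw [this]
      have e1 : 0 < (N : ℤ) * D * y' ^ 2 := by
        have : (0 : ℤ) < y' := by linarith
        positivity
      have e2 : 0 ≤ (N : ℤ) * D * y ^ 2 := by positivity
      have e3 : 0 < (N : ℤ) ^ 2 := by positivity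
      nlinarith
    have h2 := abs_lt_of_sq_lt_sq h1 (by positivity)
    have h3 := (abs_lt.1 h2).2
    rw [hA]
    linarith
  have hBpos : 0 < B := by
    have h1 : (x' * y : ℤ) ^ 2 < (x * y') ^ 2 := by
      rw [mul_pow, mul_pow, z1, z2]
      have e1 : (y : ℤ) ^ 2 < y' ^ 2 := by
        apply sq_lt_sq'
        · linarith
        · exact zlt
      nlinarith
    have h2 := abs_lt_of_sq_lt_sq h1 (by positivity)
    have h3 := (abs_lt.1 h2).2
    rw [hB]
    linarith
  have hNA : (N : ℤ) ∣ A := by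
    have h1 : (N : ℤ) ∣ y * A := by
      have e1 : (y : ℤ) * A = N * y' - x * B := by
        rw [hA, hB]
        linear_combination (y' : ℤ) * z1
      rw [e1]
      exact dvd_sub (dvd_mul_right _ _) (Dvd.dvd.mul_left hmod _)
    have h2 : IsCoprime (N : ℤ) (y : ℤ) := by
      rw [Int.isCoprime_iff_gcd_eq_one]
      exact_mod_cast hyN.symm
    exact h2.dvd_of_dvd_mul_left h1
  obtain ⟨u, hu⟩ := hNA
  obtain ⟨v, hv⟩ : ∃ v, B = N * v := hmod
  have hupos : 0 < u := by
    by_contra hc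
    have : (N : ℤ) * u ≤ 0 := mul_nonpos_of_nonneg_of_nonpos zN.le (not_lt.1 hc)
    linarith
  have hvpos : 0 < v := by
    by_contra hc
    have : (N : ℤ) * v ≤ 0 := mul_nonpos_of_nonneg_of_nonpos zN.le (not_lt.1 hc)
    linarith
  have hnorm : u ^ 2 = D * v ^ 2 + 1 := by
    have h1 : A ^ 2 - D * B ^ 2 = (N : ℤ) ^ 2 := by
      have : A ^ 2 - D * B ^ 2 = ((x : ℤ) ^ 2 - D * y ^ 2) * ((x' : ℤ) ^ 2 - D * y' ^ 2) := by
        rw [hA, hB]
        ring
      rw [this, z1, z2]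
      ring
    rw [hu, hv] at h1
    have h2 : (N : ℤ) ^ 2 * (u ^ 2 - D * v ^ 2 - 1) = 0 := by linear_combination h1
    rcases mul_eq_zero.1 h2 with h3 | h3
    · exfalso
      have : (0 : ℤ) < (N : ℤ) ^ 2 := by positivity
      linarith
    · linarith
  have hu2 : 2 ≤ u := by
    by_contra hc
    have h1 : u = 1 := by omega
    rw [h1] at hnorm
    have h2 : 0 < (D : ℤ) * v ^ 2 := by positivity
    linarith
  have hy' : (y' : ℤ) = x * v + y * u := by
    have h1 : (N : ℤ) * y' = N * (x * v + y * u) := by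
      have : (N : ℤ) * (x * v + y * u) = x * B + y * A := by rw [hu, hv]; ring
      rw [this, hA, hB]
      linear_combination (-(y' : ℤ)) * z1
    exact mul_left_cancel₀ zN.ne' h1
  have hfin : (2 : ℤ) * y ≤ y' := by
    rw [hy']
    have h1 : 0 ≤ (x : ℤ) * v := by positivity
    nlinarith
  exact_mod_cast hfin

end Pool.Agent.H15.GP
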