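import Mathlib

/-!
# PelB: a unit has at most `2 τ(N)` square roots modulo `N`

Fix one root `ρ₀` (if there is none the set is empty).  `gcd(ρ₀, N) = 1` (a common prime divides `D`).  For a root `ρ` let `g = gcd(ρ - ρ₀, N)`, a divisor of `N`;
`N ∣ (ρ - ρ₀)(ρ + ρ₀)` and `gcd((ρ - ρ₀)/g, N/g) = 1`, so `N/g ∣ ρ + ρ₀`.  Two roots `ρ, ρ'` with the same `g` satisfy `g ∣ ρ - ρ'` and `N/g ∣ ρ - ρ'`, hence `lcm(g, N/g) ∣ ρ - ρ'`, and
`gcd(g, N/g)` divides `(ρ + ρ₀) - (ρ - ρ₀) = 2 ρ₀`, so it divides 2: `N = gcd · lcm` divides `2 (ρ - ρ')`.  A set of numbers in `range N` whose pairwise differences are divisible by `N/2`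
(i.e. `N ∣ 2 (ρ - ρ')`) has at most 2 elements.  So every fiber of `ρ ↦ g` has at most 2 elements (`Finset.card_le_mul_card_image`).
-/

set_option autoImplicit false

namespace Pool.Agent.H15.GP

open Finset

/-- if `a`, `b` divide `x` then `a b` divides `gcd(a, b) x` -/
theorem mul_dvd_gcd_mul (a b x : ℤ) (ha : a ∣ x) (hb : b ∣ x) : a * b ∣ (Int.gcd a b : ℤ) * x := by
  rw [Int.gcd_eq_gcd_ab a b, add_mul]
  refine dvd_add ?_ ?_
  · have : a * Int.gcdA a b * x = (a * x) * Int.gcdA a b := by ring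
    rw [this]
    exact Dvd.dvd.mul_right (mul_dvd_mul_left a hb) _
  · have : b * Int.gcdB a b * x = (x * b) * Int.gcdB a b := by ring
    rw [this]
    exact Dvd.dvd.mul_right (mul_dvd_mul_right ha b) _

/-- the splitting of a difference of squares -/
theorem split_root (N g m ρ ρ₀ : ℤ) (hg : g ≠ 0) (hN : N = g * m) (hgcd : (Int.gcd (ρ - ρ₀) N : ℤ) = g)
    (h : N ∣ (ρ - ρ₀) * (ρ + ρ₀)) : g ∣ ρ - ρ₀ ∧ m ∣ ρ + ρ₀ := by
  have h1 : g ∣ ρ - ρ₀ := by
    rw [← hgcd]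
    exact Int.gcd_dvd_left _ _
  refine ⟨h1, ?_⟩
  obtain ⟨s, hs⟩ := h1
  have hco : IsCoprime s m := by
    have e1 : (Int.gcd (ρ - ρ₀) N : ℤ) = (ρ - ρ₀) * Int.gcdA (ρ - ρ₀) N + N * Int.gcdB (ρ - ρ₀) N :=
      Int.gcd_eq_gcd_ab _ _
    rw [hgcd] at e1
    refine ⟨Int.gcdA (ρ - ρ₀) N, Int.gcdB (ρ - ρ₀) N, ?_⟩
    have e2 : g * (Int.gcdA (ρ - ρ₀) N * s + Int.gcdB (ρ - ρ₀) N * m) = g * 1 := by
      calc g * (Int.gcdA (ρ - ρ₀) N * s + Int.gcdB (ρ - ρ₀) N * m)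
          = (g * s) * Int.gcdA (ρ - ρ₀) N + (g * m) * Int.gcdB (ρ - ρ₀) N := by ring
        _ = (ρ - ρ₀) * Int.gcdA (ρ - ρ₀) N + N * Int.gcdB (ρ - ρ₀) N := by rw [← hs, ← hN]
        _ = g * 1 := by rw [← e1, mul_one]
    exact mul_left_cancel₀ hg e2
  have h2 : g * m ∣ g * (s * (ρ + ρ₀)) := by
    rw [← hN, ← mul_assoc, ← hs]
    exact h
  have h3 : m ∣ s * (ρ + ρ₀) := (mul_dvd_mul_iff_left hg).1 h2
  exact hco.symm.dvd_of_dvd_mul_left h3

/-- a set of residues with differences divisible by `N / 2` has at most two elements -/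
theorem card_le_two_of (N : ℕ) (hN : 0 < N) (T : Finset ℕ) (hT : ∀ a ∈ T, a < N)
    (h : ∀ a ∈ T, ∀ b ∈ T, (N : ℤ) ∣ 2 * ((a : ℤ) - b)) : T.card ≤ 2 := by
  by_contra hcon
  obtain ⟨a, ha, b, hb, c, hc, hab, hac, hbc⟩ := two_lt_card.1 (not_le.1 hcon)
  have key : ∀ x ∈ T, ∀ y ∈ T, x ≠ y → 2 * ((x : ℤ) - y) = N ∨ 2 * ((x : ℤ) - y) = -N := by
    intro x hx y hy hne
    obtain ⟨k, hk⟩ := h x hx y hy
    have hx1 := hT x hx
    have hy1 := hT y hy
    have hN' : (0 : ℤ) < N := by exact_mod_cast hN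
    have hk1 : k < 2 := by
      by_contra hc
      have : (N : ℤ) * 2 ≤ N * k := mul_le_mul_of_nonneg_left (not_lt.1 hc) hN'.le
      omega
    have hk2 : -2 < k := by
      by_contra hc
      have : (N : ℤ) * k ≤ N * (-2) := mul_le_mul_of_nonneg_left (not_lt.1 hc) hN'.le
      omega
    have hk0 : k ≠ 0 := by
      rintro rfl
      omega
    have hk3 : k = 1 ∨ k = -1 := by omega
    rcases hk3 with rfl | rfl
    · left
      rw [hk]
      ring
    · right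
      rw [hk]
      ring
  have h1 := key a ha b hb hab
  have h2 := key a ha c hc hac
  have h3 := key b hb c hc hbc
  omega

theorem sqrt_count (D N : ℕ) (hN : 0 < N) (hco : Nat.Coprime D N) :
    ((range N).filter fun r : ℕ => (N : ℤ) ∣ (r : ℤ) ^ 2 - (D : ℤ)).card ≤ 2 * N.divisors.card := by
  classical
  set S := (range N).filter fun r : ℕ => (N : ℤ) ∣ (r : ℤ) ^ 2 - (D : ℤ) with hS
  rcases S.eq_empty_or_nonempty with h0 | ⟨r₀, hr₀⟩
  · rw [h0]
    simp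
  have hr₀' := (mem_filter.1 hr₀).2
  have hNz : (N : ℤ) ≠ 0 := by exact_mod_cast hN.ne'
  -- the root is a unit
  have hunit : IsCoprime (r₀ : ℤ) (N : ℤ) := by
    have h1 : IsCoprime (D : ℤ) (N : ℤ) := by
      rw [Int.isCoprime_iff_gcd_eq_one]
      exact_mod_cast hco
    obtain ⟨k, hk⟩ := hr₀'
    have h2 : IsCoprime ((r₀ : ℤ) ^ 2) (N : ℤ) := by
      have : (r₀ : ℤ) ^ 2 = D + N * k := by linarith
      rw [this]
      exact h1.add_mul_left_left k
    exact (IsCoprime.pow_left_iff (by norm_num)).1 h2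
  let φ : ℕ → ℕ := fun r => Int.gcd ((r : ℤ) - r₀) N
  have himg : S.image φ ⊆ N.divisors := by
    intro g hg
    rw [mem_image] at hg
    obtain ⟨r, _, rfl⟩ := hg
    rw [Nat.mem_divisors]
    refine ⟨?_, hN.ne'⟩
    have : ((Int.gcd ((r : ℤ) - r₀) N : ℕ) : ℤ) ∣ (N : ℤ) := Int.gcd_dvd_right _ _
    exact Int.natCast_dvd_natCast.1 this
  have hfib : ∀ g ∈ S.image φ, (S.filter fun r => φ r = g).card ≤ 2 := by
    intro g hg
    have hgd := Nat.mem_divisors.1 (himg hg)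
    obtain ⟨m, hm⟩ := hgd.1
    have hg0 : g ≠ 0 := by
      rintro rfl
      rw [zero_mul] at hm
      omega
    have hg0' : (g : ℤ) ≠ 0 := by exact_mod_cast hg0
    have hmz : (N : ℤ) = g * m := by exact_mod_cast hm
    have hsp : ∀ r ∈ S.filter (fun r => φ r = g), (g : ℤ) ∣ (r : ℤ) - r₀ ∧ (m : ℤ) ∣ (r : ℤ) + r₀ := by
      intro r hr
      rw [mem_filter] at hr
      refine split_root N g m r r₀ hg0' hmz ?_ ?_
      · exact congrArg (Nat.cast : ℕ → ℤ) hr.2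
      · have h1 := (mem_filter.1 hr.1).2
        have h2 := dvd_sub h1 hr₀'
        have e1 : (r : ℤ) ^ 2 - D - ((r₀ : ℤ) ^ 2 - D) = ((r : ℤ) - r₀) * (r + r₀) := by ring
        rw [e1] at h2
        exact h2
    refine card_le_two_of N hN _ (fun a ha => mem_range.1 (mem_filter.1 (mem_filter.1 ha).1).1) ?_
    intro a ha b hb
    obtain ⟨a1, a2⟩ := hsp a ha
    obtain ⟨b1, b2⟩ := hsp b hb
    have hgab : (g : ℤ) ∣ (a : ℤ) - b := by
      have := dvd_sub a1 b1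
      have e1 : (a : ℤ) - r₀ - ((b : ℤ) - r₀) = a - b := by ring
      rw [e1] at this
      exact this
    have hmab : (m : ℤ) ∣ (a : ℤ) - b := by
      have := dvd_sub a2 b2
      have e1 : (a : ℤ) + r₀ - ((b : ℤ) + r₀) = a - b := by ring
      rw [e1] at this
      exact this
    have h1 := mul_dvd_gcd_mul (g : ℤ) m ((a : ℤ) - b) hgab hmab
    have he2 : ((Int.gcd (g : ℤ) m : ℕ) : ℤ) ∣ 2 := by
      set e : ℤ := ((Int.gcd (g : ℤ) m : ℕ) : ℤ) with he
      have eg : e ∣ g := Int.gcd_dvd_left _ _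
      have em : e ∣ m := Int.gcd_dvd_right _ _
      have e2 : e ∣ 2 * (r₀ : ℤ) := by
        have := dvd_sub (dvd_trans em a2) (dvd_trans eg a1)
        have e1 : (a : ℤ) + r₀ - ((a : ℤ) - r₀) = 2 * r₀ := by ring
        rw [e1] at this
        exact this
      have e3 : IsCoprime e (r₀ : ℤ) := by
        have eN : e ∣ (N : ℤ) := by
          rw [hmz]
          exact Dvd.dvd.mul_right eg _
        exact (hunit.symm).of_isCoprime_of_dvd_left eN
      exact e3.dvd_of_dvd_mul_right e2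
    obtain ⟨f, hf⟩ := he2
    rw [hmz]
    have e4 : 2 * ((a : ℤ) - b) = ((Int.gcd (g : ℤ) m : ℕ) : ℤ) * ((a : ℤ) - b) * f := by
      rw [hf]
      ring
    rw [e4]
    exact Dvd.dvd.mul_right h1 f
  calc S.card ≤ 2 * (S.image φ).card := card_le_mul_card_image _ _ hfib
    _ ≤ 2 * N.divisors.card := Nat.mul_le_mul_left _ (card_le_card himg)

end Pool.Agent.H15.GP
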