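import Mathlib
import Pool.Agent.H15.GP.PelA
import Pool.Agent.H15.GP.PelB

/-!
# PelC: the number of primitive solutions of `x² = D y² + N`, `1 ≤ y < 2^K`, is at most `2 τ(N) K`

For a solution in `S` the number `y` is prime to `N` (see PelA), so there is `ρ ∈ range N` with `N ∣ ρ y - x`; then `N ∣ ρ² - D` (`ρ² y² ≡ x² ≡ D y²`).
The map `(x, y) ↦ (ρ, Nat.log 2 y)` into `(roots) × range K` is injective: if `ρ` is the same, `x y' ≡ ρ y y' ≡ x' y (mod N)`; if `y < y'` then `2 y ≤ y'` (`growth`), so the logarithms differ;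
so `y = y'`, and `x² = x'²`, `x = x'`.  `Finset.card_le_card_of_injOn`, `sqrt_count`.  (`N = 1` is included: `range 1`.)
-/

set_option autoImplicit false

namespace Pool.Agent.H15.GP

open Finset

/-- the class of a primitive solution -/
theorem ex_root (D N : ℕ) (hN : 0 < N) (x y : ℕ) (h : x ^ 2 = D * y ^ 2 + N) (hxy : Nat.Coprime x y) :
    ∃ r < N, (N : ℤ) ∣ (r : ℤ) * y - x ∧ (N : ℤ) ∣ (r : ℤ) ^ 2 - (D : ℤ) ∧ Nat.Coprime y N := by
  have hyN : Nat.Coprime y N := by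
    by_contra hcon
    obtain ⟨p, hp, h1, h2⟩ := Nat.Prime.not_coprime_iff_dvd.1 hcon
    have h3 : p ∣ x ^ 2 := by
      rw [h]
      exact dvd_add (Dvd.dvd.mul_left (dvd_pow h1 two_ne_zero) _) h2
    have h4 : p ∣ x := hp.dvd_of_dvd_pow h3
    have h5 : p ∣ Nat.gcd x y := Nat.dvd_gcd h4 h1
    rw [hxy] at h5
    exact hp.one_lt.ne' (Nat.dvd_one.1 h5)
  have : NeZero N := ⟨hN.ne'⟩
  have hinv : (y : ZMod N) * (y : ZMod N)⁻¹ = 1 := ZMod.coe_mul_inv_eq_one y hyN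
  set r : ℕ := ((x : ZMod N) * (y : ZMod N)⁻¹).val with hr
  have hr2 : ((r : ℕ) : ZMod N) = (x : ZMod N) * (y : ZMod N)⁻¹ := by rw [hr, ZMod.natCast_zmod_val]
  have h1 : (r : ZMod N) * y = x := by
    rw [hr2]
    calc (x : ZMod N) * (y : ZMod N)⁻¹ * y = x * ((y : ZMod N) * (y : ZMod N)⁻¹) := by ring
      _ = x := by rw [hinv, mul_one]
  have hx2 : (x : ZMod N) ^ 2 = D * (y : ZMod N) ^ 2 := by
    have : ((x ^ 2 : ℕ) : ZMod N) = ((D * y ^ 2 + N : ℕ) : ZMod N) := by rw [h]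
    push_cast at this
    rw [ZMod.natCast_self, add_zero] at this
    exact this
  have h2 : (r : ZMod N) ^ 2 = D := by
    rw [hr2, mul_pow, hx2]
    have f1 : (D : ZMod N) * (y : ZMod N) ^ 2 * ((y : ZMod N)⁻¹) ^ 2 = D * ((y : ZMod N) * (y : ZMod N)⁻¹) ^ (2 : ℕ) := by ring
    rw [f1, hinv, one_pow, mul_one]
  refine ⟨r, ZMod.val_lt _, ?_, ?_, hyN⟩
  · rw [← ZMod.intCast_zmod_eq_zero_iff_dvd]
    push_cast
    rw [h1, sub_self]
  · rw [← ZMod.intCast_zmod_eq_zero_iff_dvd]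
    push_cast
    rw [h2, sub_self]

theorem prim_count (D N K : ℕ) (hD : 2 ≤ D) (hN : 0 < N) (hco : Nat.Coprime D N) (S : Finset (ℕ × ℕ))
    (hS : ∀ p ∈ S, p.1 ^ 2 = D * p.2 ^ 2 + N ∧ 0 < p.2 ∧ p.2 < 2 ^ K ∧ Nat.Coprime p.1 p.2) :
    S.card ≤ 2 * N.divisors.card * K := by
  classical
  have hex : ∀ p : ℕ × ℕ, ∃ r, p ∈ S → r < N ∧ (N : ℤ) ∣ (r : ℤ) * p.2 - p.1 ∧ (N : ℤ) ∣ (r : ℤ) ^ 2 - (D : ℤ) := by
    intro p
    by_cases hp : p ∈ S
    · obtain ⟨h1, h2, h3, h4⟩ := hS p hp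
      obtain ⟨r, e1, e2, e3, _⟩ := ex_root D N hN p.1 p.2 h1 h4
      exact ⟨r, fun _ => ⟨e1, e2, e3⟩⟩
    · exact ⟨0, fun h => absurd h hp⟩
  choose ρ hρ using hex
  set R := (range N).filter fun r : ℕ => (N : ℤ) ∣ (r : ℤ) ^ 2 - (D : ℤ) with hR
  have hcard : S.card ≤ (R ×ˢ range K).card := by
    refine card_le_card_of_injOn (fun p => (ρ p, Nat.log 2 p.2)) ?_ ?_
    · intro p hp
      rw [Finset.mem_coe] at hp
      obtain ⟨e1, e2, e3⟩ := hρ p hp
      obtain ⟨h1, h2, h3, h4⟩ := hS p hp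
      simp only [coe_product, Set.mem_prod, Finset.mem_coe]
      refine ⟨?_, ?_⟩
      · rw [hR, mem_filter, mem_range]
        exact ⟨e1, e3⟩
      · rw [mem_range]
        exact (Nat.log_lt_iff_lt_pow (by norm_num) h2.ne').2 h3
    · intro p hp p' hp' heq
      rw [Finset.mem_coe] at hp hp'
      simp only [Prod.mk.injEq] at heq
      obtain ⟨heq1, heq2⟩ := heq
      obtain ⟨h1, h2, h3, h4⟩ := hS p hp
      obtain ⟨h1', h2', h3', h4'⟩ := hS p' hp'
      obtain ⟨_, e2, _⟩ := hρ p hp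
      obtain ⟨_, e2', _⟩ := hρ p' hp'
      rw [← heq1] at e2'
      have hlog : ∀ a b : ℕ, 0 < a → 2 * a ≤ b → Nat.log 2 a ≠ Nat.log 2 b := by
        intro a b ha hab h0
        have f1 : Nat.log 2 (a * 2) = Nat.log 2 a + 1 := Nat.log_mul_base (by norm_num) ha.ne'
        have f2 : Nat.log 2 (a * 2) ≤ Nat.log 2 b := Nat.log_mono_right (by omega)
        omega
      have hmod : (N : ℤ) ∣ (p.1 : ℤ) * p'.2 - p'.1 * p.2 := by
        have f1 := Dvd.dvd.mul_right e2' (p.2 : ℤ)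
        have f2 := Dvd.dvd.mul_right e2 (p'.2 : ℤ)
        have f3 := dvd_sub f1 f2
        have f4 : ((ρ p : ℤ) * p'.2 - p'.1) * p.2 - ((ρ p : ℤ) * p.2 - p.1) * p'.2 =
            (p.1 : ℤ) * p'.2 - p'.1 * p.2 := by ring
        rw [f4] at f3
        exact f3
      have hy : p.2 = p'.2 := by
        rcases lt_trichotomy p.2 p'.2 with hlt | heq | hlt
        · exact absurd heq2 (hlog _ _ h2 (growth D N p.1 p.2 p'.1 p'.2 hD hN h1 h1' h2 h4 hmod hlt))
        · exact heq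
        · have hmod' : (N : ℤ) ∣ (p'.1 : ℤ) * p.2 - p.1 * p'.2 := by
            have := (dvd_neg (a := (N : ℤ))).2 hmod
            rw [neg_sub] at this
            exact this
          exact absurd heq2.symm (hlog _ _ h2' (growth D N p'.1 p'.2 p.1 p.2 hD hN h1' h1 h2' h4' hmod' hlt))
      have hx : p.1 = p'.1 := by
        have f1 : p.1 ^ 2 = p'.1 ^ 2 := by rw [h1, h1', hy]
        exact Nat.pow_left_injective (by norm_num) f1
      exact Prod.ext hx hy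
  rw [card_product, card_range] at hcard
  exact le_trans hcard (Nat.mul_le_mul_right _ (sqrt_count D N hN hco))

end Pool.Agent.H15.GP
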