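import Mathlib
import Pool.Agent.H15.GP.PelC

/-!
# PelD: the number of all solutions of `x² = D y² + N`, `1 ≤ y < 2^K`, is at most `2 τ(N)² K`

`g = gcd(x, y)` satisfies `g² ∣ N`, so `g ∣ N`.  For a fixed `g` the map `(x, y) ↦ (x/g, y/g)` is injective into the primitive solutions for `N/g²` (positive, prime to `D`, a divisor of `N`, so
`τ(N/g²) ≤ τ(N)`) with `y/g < 2^K`: at most `2 τ(N) K` by `prim_count`.  Sum over the divisors `g` of `N` (`Finset.card_eq_sum_card_fiberwise`).
-/

set_option autoImplicit false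

namespace Pool.Agent.H15.GP

open Finset

theorem pell_count (D N K : ℕ) (hD : 2 ≤ D) (hN : 0 < N) (hco : Nat.Coprime D N) (S : Finset (ℕ × ℕ))
    (hS : ∀ p ∈ S, p.1 ^ 2 = D * p.2 ^ 2 + N ∧ 0 < p.2 ∧ p.2 < 2 ^ K) :
    S.card ≤ 2 * N.divisors.card ^ 2 * K := by
  classical
  let φ : ℕ × ℕ → ℕ := fun p => Nat.gcd p.1 p.2
  have hsq : ∀ p ∈ S, (φ p) ^ 2 ∣ N := by
    intro p hp
    obtain ⟨h1, _, _⟩ := hS p hp
    have e1 : (φ p) ^ 2 ∣ p.1 ^ 2 := pow_dvd_pow_of_dvd (Nat.gcd_dvd_left _ _) 2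
    have e2 : (φ p) ^ 2 ∣ D * p.2 ^ 2 := Dvd.dvd.mul_left (pow_dvd_pow_of_dvd (Nat.gcd_dvd_right _ _) 2) _
    rw [h1] at e1
    exact (Nat.dvd_add_right e2).1 e1
  have hmaps : ∀ p ∈ S, φ p ∈ N.divisors := by
    intro p hp
    rw [Nat.mem_divisors]
    exact ⟨dvd_trans (dvd_pow_self _ two_ne_zero) (hsq p hp), hN.ne'⟩
  rw [card_eq_sum_card_fiberwise hmaps]
  have hfib : ∀ g ∈ N.divisors, (S.filter fun p => φ p = g).card ≤ 2 * N.divisors.card * K := by
    intro g hg
    rcases (S.filter fun p => φ p = g).eq_empty_or_nonempty with h0 | ⟨p₀, hp₀⟩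
    · rw [h0]
      simp
    have hgd := Nat.mem_divisors.1 hg
    have hg0 : 0 < g := Nat.pos_of_dvd_of_pos hgd.1 hN
    have hg2 : g ^ 2 ∣ N := by
      rw [mem_filter] at hp₀
      have := hsq p₀ hp₀.1
      rw [hp₀.2] at this
      exact this
    obtain ⟨N', hN'⟩ := hg2
    have hN'0 : 0 < N' := by
      rcases Nat.eq_zero_or_pos N' with h | h
      · rw [h, mul_zero] at hN'
        omega
      · exact h
    have hN'd : N' ∣ N := ⟨g ^ 2, by rw [hN']; ring⟩
    have hco' : Nat.Coprime D N' := Nat.Coprime.coprime_dvd_right hN'd hco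
    set T := (S.filter fun p => φ p = g).image fun p => (p.1 / g, p.2 / g) with hT
    have hTcard : T.card = (S.filter fun p => φ p = g).card := by
      rw [hT]
      refine card_image_of_injOn ?_
      intro p hp p' hp' heq
      rw [Finset.mem_coe, mem_filter] at hp hp'
      simp only [Prod.mk.injEq] at heq
      have d1 : g ∣ p.1 := by rw [← hp.2]; exact Nat.gcd_dvd_left _ _
      have d2 : g ∣ p.2 := by rw [← hp.2]; exact Nat.gcd_dvd_right _ _
      have d1' : g ∣ p'.1 := by rw [← hp'.2]; exact Nat.gcd_dvd_left _ _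
      have d2' : g ∣ p'.2 := by rw [← hp'.2]; exact Nat.gcd_dvd_right _ _
      refine Prod.ext ?_ ?_
      · rw [← Nat.div_mul_cancel d1, ← Nat.div_mul_cancel d1', heq.1]
      · rw [← Nat.div_mul_cancel d2, ← Nat.div_mul_cancel d2', heq.2]
    rw [← hTcard]
    have h1 : T.card ≤ 2 * N'.divisors.card * K := by
      refine prim_count D N' K hD hN'0 hco' T ?_
      intro q hq
      rw [hT, mem_image] at hq
      obtain ⟨p, hp, rfl⟩ := hq
      rw [mem_filter] at hp
      obtain ⟨e1, e2, e3⟩ := hS p hp.1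
      have hgc : Nat.gcd p.1 p.2 = g := hp.2
      obtain ⟨a, ha⟩ : g ∣ p.1 := by rw [← hgc]; exact Nat.gcd_dvd_left _ _
      obtain ⟨b, hb⟩ : g ∣ p.2 := by rw [← hgc]; exact Nat.gcd_dvd_right _ _
      have ha' : p.1 / g = a := by rw [ha]; exact Nat.mul_div_cancel_left _ hg0
      have hb' : p.2 / g = b := by rw [hb]; exact Nat.mul_div_cancel_left _ hg0
      simp only [ha', hb']
      have hb0 : 0 < b := by
        rcases Nat.eq_zero_or_pos b with h | h
        · rw [h, mul_zero] at hb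
          omega
        · exact h
      refine ⟨?_, hb0, ?_, ?_⟩
      · rw [ha, hb, hN'] at e1
        have f1 : g ^ 2 * a ^ 2 = g ^ 2 * (D * b ^ 2 + N') := by
          linarith
        exact Nat.eq_of_mul_eq_mul_left (by positivity) f1
      · refine lt_of_le_of_lt ?_ e3
        rw [hb]
        exact Nat.le_mul_of_pos_left b hg0
      · rw [ha, hb, Nat.gcd_mul_left] at hgc
        have : g * Nat.gcd a b = g * 1 := by rw [hgc, mul_one]
        exact Nat.eq_of_mul_eq_mul_left hg0 this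
    refine le_trans h1 (Nat.mul_le_mul_right _ (Nat.mul_le_mul_left _ ?_))
    exact card_le_card (Nat.divisors_subset_of_dvd hN.ne' hN'd)
  calc ∑ g ∈ N.divisors, (S.filter fun p => φ p = g).card ≤ ∑ g ∈ N.divisors, 2 * N.divisors.card * K :=
        sum_le_sum hfib
    _ = 2 * N.divisors.card ^ 2 * K := by
        rw [sum_const, smul_eq_mul]
        ring

end Pool.Agent.H15.GP
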