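import Mathlib
import Pool.Agent.H15.GP.PelD

/-!
# BadQ: for a fixed `q` few `d` satisfy the square condition

Let `4 K1 = d² - d + 2`, `q ∣ K1`, `s² = d - 2 + 4 (K1/q)`.  Then `q s² = q (d - 2) + d² - d + 2`, and `x = 2d + q - 1`, `y = 2s` satisfy `x² = q y² + (q - 1)(q + 7)`
(`4 q s² = 4 q (d-2) + 4 d² - 4 d + 8`, `x² = 4 d² + 4 d (q - 1) + (q - 1)²`, difference `(q-1)² + 8 (q - 1)`).
`s > 0` because `K1/q > 0`; `s² ≤ d - 2 + (d² - d + 2)/2 ≤ d²`, so `y = 2 s < 2^(K+1)`.  `gcd(q, (q-1)(q+7)) = 1` since `gcd(q, q - 1) = 1` and `gcd(q, q + 7) = gcd(q, 7) = 1`.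
`d ↦ (x, y)` is injective (`x` determines `d`): `pell_count` with `D = q`, `N = (q-1)(q+7)`, exponent `K + 1`.
-/

set_option autoImplicit false

namespace Pool.Agent.H15.GP

open Finset

theorem bad_q (q K : ℕ) (hq : 1 < q) (h7 : ¬ 7 ∣ q) (S : Finset ℕ)
    (hS : ∀ d ∈ S, 2 ≤ d ∧ 4 ∣ d ^ 2 - d + 2 ∧ q ∣ (d ^ 2 - d + 2) / 4 ∧
      IsSquare (d - 2 + 4 * ((d ^ 2 - d + 2) / 4 / q)) ∧ d < 2 ^ K) :
    S.card ≤ 2 * ((q - 1) * (q + 7)).divisors.card ^ 2 * (K + 1) := by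
  classical
  have hNpos : 0 < (q - 1) * (q + 7) := Nat.mul_pos (by omega) (by omega)
  have hco : Nat.Coprime q ((q - 1) * (q + 7)) := by
    refine Nat.Coprime.mul_right ?_ ?_
    · have h1 : q = (q - 1) + 1 := by omega
      rw [h1]
      simp
    · rw [Nat.coprime_self_add_right]
      exact ((Nat.Prime.coprime_iff_not_dvd (by norm_num : Nat.Prime 7)).2 h7).symm
  let φ : ℕ → ℕ × ℕ := fun d => (2 * d + q - 1, 2 * Nat.sqrt (d - 2 + 4 * ((d ^ 2 - d + 2) / 4 / q)))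
  have hinj : Set.InjOn φ S := by
    intro d _ d' _ h
    simp only [φ, Prod.mk.injEq] at h
    omega
  rw [← card_image_of_injOn hinj]
  refine pell_count q ((q - 1) * (q + 7)) (K + 1) (by omega) hNpos hco _ ?_
  intro p hp
  rw [mem_image] at hp
  obtain ⟨d, hd, rfl⟩ := hp
  obtain ⟨hd2, h4, hqd, hsq, hdK⟩ := hS d hd
  have hd1 : d ≤ d ^ 2 := Nat.le_self_pow (by norm_num) d
  simp only [φ]
  obtain ⟨K1, hK1⟩ : ∃ K1, K1 = (d ^ 2 - d + 2) / 4 := ⟨_, rfl⟩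
  rw [← hK1] at hqd hsq ⊢
  have hK : 4 * K1 + d = d ^ 2 + 2 := by
    have : 4 * K1 = d ^ 2 - d + 2 := by
      rw [hK1]
      exact Nat.mul_div_cancel' h4
    omega
  have hqK : q * (K1 / q) = K1 := Nat.mul_div_cancel' hqd
  obtain ⟨j, hj⟩ : ∃ j, j = K1 / q := ⟨_, rfl⟩
  rw [← hj] at hsq hqK ⊢
  obtain ⟨s, hs⟩ := hsq
  rw [hs, Nat.sqrt_eq]
  have hK1pos : 0 < K1 := by
    by_contra h0
    have : K1 = 0 := by omega
    rw [this] at hK
    have h5 : d * 2 ≤ d * d := Nat.mul_le_mul_left d hd2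
    have h6 : d ^ 2 = d * d := sq d
    omega
  have hjpos : 0 < j := by
    rcases Nat.eq_zero_or_pos j with h | h
    · rw [h, mul_zero] at hqK
      omega
    · exact h
  have hspos : 0 < s := by
    rcases Nat.eq_zero_or_pos s with h | h
    · rw [h] at hs
      omega
    · exact h
  refine ⟨?_, by omega, ?_⟩
  · have z1 : (d : ℤ) - 2 + 4 * j = s * s := by
      have : ((d - 2 + 4 * j : ℕ) : ℤ) = ((s * s : ℕ) : ℤ) := by rw [hs]
      push_cast [Nat.cast_sub hd2] at this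
      exact this
    have z2 : (q : ℤ) * j = K1 := by exact_mod_cast hqK
    have z3 : 4 * (K1 : ℤ) + d = d ^ 2 + 2 := by exact_mod_cast hK
    have z4 : ((2 * d + q - 1 : ℕ) : ℤ) = 2 * d + q - 1 := by
      rw [Nat.cast_sub (by omega)]
      push_cast
      ring
    have z5 : (((q - 1) * (q + 7) : ℕ) : ℤ) = (q - 1) * (q + 7) := by
      push_cast [Nat.cast_sub (show 1 ≤ q by omega)]
      ring
    have z6 : ((2 * d + q - 1 : ℕ) : ℤ) ^ 2 = q * (2 * s) ^ 2 + (((q - 1) * (q + 7) : ℕ) : ℤ) := by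
      rw [z4, z5]
      linear_combination (4 : ℤ) * q * z1 - 16 * z2 - (4 : ℤ) * z3
    exact_mod_cast z6
  · have h1 : 2 * j ≤ K1 := by
      calc 2 * j ≤ q * j := Nat.mul_le_mul_right _ hq
        _ = K1 := hqK
    have h2 : s ≤ d := by
      by_contra hlt
      have h3 : (d + 1) * (d + 1) ≤ s * s := Nat.mul_le_mul (by omega) (by omega)
      have h4 : (d + 1) * (d + 1) = d ^ 2 + 2 * d + 1 := by ring
      omega
    calc 2 * s ≤ 2 * d := Nat.mul_le_mul_left _ h2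
      _ < 2 * 2 ^ K := by omega
      _ = 2 ^ (K + 1) := by rw [pow_succ]; ring

end Pool.Agent.H15.GP
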