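import Mathlib
import Pool.Agent.H15.GP.BadQ
import Pool.Agent.H15.GP.Defs

/-!
# BadC: the number of `d < 2^K` with good prime factors which are not critical

`GoodP d`: `d ≡ 15 (mod 16)` and all prime factors of `K1 = (d² - d + 2)/4` are `≡ 1 (mod 4)`.  If `GoodP d` and not `Crit d` there is `q > 1`, `q ∣ K1`, with `s² = d - 2 + 4 (K1/q)`.
`7 ∤ q` (7 is a prime `≡ 3 (mod 4)`), `4 ∣ d² - d + 2` (`d ≡ 15 (mod 16)`).
* `q ≤ 2^z`: `bad_q` for each `q`, `(q-1)(q+7) ≤ 2^(2z+4)`, so at most `2^z · 2 t² (K+1)` numbers `d`.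
* `q > 2^z`: `s² < 2^K + 2^(2K - z) ≤ 2^(2w)` (`4 K1 ≤ d² < 2^(2K)`; `z ≤ K`), so `s < 2^w`.  `e = 4 (K1/q)` divides `4 K1 = d² - d + 2` and `d = s² + 2 - e`, so (integers modulo `e`)
  `0 ≡ (s² + 2)² - (s² + 2) + 2 = s⁴ + 3 s² + 4`.  `d ↦ (s, e)` is injective, into the pairs `s < 2^w`, `e ∣ s⁴ + 3 s² + 4 ≤ 2^(4w+3)`: at most `2^w t` numbers.
`S = S₁ ∪ S₂`, `Finset.card_biUnion_le`.
-/

set_option autoImplicit false

namespace Pool.Agent.H15.GP

open Finset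

/-- The conditions on `d` except the last one. -/
def GoodP (d : ℕ) : Prop := d % 16 = 15 ∧ ∀ p : ℕ, p.Prime → p ∣ (d ^ 2 - d + 2) / 4 → p % 4 = 1

theorem GoodP.eq {d : ℕ} (h : GoodP d) : 4 * ((d ^ 2 - d + 2) / 4) + d = d ^ 2 + 2 := by
  have hd16 := h.1
  have hd1 : d ≤ d ^ 2 := Nat.le_self_pow (by norm_num) d
  obtain ⟨j, hj⟩ : ∃ j, d = 16 * j + 15 := ⟨d / 16, by omega⟩
  have e1 : d ^ 2 = 256 * j ^ 2 + 480 * j + 225 := by
    rw [hj]
    ring
  omega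

theorem GoodP.seven {d : ℕ} (h : GoodP d) {q : ℕ} (hq : q ∣ (d ^ 2 - d + 2) / 4) : ¬ 7 ∣ q := by
  intro h7
  have := h.2 7 (by norm_num) (dvd_trans h7 hq)
  omega

/-- the data for large `q` -/
theorem large_q (d q z w K : ℕ) (hd : GoodP d) (hz : z ≤ K) (hw : 2 * K + 1 ≤ 2 * w + z) (hq : 2 ^ z < q)
    (hqd : q ∣ (d ^ 2 - d + 2) / 4) (s : ℕ) (hs : d - 2 + 4 * ((d ^ 2 - d + 2) / 4 / q) = s * s) (hdK : d < 2 ^ K) :
    s < 2 ^ w ∧ 4 * ((d ^ 2 - d + 2) / 4 / q) ∣ s ^ 4 + 3 * s ^ 2 + 4 := by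
  have hK := hd.eq
  have hd16 := hd.1
  have hd1 : d ≤ d ^ 2 := Nat.le_self_pow (by norm_num) d
  obtain ⟨K1, hK1⟩ : ∃ K1, K1 = (d ^ 2 - d + 2) / 4 := ⟨_, rfl⟩
  rw [← hK1] at hqd hs hK ⊢
  have hqK : q * (K1 / q) = K1 := Nat.mul_div_cancel' hqd
  obtain ⟨j, hj⟩ : ∃ j, j = K1 / q := ⟨_, rfl⟩
  rw [← hj] at hs hqK ⊢
  have hd2 : 2 ≤ d := by omega
  constructor
  · have h1 : 4 * j * 2 ^ z ≤ d ^ 2 := by
      calc 4 * j * 2 ^ z ≤ 4 * j * q := Nat.mul_le_mul_left _ hq.le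
        _ = 4 * (q * j) := by ring
        _ = 4 * K1 := by rw [hqK]
        _ ≤ d ^ 2 := by omega
    have h2 : d ^ 2 < 2 ^ (2 * K) := by
      have : d ^ 2 < (2 ^ K) ^ 2 := Nat.pow_lt_pow_left hdK (by norm_num)
      rw [← pow_mul, mul_comm K 2] at this
      exact this
    have h3 : 2 ^ (2 * K) = 2 ^ (2 * K - z) * 2 ^ z := by
      rw [← pow_add]
      congr 1
      omega
    have h4 : 4 * j < 2 ^ (2 * K - z) := by
      have h5 : 4 * j * 2 ^ z < 2 ^ (2 * K - z) * 2 ^ z := by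
        rw [← h3]
        omega
      exact lt_of_mul_lt_mul_right h5 (by positivity)
    have h5 : 2 ^ K ≤ 2 ^ (2 * K - z) := Nat.pow_le_pow_right (by norm_num) (by omega)
    have h6 : s * s < 2 ^ (2 * w) := by
      have h7 : 2 * 2 ^ (2 * K - z) ≤ 2 ^ (2 * w) := by
        rw [← pow_succ']
        exact Nat.pow_le_pow_right (by norm_num) (by omega)
      omega
    by_contra hlt
    have h8 : 2 ^ w * 2 ^ w ≤ s * s := Nat.mul_le_mul (not_lt.1 hlt) (not_lt.1 hlt)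
    rw [← pow_add, ← two_mul] at h8
    omega
  · have z1 : (d : ℤ) - 2 + 4 * j = s * s := by
      have : ((d - 2 + 4 * j : ℕ) : ℤ) = ((s * s : ℕ) : ℤ) := by rw [hs]
      push_cast [Nat.cast_sub hd2] at this
      exact this
    have z2 : (q : ℤ) * j = K1 := by exact_mod_cast hqK
    have z3 : 4 * (K1 : ℤ) + d = d ^ 2 + 2 := by exact_mod_cast hK
    have z4 : (4 * (j : ℤ)) ∣ (s : ℤ) ^ 4 + 3 * s ^ 2 + 4 := by
      refine ⟨q + 2 * (s ^ 2 + 2) - 4 * j - 1, ?_⟩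
      have z5 : (d : ℤ) = s ^ 2 + 2 - 4 * j := by linarith
      rw [z5, ← z2] at z3
      linear_combination -z3
    exact_mod_cast z4

theorem bad_count (K z w t : ℕ) (hz : z ≤ K) (hw : 2 * K + 1 ≤ 2 * w + z)
    (ht1 : ∀ n : ℕ, 0 < n → n ≤ 2 ^ (2 * z + 4) → n.divisors.card ≤ t)
    (ht2 : ∀ n : ℕ, 0 < n → n ≤ 2 ^ (4 * w + 3) → n.divisors.card ≤ t)
    (S : Finset ℕ) (hS : ∀ d ∈ S, GoodP d ∧ ¬ Crit d ∧ d < 2 ^ K) :
    S.card ≤ 2 ^ z * (2 * t ^ 2 * (K + 1)) + 2 ^ w * t := by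
  classical
  have hex : ∀ d : ℕ, ∃ q s : ℕ, d ∈ S → 1 < q ∧ q ∣ (d ^ 2 - d + 2) / 4 ∧
      d - 2 + 4 * ((d ^ 2 - d + 2) / 4 / q) = s * s := by
    intro d
    by_cases hd : d ∈ S
    · obtain ⟨h1, h2, h3⟩ := hS d hd
      have h4 : ∃ q, 1 < q ∧ q ∣ (d ^ 2 - d + 2) / 4 ∧ IsSquare (d - 2 + 4 * ((d ^ 2 - d + 2) / 4 / q)) := by
        by_contra hcon
        push Not at hcon
        exact h2 ⟨h1.1, h1.2, fun q hq hqd hsq => hcon q hq hqd hsq⟩
      obtain ⟨q, hq, hqd, s, hs⟩ := h4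
      exact ⟨q, s, fun _ => ⟨hq, hqd, hs⟩⟩
    · exact ⟨0, 0, fun h => absurd h hd⟩
  choose q s hqs using hex
  have hsplit : S.card = (S.filter fun d => q d ≤ 2 ^ z).card + (S.filter fun d => ¬ q d ≤ 2 ^ z).card :=
    (card_filter_add_card_filter_not _).symm
  -- small `q`
  have hsmall : (S.filter fun d => q d ≤ 2 ^ z).card ≤ 2 ^ z * (2 * t ^ 2 * (K + 1)) := by
    have h1 : (S.filter fun d => q d ≤ 2 ^ z) ⊆ (Icc 1 (2 ^ z)).biUnion fun j => S.filter fun d => q d = j := by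
      intro d hd
      rw [mem_filter] at hd
      rw [mem_biUnion]
      have := (hqs d hd.1).1
      exact ⟨q d, mem_Icc.2 ⟨by omega, hd.2⟩, mem_filter.2 ⟨hd.1, rfl⟩⟩
    refine le_trans (card_le_card h1) ?_
    have h2 : ∀ j ∈ Icc 1 (2 ^ z), (S.filter fun d => q d = j).card ≤ 2 * t ^ 2 * (K + 1) := by
      intro j hj
      rw [mem_Icc] at hj
      rcases (S.filter fun d => q d = j).eq_empty_or_nonempty with h0 | ⟨d₀, hd₀⟩
      · rw [h0]
        simp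
      rw [mem_filter] at hd₀
      obtain ⟨e1, e2, e3⟩ := hqs d₀ hd₀.1
      rw [hd₀.2] at e1 e2
      have h7 := (hS d₀ hd₀.1).1.seven e2
      have h3 := bad_q j K e1 h7 (S.filter fun d => q d = j) (by
        intro d hd
        rw [mem_filter] at hd
        obtain ⟨f1, f2, f3⟩ := hqs d hd.1
        obtain ⟨g1, g2, g3⟩ := hS d hd.1
        rw [hd.2] at f2 f3
        have hg := g1.eq
        have hg16 := g1.1
        have hd1 : d ≤ d ^ 2 := Nat.le_self_pow (by norm_num) d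
        refine ⟨by omega, ⟨(d ^ 2 - d + 2) / 4, by omega⟩, f2, ⟨s d, f3⟩, g3⟩)
      refine le_trans h3 (Nat.mul_le_mul_right _ (Nat.mul_le_mul_left _ (Nat.pow_le_pow_left ?_ 2)))
      refine ht1 _ (Nat.mul_pos (by omega) (by omega)) ?_
      have f1 : j - 1 ≤ 2 ^ z := by omega
      have f2 : j + 7 ≤ 8 * 2 ^ z := by
        have : 1 ≤ 2 ^ z := Nat.one_le_two_pow
        omega
      calc (j - 1) * (j + 7) ≤ 2 ^ z * (8 * 2 ^ z) := Nat.mul_le_mul f1 f2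
        _ ≤ 2 ^ z * (16 * 2 ^ z) := Nat.mul_le_mul_left _ (Nat.mul_le_mul_right _ (by norm_num))
        _ = 2 ^ (2 * z + 4) := by
            rw [pow_add, two_mul, pow_add]
            ring
    refine le_trans card_biUnion_le (le_trans (sum_le_sum h2) ?_)
    rw [sum_const, Nat.card_Icc, smul_eq_mul]
    simp
  -- large `q`
  have hlarge : (S.filter fun d => ¬ q d ≤ 2 ^ z).card ≤ 2 ^ w * t := by
    let T : Finset (Σ _ : ℕ, ℕ) := (range (2 ^ w)).sigma fun j => (j ^ 4 + 3 * j ^ 2 + 4).divisors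
    have h1 : (S.filter fun d => ¬ q d ≤ 2 ^ z).card ≤ T.card := by
      refine card_le_card_of_injOn (fun d => ⟨s d, 4 * ((d ^ 2 - d + 2) / 4 / q d)⟩) ?_ ?_
      · intro d hd
        rw [Finset.mem_coe, mem_filter] at hd
        obtain ⟨f1, f2, f3⟩ := hqs d hd.1
        obtain ⟨g1, g2, g3⟩ := hS d hd.1
        obtain ⟨k1, k2⟩ := large_q d (q d) z w K g1 hz hw (not_le.1 hd.2) f2 (s d) f3 g3
        rw [Finset.mem_coe]
        simp only [T, mem_sigma, mem_range, Nat.mem_divisors]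
        exact ⟨k1, k2, by positivity⟩
      · intro d hd d' hd' h
        rw [Finset.mem_coe, mem_filter] at hd hd'
        obtain ⟨f1, f2, f3⟩ := hqs d hd.1
        obtain ⟨f1', f2', f3'⟩ := hqs d' hd'.1
        have g1 := (hS d hd.1).1.1
        have g1' := (hS d' hd'.1).1.1
        have h2 : s d = s d' := congrArg Sigma.fst h
        have h3 : 4 * ((d ^ 2 - d + 2) / 4 / q d) = 4 * ((d' ^ 2 - d' + 2) / 4 / q d') := by
          have := congrArg Sigma.snd h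
          exact this
        rw [h2] at f3
        rw [← f3', h3] at f3
        omega
    refine le_trans h1 ?_
    simp only [T]
    rw [card_sigma]
    have h2 : ∀ j ∈ range (2 ^ w), (j ^ 4 + 3 * j ^ 2 + 4).divisors.card ≤ t := by
      intro j hj
      rw [mem_range] at hj
      refine ht2 _ (by positivity) ?_
      have e1 : j ^ 4 ≤ (2 ^ w) ^ 4 := Nat.pow_le_pow_left hj.le 4
      have e2 : j ^ 2 ≤ (2 ^ w) ^ 4 := by
        calc j ^ 2 ≤ (2 ^ w) ^ 2 := Nat.pow_le_pow_left hj.le 2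
          _ ≤ (2 ^ w) ^ 4 := Nat.pow_le_pow_right (by positivity) (by norm_num)
      have e3 : 1 ≤ (2 ^ w) ^ 4 := Nat.one_le_pow _ _ (by positivity)
      have e4 : 2 ^ (4 * w + 3) = 8 * (2 ^ w) ^ 4 := by
        rw [pow_add, ← pow_mul, mul_comm w 4]
        ring
      omega
    refine le_trans (sum_le_sum h2) ?_
    rw [sum_const, card_range, smul_eq_mul]
  omega

end Pool.Agent.H15.GP
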