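import Mathlib
import Pool.Agent.H15.GP.BadC

/-!
# Fam: the family, and its elements have good prime factors

`n = x² + y²`, `n ∣ 16 b² + 1`, `h = (16 b² + 1)/n`, `d = (h + 2 - 7 n)/4` (`Fam`, `fd`).
`fam_n`: `x` even, `y` odd (coprime to `x`): `n ≡ 1 (mod 4)`, `2^(36r) ≤ n < 2^(36r+3)`.
`fam_eq`: with `h = (16 b² + 1)/n`: `n h = 16 b² + 1`.
  * congruence: write `n = 4 m + 1`, `b ≡ m (mod 2)`.  `16 b² ≡ 16 (b mod 2) (mod 64)`, and `n (7 n + 58) = 7 n² + 58 n = 112 m² + 288 m + 65 ≡ 1 + 16 (m mod 2) (mod 64)`, so `n h ≡ n (7 n + 58)` and (`n` odd)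
    `h ≡ 7 n + 58 (mod 64)`: `h + 2 - 7 n ≡ 60 (mod 64)`, so `4 ∣ h + 2 - 7n` and `d ≡ 15 (mod 16)`.
  * size: `2^(76r+12) ≤ 16 b²`, `16 b² + 1 ≤ 2^(76r+14)`, so `2^(40r+9) ≤ h ≤ 2^(40r+14)`; `7 n < 2^(36r+6) ≤ 2^(40r+2)` (`r ≥ 1`), so `2^(40r) ≤ d < 2^(40r+13)` and `4 d + 7 n = h + 2`.
`fam_goodp`: with `4 d + 7 n = h + 2` and `n h = 16 b² + 1`: `16 (d² - d + 2) = (4 d - 2)² + 28 = (h - 7 n)² + 28`, so
  `64 n² K1 = (16 b² + 1 - 7 n²)² + 28 n² = (16 b² - 7 n² - 1)² + (8 b)²` (integers).  A prime `p ≡ 3 (mod 4)` dividing `K1` divides `8 b` (`Int.sq_add_sq…`: `p ∣ u² + v²` implies `p ∣ u`, `p ∣ v`: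
  `ZMod.isSquare_neg_one_iff…`, `Nat.Prime.mod_four_ne_three_of_dvd…`), so `p ∣ b` and `p ∣ 7 n² + 1`: excluded by `Fam`.  `p = 2` does not divide `K1`, because `d² - d + 2 ≡ 4 (mod 16)`.
-/

set_option autoImplicit false

namespace Pool.Agent.H15.GP

open Finset

/-- The family of triples. -/
def Fam (r x y b : ℕ) : Prop :=
  Even x ∧ 2 ^ (18 * r) ≤ x ∧ x < 2 ^ (18 * r + 1) ∧ 0 < y ∧ y ≤ 2 ^ (9 * r) ∧ Nat.Coprime x y ∧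
  x ^ 2 + y ^ 2 ∣ 16 * b ^ 2 + 1 ∧ b % 2 = ((x ^ 2 + y ^ 2 - 1) / 4) % 2 ∧
  2 ^ (38 * r + 4) ≤ b ∧ b < 2 ^ (38 * r + 5) ∧
  ∀ p : ℕ, p.Prime → p % 4 = 3 → p ∣ b → ¬ p ∣ 7 * (x ^ 2 + y ^ 2) ^ 2 + 1

/-- The number `d` of a triple. -/
def fd (x y b : ℕ) : ℕ := ((16 * b ^ 2 + 1) / (x ^ 2 + y ^ 2) + 2 - 7 * (x ^ 2 + y ^ 2)) / 4

theorem fam_n {r x y b : ℕ} (hr : 1 ≤ r) (h : Fam r x y b) :
    (x ^ 2 + y ^ 2) % 4 = 1 ∧ 2 ^ (36 * r) ≤ x ^ 2 + y ^ 2 ∧ x ^ 2 + y ^ 2 < 2 ^ (36 * r + 3) := by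
  obtain ⟨hx, h1, h2, hy, hy2, hco, -⟩ := h
  have hyodd : ¬ Even y := by
    intro hye
    have h3 : 2 ∣ Nat.gcd x y := Nat.dvd_gcd hx.two_dvd hye.two_dvd
    rw [hco] at h3
    omega
  obtain ⟨a, ha⟩ := hx
  obtain ⟨c, hc⟩ := Nat.not_even_iff_odd.1 hyodd
  refine ⟨?_, ?_, ?_⟩
  · have e1 : x ^ 2 + y ^ 2 = 4 * (a ^ 2 + c ^ 2 + c) + 1 := by
      rw [ha, hc]
      ring
    omega
  · have e1 : 2 ^ (36 * r) = (2 ^ (18 * r)) ^ 2 := by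
      rw [← pow_mul]
      congr 1
      ring
    have e2 : (2 ^ (18 * r)) ^ 2 ≤ x ^ 2 := Nat.pow_le_pow_left h1 2
    omega
  · have e1 : 2 ^ (36 * r + 2) = (2 ^ (18 * r + 1)) ^ 2 := by
      rw [← pow_mul]
      congr 1
      ring
    have e2 : x ^ 2 < (2 ^ (18 * r + 1)) ^ 2 := Nat.pow_lt_pow_left h2 (by norm_num)
    have e3 : y ^ 2 ≤ (2 ^ (9 * r)) ^ 2 := Nat.pow_le_pow_left hy2 2
    have e4 : (2 ^ (9 * r)) ^ 2 ≤ 2 ^ (36 * r + 2) := by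
      rw [← pow_mul]
      exact Nat.pow_le_pow_right (by norm_num) (by omega)
    have e5 : 2 ^ (36 * r + 3) = 2 * 2 ^ (36 * r + 2) := by
      rw [show 36 * r + 3 = 36 * r + 2 + 1 by ring, pow_succ]
      ring
    omega

/-- the congruence modulo 64 -/
theorem fam_mod (n b h : ℕ) (hn : n % 4 = 1) (hb : b % 2 = ((n - 1) / 4) % 2) (hh : n * h = 16 * b ^ 2 + 1) :
    (64 : ℤ) ∣ (h : ℤ) - (7 * n + 58) := by
  obtain ⟨m, hm⟩ : ∃ m, n = 4 * m + 1 := ⟨(n - 1) / 4, by omega⟩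
  have hm2 : (n - 1) / 4 = m := by omega
  rw [hm2] at hb
  have h1 : (64 : ℤ) ∣ (n : ℤ) * ((h : ℤ) - (7 * n + 58)) := by
    have e1 : (n : ℤ) * ((h : ℤ) - (7 * n + 58)) = 16 * (b : ℤ) ^ 2 + 1 - n * (7 * n + 58) := by
      have : (n : ℤ) * h = 16 * (b : ℤ) ^ 2 + 1 := by exact_mod_cast hh
      rw [mul_sub, this]
    rw [e1, hm]
    push_cast
    rcases Nat.mod_two_eq_zero_or_one m with hm0 | hm1
    · obtain ⟨m', hm'⟩ : ∃ m', m = 2 * m' := ⟨m / 2, by omega⟩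
      obtain ⟨b', hb'⟩ : ∃ b', b = 2 * b' := ⟨b / 2, by omega⟩
      rw [hm', hb']
      push_cast
      exact ⟨(b' : ℤ) ^ 2 - 7 * m' ^ 2 - 9 * m' - 1, by ring⟩
    · obtain ⟨m', hm'⟩ : ∃ m', m = 2 * m' + 1 := ⟨m / 2, by omega⟩
      obtain ⟨b', hb'⟩ : ∃ b', b = 2 * b' + 1 := ⟨b / 2, by omega⟩
      rw [hm', hb']
      push_cast
      exact ⟨(b' : ℤ) ^ 2 + b' - 7 * m' ^ 2 - 7 * m' - 9 * m' - 7, by ring⟩
  have h2 : IsCoprime (64 : ℤ) (n : ℤ) := by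
    rw [Int.isCoprime_iff_gcd_eq_one]
    have h3 : Nat.Coprime 64 n := by
      have : Nat.Coprime 2 n := Nat.coprime_two_left.2 (Nat.odd_iff.2 (by omega))
      exact Nat.Coprime.pow_left 6 this
    exact_mod_cast h3
  exact h2.dvd_of_dvd_mul_left h1

theorem fam_eq {r x y b : ℕ} (hr : 1 ≤ r) (h : Fam r x y b) :
    (x ^ 2 + y ^ 2) * ((16 * b ^ 2 + 1) / (x ^ 2 + y ^ 2)) = 16 * b ^ 2 + 1 ∧
    4 * fd x y b + 7 * (x ^ 2 + y ^ 2) = (16 * b ^ 2 + 1) / (x ^ 2 + y ^ 2) + 2 ∧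
    fd x y b % 16 = 15 ∧ 2 ^ (40 * r) ≤ fd x y b ∧ fd x y b < 2 ^ (40 * r + 13) := by
  obtain ⟨hn4, hn1, hn2⟩ := fam_n hr h
  obtain ⟨-, -, -, -, -, -, hdvd, hb2, hb3, hb4, -⟩ := h
  have hnh := Nat.mul_div_cancel' hdvd
  unfold fd
  set n := x ^ 2 + y ^ 2 with hn
  set h := (16 * b ^ 2 + 1) / n with hh
  have hmod := fam_mod n b h hn4 hb2 hnh
  -- sizes
  have hlow : 2 ^ (40 * r + 9) ≤ h := by
    by_contra hlt
    rw [not_le] at hlt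
    have e1 : n * h < 2 ^ (36 * r + 3) * 2 ^ (40 * r + 9) := by
      have h0 : 0 < n := lt_of_lt_of_le (by positivity) hn1
      calc n * h < n * 2 ^ (40 * r + 9) := Nat.mul_lt_mul_of_pos_left hlt h0
        _ ≤ 2 ^ (36 * r + 3) * 2 ^ (40 * r + 9) := Nat.mul_le_mul_right _ hn2.le
    have e2 : 2 ^ (36 * r + 3) * 2 ^ (40 * r + 9) = 16 * (2 ^ (38 * r + 4)) ^ 2 := by
      rw [← pow_add, ← pow_mul, show (16 : ℕ) = 2 ^ 4 by norm_num, ← pow_add]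
      congr 1
      ring
    have e3 : (2 ^ (38 * r + 4)) ^ 2 ≤ b ^ 2 := Nat.pow_le_pow_left hb3 2
    omega
  have hup : h ≤ 2 ^ (40 * r + 14) := by
    by_contra hlt
    rw [not_le] at hlt
    have e1 : 2 ^ (36 * r) * (2 ^ (40 * r + 14) + 1) ≤ n * h := Nat.mul_le_mul hn1 hlt
    have e2 : 2 ^ (36 * r) * 2 ^ (40 * r + 14) = 16 * (2 ^ (38 * r + 5)) ^ 2 := by
      rw [← pow_add, ← pow_mul, show (16 : ℕ) = 2 ^ 4 by norm_num, ← pow_add]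
      congr 1
      ring
    have e3 : (b + 1) ^ 2 ≤ (2 ^ (38 * r + 5)) ^ 2 := Nat.pow_le_pow_left hb4 2
    have e4 : 1 ≤ 2 ^ (36 * r) := Nat.one_le_two_pow
    have e5 : (b + 1) ^ 2 = b ^ 2 + 2 * b + 1 := by ring
    rw [mul_add, e2, mul_one] at e1
    omega
  have h7n : 7 * n < 2 ^ (40 * r + 5) := by
    have e1 : 2 ^ (36 * r + 3) ≤ 2 ^ (40 * r + 2) := Nat.pow_le_pow_right (by norm_num) (by omega)
    have e2 : 2 ^ (40 * r + 5) = 8 * 2 ^ (40 * r + 2) := by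
      rw [show 40 * r + 5 = 40 * r + 2 + 3 by ring, pow_add]
      ring
    omega
  have p9 : 2 ^ (40 * r + 9) = 512 * 2 ^ (40 * r) := by rw [pow_add]; ring
  have p14 : 2 ^ (40 * r + 14) = 16384 * 2 ^ (40 * r) := by rw [pow_add]; ring
  have p5 : 2 ^ (40 * r + 5) = 32 * 2 ^ (40 * r) := by rw [pow_add]; ring
  have p13 : 2 ^ (40 * r + 13) = 8192 * 2 ^ (40 * r) := by rw [pow_add]; ring
  have p0 : 1 ≤ 2 ^ (40 * r) := Nat.one_le_two_pow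
  rw [p9] at hlow
  rw [p14] at hup
  rw [p5] at h7n
  rw [p13]
  refine ⟨hnh, ?_, ?_, ?_, ?_⟩
  · omega
  · omega
  · omega
  · omega

theorem fam_goodp {r x y b : ℕ} (hr : 1 ≤ r) (h : Fam r x y b) : GoodP (fd x y b) := by
  obtain ⟨hn4, hn1, hn2⟩ := fam_n hr h
  obtain ⟨hnh, h4d, hd16, hdlow, -⟩ := fam_eq hr h
  obtain ⟨-, -, -, -, -, -, -, -, -, -, hlast⟩ := h
  set n := x ^ 2 + y ^ 2 with hn
  set d := fd x y b with hd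
  set h := (16 * b ^ 2 + 1) / n with hh
  refine ⟨hd16, fun p hp hpd => ?_⟩
  have hd2 : 2 ≤ d := by omega
  have hd1 : d ≤ d ^ 2 := Nat.le_self_pow (by norm_num) d
  -- `4 K1 = d^2 - d + 2`
  have hK : 4 * ((d ^ 2 - d + 2) / 4) + d = d ^ 2 + 2 := by
    obtain ⟨j, hj⟩ : ∃ j, d = 16 * j + 15 := ⟨d / 16, by omega⟩
    have e1 : d ^ 2 = 256 * j ^ 2 + 480 * j + 225 := by
      rw [hj]
      ring
    omega
  have hodd : ((d ^ 2 - d + 2) / 4) % 2 = 1 := by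
    obtain ⟨j, hj⟩ : ∃ j, d = 16 * j + 15 := ⟨d / 16, by omega⟩
    have e1 : d ^ 2 = 256 * j ^ 2 + 480 * j + 225 := by
      rw [hj]
      ring
    omega
  set K1 := (d ^ 2 - d + 2) / 4 with hK1
  have hp2 : p ≠ 2 := by
    rintro rfl
    omega
  have hpodd : p % 2 = 1 := hp.eq_two_or_odd.resolve_left hp2
  by_contra hp1
  have hp3 : p % 4 = 3 := by omega
  have : Fact p.Prime := ⟨hp⟩
  -- the identity
  have hid : (64 : ℤ) * n ^ 2 * K1 = (16 * (b : ℤ) ^ 2 - 7 * n ^ 2 - 1) ^ 2 + (8 * b) ^ 2 := by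
    have z1 : (n : ℤ) * h = 16 * (b : ℤ) ^ 2 + 1 := by exact_mod_cast hnh
    have z2 : 4 * (d : ℤ) + 7 * n = h + 2 := by exact_mod_cast h4d
    have z3 : 4 * (K1 : ℤ) + d = d ^ 2 + 2 := by exact_mod_cast hK
    have z4 : (h : ℤ) = 4 * d + 7 * n - 2 := by linarith
    have z5 : 16 * (4 * (K1 : ℤ)) = (h - 7 * n) ^ 2 + 28 := by
      have : 4 * (K1 : ℤ) = d ^ 2 - d + 2 := by linarith
      rw [this, z4]
      ring
    have z6 : (64 : ℤ) * n ^ 2 * K1 = (n * h - 7 * n ^ 2) ^ 2 + 28 * n ^ 2 := by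
      have : (64 : ℤ) * n ^ 2 * K1 = n ^ 2 * (16 * (4 * (K1 : ℤ))) := by ring
      rw [this, z5]
      ring
    rw [z6, z1]
    ring
  have hz : ((16 * (b : ℤ) ^ 2 - 7 * n ^ 2 - 1 : ℤ) : ZMod p) ^ 2 = -((8 * b : ℤ) : ZMod p) ^ 2 := by
    have h1 : (((64 : ℤ) * n ^ 2 * K1 : ℤ) : ZMod p) = 0 := by
      rw [ZMod.intCast_zmod_eq_zero_iff_dvd]
      exact Dvd.dvd.mul_left (by exact_mod_cast hpd) _
    rw [hid] at h1
    push_cast at h1 ⊢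
    linear_combination h1
  have hv : ((8 * b : ℤ) : ZMod p) = 0 := by
    by_contra hne
    exact ZMod.mod_four_ne_three_of_sq_eq_neg_sq' hne hz hp3
  have hpb : p ∣ b := by
    have h1 : (p : ℤ) ∣ 8 * (b : ℤ) := (ZMod.intCast_zmod_eq_zero_iff_dvd _ _).1 hv
    have h2 : p ∣ 8 * b := by exact_mod_cast h1
    have h3 : Nat.Coprime p 8 := by
      have : Nat.Coprime p 2 := Nat.coprime_two_right.2 (Nat.odd_iff.2 hpodd)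
      exact Nat.Coprime.pow_right 3 this
    exact h3.dvd_of_dvd_mul_left h2
  apply hlast p hp hp3 hpb
  have hu : ((16 * (b : ℤ) ^ 2 - 7 * n ^ 2 - 1 : ℤ) : ZMod p) = 0 := by
    rw [hv] at hz
    have : ((16 * (b : ℤ) ^ 2 - 7 * n ^ 2 - 1 : ℤ) : ZMod p) ^ 2 = 0 := by
      rw [hz]
      ring
    exact pow_eq_zero_iff (two_ne_zero) |>.1 this
  have h1 : (p : ℤ) ∣ 16 * (b : ℤ) ^ 2 - 7 * n ^ 2 - 1 := (ZMod.intCast_zmod_eq_zero_iff_dvd _ _).1 hu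
  have h2 : (p : ℤ) ∣ 16 * (b : ℤ) ^ 2 := Dvd.dvd.mul_left (Dvd.dvd.pow (by exact_mod_cast hpb) two_ne_zero) _
  have h3 : (p : ℤ) ∣ 7 * (n : ℤ) ^ 2 + 1 := by
    have h4 := dvd_sub h2 h1
    have h5 : 16 * (b : ℤ) ^ 2 - (16 * (b : ℤ) ^ 2 - 7 * (n : ℤ) ^ 2 - 1) = 7 * (n : ℤ) ^ 2 + 1 := by ring
    rw [h5] at h4
    exact h4
  exact_mod_cast h3

end Pool.Agent.H15.GP
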