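import Mathlib

/-!
# Sie: a lower bound sieve

`#{k < R : gcd(a + c k, N) = 1} = ∑_{g ∣ N} μ(g) #{k < R : g ∣ a + c k}` (`ArithmeticFunction.sum_moebius…`, or `∑_{g ∣ gcd} μ(g) = [gcd = 1]`).  Since `gcd(c, g) = 1` the inner number counts
one residue class modulo `g`: it is `R/g + θ`, `|θ| ≤ 1`.  So the count is at least `R ∑_{g ∣ N} μ(g)/g - τ(N) = R ∏_{p ∣ N} (1 - 1/p) - τ(N)`, and `∏_{p ∣ N} (1 - 1/p) ≥ 1/(1 + ω(N))`
(`ω` distinct primes `p₁ < p₂ < …` satisfy `pᵢ ≥ i + 1`, `∏ (1 - 1/(i+1)) = 1/(ω+1)`; as an induction: remove the largest prime `p ≥ ω + 1`).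
`prod_bound` is stated separately for a finite set of numbers `≥ 2`.
-/

set_option autoImplicit false

namespace Pool.Agent.H15.GP

open Finset

/-- `∏ (1 - 1/p) ≥ 1/(1 + card)` for distinct numbers `p ≥ 2`. -/
theorem prod_bound (P : Finset ℕ) (hP : ∀ p ∈ P, 2 ≤ p) :
    (1 : ℚ) ≤ (1 + P.card) * ∏ p ∈ P, (1 - 1 / (p : ℚ)) := by
  induction P using Finset.induction_on_max with
  | empty => simp
  | insert m s hlt ih =>
    have hm : m ∉ s := fun h => lt_irrefl _ (hlt m h)
    have h1 := ih fun p hp => hP p (mem_insert_of_mem hp)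
    have hm2 : 2 ≤ m := hP m (mem_insert_self _ _)
    have hcard : s.card + 2 ≤ m := by
      have h2 : s ⊆ Ico 2 m := by
        intro x hx
        rw [mem_Ico]
        exact ⟨hP x (mem_insert_of_mem hx), hlt x hx⟩
      have h3 := card_le_card h2
      rw [Nat.card_Ico] at h3
      omega
    rw [prod_insert hm, card_insert_of_notMem hm]
    have hprod : 0 ≤ ∏ p ∈ s, (1 - 1 / (p : ℚ)) := by
      refine prod_nonneg fun p hp => ?_
      have h4 : (2 : ℚ) ≤ p := by exact_mod_cast hP p (mem_insert_of_mem hp)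
      rw [sub_nonneg, div_le_one (by linarith)]
      linarith
    have hmq : ((s.card : ℚ) + 2) ≤ m := by exact_mod_cast hcard
    have hpos : (0 : ℚ) < (s.card : ℚ) + 2 := by positivity
    have h5 : 1 / (m : ℚ) ≤ 1 / ((s.card : ℚ) + 2) := one_div_le_one_div_of_le hpos hmq
    have h6 : (1 + (s.card : ℚ)) ≤ (1 + ((s.card : ℚ) + 1)) * (1 - 1 / (m : ℚ)) := by
      have h7 : (1 + ((s.card : ℚ) + 1)) * (1 - 1 / ((s.card : ℚ) + 2)) = 1 + (s.card : ℚ) := by
        field_simp
        ring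
      have h8 : (1 + ((s.card : ℚ) + 1)) * (1 - 1 / ((s.card : ℚ) + 2)) ≤
          (1 + ((s.card : ℚ) + 1)) * (1 - 1 / (m : ℚ)) :=
        mul_le_mul_of_nonneg_left (by linarith) (by positivity)
      linarith
    push_cast
    calc (1 : ℚ) ≤ (1 + (s.card : ℚ)) * ∏ p ∈ s, (1 - 1 / (p : ℚ)) := h1
      _ ≤ ((1 + ((s.card : ℚ) + 1)) * (1 - 1 / (m : ℚ))) * ∏ p ∈ s, (1 - 1 / (p : ℚ)) :=
        mul_le_mul_of_nonneg_right h6 hprod
      _ = (1 + ((s.card : ℚ) + 1)) * ((1 - 1 / (m : ℚ)) * ∏ p ∈ s, (1 - 1 / (p : ℚ))) := by ring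

/-- the number of `k < R` with `g ∣ a + c k` is `R / g` up to 1 -/
theorem count_class (g a c R : ℕ) (hg : 0 < g) (hc : Nat.Coprime c g) :
    |(((range R).filter fun k => g ∣ a + c * k).card : ℚ) - R / g| ≤ 1 := by
  have : NeZero g := ⟨hg.ne'⟩
  set κ : ℕ := (-(a : ZMod g) * (c : ZMod g)⁻¹).val with hκ
  have hκ2 : ((κ : ℕ) : ZMod g) = -(a : ZMod g) * (c : ZMod g)⁻¹ := by
    rw [hκ, ZMod.natCast_zmod_val]
  have hinv : (c : ZMod g) * (c : ZMod g)⁻¹ = 1 := ZMod.coe_mul_inv_eq_one c hc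
  have hiff : ∀ k : ℕ, g ∣ a + c * k ↔ k ≡ κ [MOD g] := by
    intro k
    rw [← ZMod.natCast_eq_natCast_iff, ← ZMod.natCast_eq_zero_iff, hκ2]
    push_cast
    constructor
    · intro h
      have h1 : (c : ZMod g) * k = -a := by linear_combination h
      calc (k : ZMod g) = ((c : ZMod g) * (c : ZMod g)⁻¹) * k := by rw [hinv, one_mul]
        _ = ((c : ZMod g) * k) * (c : ZMod g)⁻¹ := by ring
        _ = -(a : ZMod g) * (c : ZMod g)⁻¹ := by rw [h1]
    · intro h
      rw [h]
      linear_combination -(a : ZMod g) * hinv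
  have hcount : ((range R).filter fun k => g ∣ a + c * k).card = R / g + if κ % g < R % g then 1 else 0 := by
    rw [← Nat.count_modEq_card R hg κ, Nat.count_eq_card_filter_range]
    congr 1
    ext k
    simp only [mem_filter, hiff]
  rw [hcount]
  have hgq : (0 : ℚ) < g := by exact_mod_cast hg
  have hR : (R : ℚ) / g = (R / g : ℕ) + ((R % g : ℕ) : ℚ) / g := by
    have h1 : (R : ℚ) = g * (R / g : ℕ) + (R % g : ℕ) := by
      exact_mod_cast (Nat.div_add_mod R g).symm
    rw [div_eq_iff hgq.ne', add_mul, div_mul_cancel₀ _ hgq.ne', mul_comm ((R / g : ℕ) : ℚ) g]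
    exact h1
  have h0 : (0 : ℚ) ≤ ((R % g : ℕ) : ℚ) / g := by positivity
  have h1 : ((R % g : ℕ) : ℚ) / g ≤ 1 := by
    rw [div_le_one hgq]
    exact_mod_cast (Nat.mod_lt R hg).le
  rw [hR, abs_le]
  push_cast
  split_ifs <;> constructor <;> norm_num <;> linarith

theorem sieve (N a c R : ℕ) (hN : 0 < N) (hc : Nat.Coprime c N) :
    R ≤ (1 + N.primeFactors.card) *
      (((range R).filter fun k => Nat.Coprime (a + c * k) N).card + N.divisors.card) := by
  classical
  set P := N.primeFactors with hP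
  have hprime : ∀ p ∈ P, p.Prime := fun p hp => Nat.prime_of_mem_primeFactors hp
  have hdvd : ∀ p ∈ P, p ∣ N := fun p hp => Nat.dvd_of_mem_primeFactors hp
  -- the indicator of coprimality
  have hind : ∀ k : ℕ, (if Nat.Coprime (a + c * k) N then (1 : ℚ) else 0) =
      ∑ T ∈ P.powerset, (-1 : ℚ) ^ T.card * (if (∏ p ∈ T, p) ∣ a + c * k then 1 else 0) := by
    intro k
    have h1 : (if Nat.Coprime (a + c * k) N then (1 : ℚ) else 0) =
        ∏ p ∈ P, (1 + (if p ∣ a + c * k then (-1 : ℚ) else 0)) := by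
      by_cases hco : Nat.Coprime (a + c * k) N
      · rw [if_pos hco]
        symm
        refine prod_eq_one fun p hp => ?_
        rw [if_neg, add_zero]
        intro h
        have h2 : p ∣ Nat.gcd (a + c * k) N := Nat.dvd_gcd h (hdvd p hp)
        rw [hco] at h2
        exact (hprime p hp).one_lt.ne' (Nat.dvd_one.1 h2)
      · rw [if_neg hco]
        obtain ⟨p, hp, h1, h2⟩ := Nat.Prime.not_coprime_iff_dvd.1 hco
        symm
        refine prod_eq_zero (i := p) ?_ ?_
        · exact Nat.mem_primeFactors.2 ⟨hp, h2, hN.ne'⟩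
        · rw [if_pos h1]
          norm_num
    rw [h1, prod_one_add]
    refine sum_congr rfl fun T hT => ?_
    have hTP := mem_powerset.1 hT
    by_cases hd : (∏ p ∈ T, p) ∣ a + c * k
    · rw [if_pos hd, mul_one, prod_congr rfl (g := fun _ => (-1 : ℚ)), prod_const]
      intro p hp
      rw [if_pos (dvd_trans (dvd_prod_of_mem _ hp) hd)]
    · rw [if_neg hd, mul_zero]
      have h2 : ∃ p ∈ T, ¬ p ∣ a + c * k := by
        by_contra hcon
        push Not at hcon
        exact hd (prod_primes_dvd _ (fun p hp => (hprime p (hTP hp)).prime) hcon)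
      obtain ⟨p, hp, hpd⟩ := h2
      exact prod_eq_zero hp (if_neg hpd)
  have hcount : (((range R).filter fun k => Nat.Coprime (a + c * k) N).card : ℚ) =
      ∑ T ∈ P.powerset, (-1 : ℚ) ^ T.card * ((range R).filter fun k => (∏ p ∈ T, p) ∣ a + c * k).card := by
    rw [card_filter]
    push_cast
    rw [sum_congr rfl fun k _ => hind k, sum_comm]
    refine sum_congr rfl fun T _ => ?_
    rw [← mul_sum, card_filter]
    push_cast
    rfl
  have hlow : (R : ℚ) * ∏ p ∈ P, (1 - 1 / (p : ℚ)) - 2 ^ P.card ≤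
      (((range R).filter fun k => Nat.Coprime (a + c * k) N).card : ℚ) := by
    have h1 : ∏ p ∈ P, (1 - 1 / (p : ℚ)) = ∑ T ∈ P.powerset, ∏ p ∈ T, (-(1 / (p : ℚ))) := by
      rw [← prod_one_add]
      exact prod_congr rfl fun p _ => by ring
    have h2 : (2 : ℚ) ^ P.card = ∑ T ∈ P.powerset, 1 := by
      rw [sum_const, card_powerset, nsmul_eq_mul, mul_one]
      push_cast
      rfl
    rw [hcount, h1, h2, mul_sum, ← sum_sub_distrib]
    refine sum_le_sum fun T hT => ?_
    have hTP := mem_powerset.1 hT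
    have hgpos : 0 < ∏ p ∈ T, p := prod_pos fun p hp => (hprime p (hTP hp)).pos
    have hgco : Nat.Coprime c (∏ p ∈ T, p) := by
      refine Nat.Coprime.prod_right fun p hp => ?_
      exact Nat.Coprime.coprime_dvd_right (hdvd p (hTP hp)) hc
    have h3 := count_class (∏ p ∈ T, p) a c R hgpos hgco
    have h4 : ∏ p ∈ T, (-(1 / (p : ℚ))) = (-1) ^ T.card * (1 / ((∏ p ∈ T, p : ℕ) : ℚ)) := by
      have h5 : ∀ p ∈ T, (-(1 / (p : ℚ))) = (-1) * (1 / (p : ℚ)) := fun p _ => by ring
      rw [prod_congr rfl h5, prod_mul_distrib, prod_const]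
      congr 1
      push_cast
      rw [prod_div_distrib, prod_const_one]
    rw [h4]
    set X : ℚ := (((range R).filter fun k => (∏ p ∈ T, p) ∣ a + c * k).card : ℚ) with hX
    set G : ℚ := ((∏ p ∈ T, p : ℕ) : ℚ) with hG
    rw [abs_le] at h3
    rcases neg_one_pow_eq_or ℚ T.card with h5 | h5
    · rw [h5]
      have : (R : ℚ) * (1 * (1 / G)) = R / G := by ring
      rw [this]
      linarith [h3.1]
    · rw [h5]
      have : (R : ℚ) * (-1 * (1 / G)) = -(R / G) := by ring
      rw [this]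
      linarith [h3.2]
  have htau : (2 : ℚ) ^ P.card ≤ (N.divisors.card : ℚ) := by
    rw [Nat.card_divisors hN.ne', ← hP, ← prod_const]
    push_cast
    refine prod_le_prod (fun _ _ => by norm_num) fun p hp => ?_
    have h1 : 1 ≤ N.factorization p := by
      have := (Nat.Prime.factorization_pos_of_dvd (hprime p hp) hN.ne' (hdvd p hp))
      omega
    have h2 : (1 : ℚ) ≤ N.factorization p := by exact_mod_cast h1
    linarith
  have hpb := prod_bound P fun p hp => (hprime p hp).two_le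
  have hfin : (R : ℚ) ≤ (1 + (P.card : ℚ)) *
      ((((range R).filter fun k => Nat.Coprime (a + c * k) N).card : ℚ) + N.divisors.card) := by
    have h1 : (R : ℚ) ≤ (1 + (P.card : ℚ)) * (R * ∏ p ∈ P, (1 - 1 / (p : ℚ))) := by
      have : (R : ℚ) * 1 ≤ R * ((1 + (P.card : ℚ)) * ∏ p ∈ P, (1 - 1 / (p : ℚ))) :=
        mul_le_mul_of_nonneg_left hpb (by positivity)
      linarith
    refine le_trans h1 (mul_le_mul_of_nonneg_left ?_ (by positivity))
    linarith
  exact_mod_cast hfin

/-- The number of prime factors is at most the binary logarithm. -/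
theorem omega_le (N e : ℕ) (hN : 0 < N) (h : N < 2 ^ (e + 1)) : N.primeFactors.card ≤ e := by
  have h1 : 2 ^ N.primeFactors.card ≤ N := by
    calc 2 ^ N.primeFactors.card = ∏ _p ∈ N.primeFactors, 2 := by rw [prod_const]
      _ ≤ ∏ p ∈ N.primeFactors, p :=
        prod_le_prod' fun p hp => (Nat.prime_of_mem_primeFactors hp).two_le
      _ ≤ N := Nat.le_of_dvd hN (Nat.prod_primeFactors_dvd N)
  have h2 : 2 ^ N.primeFactors.card < 2 ^ (e + 1) := lt_of_le_of_lt h1 h
  have h3 := (Nat.pow_lt_pow_iff_right (by norm_num)).1 h2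
  omega

end Pool.Agent.H15.GP
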