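import Mathlib
import Pool.Agent.H15.GP.Fam
import Pool.Agent.H15.GP.Sie

/-!
# FamB: the number of `b` for given `x`, `y`, and the number of `y` for given `x`

`fam_b`: `n = x² + y²` is odd, prime to `4 y` (`y` is prime to `x`, so to `n`), `n < 2^(36r+3)`.  There is `β` with `n ∣ 4 β y - x`; then `16 β² y² ≡ x² ≡ - y² (mod n)`, so `n ∣ 16 β² + 1`.  Adding `n`
(odd) we may choose the parity: `b₀ ≡ β (mod n)`, `b₀ ≡ (n-1)/4 (mod 2)`, `2^(38r+4) ≤ b₀ < 2^(38r+4) + 2n`.  For `k < 2^(2r)`: `b = b₀ + 2 n k < 2^(38r+4) + 2 n 2^(2r) ≤ 2^(38r+5)`, because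
`2 n 2^(2r) ≤ 2^(38r+4)`, and `n ∣ 16 b² + 1`, `b ≡ b₀ (mod 2)`.  Let `N` be the odd part of `7 n² + 1` (`ordCompl[2]`; `N ≤ 7 n² + 1 < 2^(72r+10)`), prime to `2 n`.  `sieve` with `a = b₀`, `c = 2 n`,
`R = 2^(2r)`, `omega_le`: `2^(2r) ≤ (1 + (72 r + 9)) (count + t)`, and `2 (72 r + 11) t ≤ 2^(2r)` gives `2^(2r) ≤ 2 (72r + 11) count`.  The `b` with `gcd(b, N) = 1` are in `Fam r x y`: a prime
`p ≡ 3 (mod 4)` dividing `b` and `7 n² + 1` is odd, so it divides `N`.  `S` = image of the good `k` (injective).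
`fam_y`: `sieve` with `N = x`, `a = c = 1`, `R = 2^(9r)` (`y = 1 + k`), `omega_le x (18 r)`.
-/

set_option autoImplicit false

namespace Pool.Agent.H15.GP

open Finset

/-- size and residue of `n` -/
theorem n_bounds {r x y : ℕ} (hx : Even x) (h1 : 2 ^ (18 * r) ≤ x) (h2 : x < 2 ^ (18 * r + 1))
    (hy2 : y ≤ 2 ^ (9 * r)) (hco : Nat.Coprime x y) :
    (x ^ 2 + y ^ 2) % 4 = 1 ∧ 2 ^ (36 * r) ≤ x ^ 2 + y ^ 2 ∧ x ^ 2 + y ^ 2 < 2 ^ (36 * r + 3) := by
  have hyodd : ¬ Even y := by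
    intro hye
    have h3 : 2 ∣ Nat.gcd x y := Nat.dvd_gcd hx.two_dvd hye.two_dvd
    rw [hco] at h3
    omega
  obtain ⟨a, ha⟩ := hx
  obtain ⟨c, hc⟩ := Nat.not_even_iff_odd.1 hyodd
  refine ⟨?_, ?_, ?_⟩
  · have e1 : x ^ 2 + y ^ 2 = 4 * (a ^ 2 + c ^ 2 + c) + 1 := by
      rw [ha, hc]
      ring
    omega
  · have e1 : 2 ^ (36 * r) = (2 ^ (18 * r)) ^ 2 := by
      rw [← pow_mul]
      congr 1
      ring
    have e2 : (2 ^ (18 * r)) ^ 2 ≤ x ^ 2 := Nat.pow_le_pow_left h1 2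
    omega
  · have e1 : 2 ^ (36 * r + 2) = (2 ^ (18 * r + 1)) ^ 2 := by
      rw [← pow_mul]
      congr 1
      ring
    have e2 : x ^ 2 < (2 ^ (18 * r + 1)) ^ 2 := Nat.pow_lt_pow_left h2 (by norm_num)
    have e3 : y ^ 2 ≤ (2 ^ (9 * r)) ^ 2 := Nat.pow_le_pow_left hy2 2
    have e4 : (2 ^ (9 * r)) ^ 2 ≤ 2 ^ (36 * r + 2) := by
      rw [← pow_mul]
      exact Nat.pow_le_pow_right (by norm_num) (by omega)
    have e5 : 2 ^ (36 * r + 3) = 2 * 2 ^ (36 * r + 2) := by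
      rw [show 36 * r + 3 = 36 * r + 2 + 1 by ring, pow_succ]
      ring
    omega

/-- a square root of `-1/16` modulo `n = x² + y²` -/
theorem ex_beta {x y : ℕ} (hodd : (x ^ 2 + y ^ 2) % 2 = 1) (hco : Nat.Coprime x y) :
    ∃ β : ℕ, ∀ b : ℕ, b ≡ β [MOD x ^ 2 + y ^ 2] → x ^ 2 + y ^ 2 ∣ 16 * b ^ 2 + 1 := by
  set n := x ^ 2 + y ^ 2 with hn
  have hn0 : n ≠ 0 := by omega
  have : NeZero n := ⟨hn0⟩
  have hyn : Nat.Coprime y n := by
    rw [hn, sq y, Nat.coprime_add_mul_right_right]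
    exact (hco.symm).pow_right 2
  have h2n : Nat.Coprime 2 n := Nat.coprime_two_left.2 (Nat.odd_iff.2 hodd)
  have h4y : Nat.Coprime (4 * y) n := Nat.Coprime.mul_left (Nat.Coprime.pow_left 2 h2n) hyn
  have hinv : ((4 * y : ℕ) : ZMod n) * ((4 * y : ℕ) : ZMod n)⁻¹ = 1 := ZMod.coe_mul_inv_eq_one _ h4y
  have hyinv : ((y : ℕ) : ZMod n) * ((y : ℕ) : ZMod n)⁻¹ = 1 := ZMod.coe_mul_inv_eq_one _ hyn
  refine ⟨((x : ZMod n) * ((4 * y : ℕ) : ZMod n)⁻¹).val, fun b hb => ?_⟩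
  rw [← ZMod.natCast_eq_natCast_iff, ZMod.natCast_zmod_val] at hb
  have hxy : (x : ZMod n) ^ 2 + (y : ZMod n) ^ 2 = 0 := by
    have : ((x ^ 2 + y ^ 2 : ℕ) : ZMod n) = 0 := by
      rw [← hn]
      exact ZMod.natCast_self n
    push_cast at this
    exact this
  have h1 : 4 * (b : ZMod n) * y = x := by
    have h3 : ((4 * y : ℕ) : ZMod n) = 4 * (y : ZMod n) := by push_cast; ring
    rw [h3] at hb hinv
    calc 4 * (b : ZMod n) * y = b * (4 * (y : ZMod n)) := by ring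
      _ = (x * (4 * (y : ZMod n))⁻¹) * (4 * (y : ZMod n)) := by rw [hb]
      _ = x * ((4 * (y : ZMod n)) * (4 * (y : ZMod n))⁻¹) := by ring
      _ = x := by rw [hinv, mul_one]
  have h2 : (16 * (b : ZMod n) ^ 2 + 1) * (y : ZMod n) ^ 2 = 0 := by
    have : (16 * (b : ZMod n) ^ 2 + 1) * (y : ZMod n) ^ 2 = (4 * (b : ZMod n) * y) ^ 2 + (y : ZMod n) ^ 2 := by ring
    rw [this, h1, hxy]
  rw [← ZMod.natCast_eq_zero_iff]
  push_cast
  calc (16 * (b : ZMod n) ^ 2 + 1) = (16 * (b : ZMod n) ^ 2 + 1) * ((y : ZMod n) * (y : ZMod n)⁻¹) ^ 2 := by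
        rw [hyinv]; ring
    _ = ((16 * (b : ZMod n) ^ 2 + 1) * (y : ZMod n) ^ 2) * ((y : ZMod n)⁻¹) ^ 2 := by ring
    _ = 0 := by rw [h2, zero_mul]

theorem fam_b (r t x y : ℕ) (hr : 1 ≤ r) (ht : ∀ n : ℕ, 0 < n → n ≤ 2 ^ (72 * r + 10) → n.divisors.card ≤ t)
    (hx : Even x) (h1 : 2 ^ (18 * r) ≤ x) (h2 : x < 2 ^ (18 * r + 1)) (hy : 0 < y) (hy2 : y ≤ 2 ^ (9 * r))
    (hco : Nat.Coprime x y) (hlarge : 2 * (72 * r + 11) * t ≤ 2 ^ (2 * r)) :
    ∃ S : Finset ℕ, (∀ b ∈ S, Fam r x y b) ∧ 2 ^ (2 * r) ≤ 2 * (72 * r + 11) * S.card := by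
  classical
  obtain ⟨hn4, hn1, hn2⟩ := n_bounds hx h1 h2 hy2 hco
  obtain ⟨β, hβ⟩ := ex_beta (x := x) (y := y) (by omega) hco
  set n := x ^ 2 + y ^ 2 with hn
  have hn0 : 0 < n := by omega
  have hn2' : Nat.Coprime n 2 := Nat.coprime_two_right.2 (Nat.odd_iff.2 (by omega))
  obtain ⟨c0, hc1, hc2⟩ := Nat.chineseRemainder hn2' β ((n - 1) / 4)
  set c₀ := c0 % (2 * n) with hc₀
  have hc₀lt : c₀ < 2 * n := Nat.mod_lt _ (by omega)
  have hc₀n : c₀ ≡ β [MOD n] := by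
    have e1 : c₀ ≡ c0 [MOD 2 * n] := Nat.mod_modEq _ _
    exact (e1.of_mul_left 2).trans hc1
  have hc₀2 : c₀ ≡ (n - 1) / 4 [MOD 2] := by
    have e1 : c₀ ≡ c0 [MOD 2 * n] := Nat.mod_modEq _ _
    exact (e1.of_mul_right n).trans hc2
  set M := 2 ^ (38 * r + 4) with hM
  set q := (M + 2 * n - 1 - c₀) / (2 * n) with hq
  have hqdm : 2 * n * q + (M + 2 * n - 1 - c₀) % (2 * n) = M + 2 * n - 1 - c₀ := Nat.div_add_mod _ _
  have hqlt : (M + 2 * n - 1 - c₀) % (2 * n) < 2 * n := Nat.mod_lt _ (by omega)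
  set b₀ := c₀ + 2 * n * q with hb₀
  have hb12 : M ≤ b₀ ∧ b₀ < M + 2 * n := by
    rw [hb₀]
    generalize 2 * n * q = w at hqdm ⊢
    generalize (M + 2 * n - 1 - c₀) % (2 * n) = o at hqdm hqlt
    clear_value M c₀
    clear hq hM
    constructor <;> omega
  obtain ⟨hb1, hb2⟩ := hb12
  set N := (7 * n ^ 2 + 1) / 2 ^ (7 * n ^ 2 + 1).factorization 2 with hN
  have hN0 : 0 < N := Nat.ordCompl_pos 2 (by omega)
  have hNd : N ∣ 7 * n ^ 2 + 1 := Nat.ordCompl_dvd _ _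
  have hN2 : Nat.Coprime 2 N := Nat.coprime_ordCompl Nat.prime_two (by omega)
  have hNn : Nat.Coprime n N := by
    have e1 : Nat.Coprime n (7 * n ^ 2 + 1) := by
      have : 7 * n ^ 2 + 1 = 1 + (7 * n) * n := by ring
      rw [this, Nat.coprime_add_mul_right_right]
      exact Nat.coprime_one_right n
    exact Nat.Coprime.coprime_dvd_right hNd e1
  have hNc : Nat.Coprime (2 * n) N := Nat.Coprime.mul_left hN2 hNn
  have hNle : N < 2 ^ (72 * r + 9 + 1) := by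
    have e1 : N ≤ 7 * n ^ 2 + 1 := Nat.le_of_dvd (by omega) hNd
    have e2 : n ^ 2 < (2 ^ (36 * r + 3)) ^ 2 := Nat.pow_lt_pow_left hn2 (by norm_num)
    have e3 : (2 ^ (36 * r + 3)) ^ 2 = 2 ^ (72 * r + 6) := by
      rw [← pow_mul]
      congr 1
      ring
    have e4 : 2 ^ (72 * r + 9 + 1) = 16 * 2 ^ (72 * r + 6) := by
      rw [show 72 * r + 9 + 1 = 72 * r + 6 + 4 by ring, pow_add]
      ring
    omega
  have hsv := sieve N b₀ (2 * n) (2 ^ (2 * r)) hN0 hNc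
  have hom := omega_le N (72 * r + 9) hN0 hNle
  have htN := ht N hN0 (by
    have : 2 ^ (72 * r + 9 + 1) = 2 ^ (72 * r + 10) := by ring
    omega)
  set K := (range (2 ^ (2 * r))).filter fun k => Nat.Coprime (b₀ + 2 * n * k) N with hK
  refine ⟨K.image fun k => b₀ + 2 * n * k, ?_, ?_⟩
  · intro b hb
    rw [mem_image] at hb
    obtain ⟨k, hk, rfl⟩ := hb
    rw [hK, mem_filter, mem_range] at hk
    obtain ⟨hk1, hk2⟩ := hk
    have hbn : b₀ + 2 * n * k ≡ β [MOD n] := by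
      have e1 : b₀ + 2 * n * k = c₀ + n * (2 * q + 2 * k) := by
        rw [hb₀]
        ring
      rw [e1]
      have e2 : c₀ + n * (2 * q + 2 * k) ≡ c₀ [MOD n] := by
        unfold Nat.ModEq
        rw [Nat.add_mul_mod_self_left]
      exact e2.trans hc₀n
    have hb2' : (b₀ + 2 * n * k) % 2 = ((n - 1) / 4) % 2 := by
      have e1 : b₀ + 2 * n * k = c₀ + 2 * (n * q + n * k) := by
        rw [hb₀]
        ring
      rw [e1, Nat.add_mul_mod_self_left]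
      exact hc₀2
    have hkup : 2 * n * (k + 1) ≤ M := by
      calc 2 * n * (k + 1) ≤ 2 * 2 ^ (36 * r + 3) * 2 ^ (2 * r) :=
            Nat.mul_le_mul (Nat.mul_le_mul_left 2 hn2.le) hk1
        _ = M := by
            rw [hM, ← pow_succ', ← pow_add]
            congr 1
            ring
    refine ⟨hx, h1, h2, hy, hy2, hco, hβ _ hbn, hb2', ?_, ?_, ?_⟩
    · rw [← hM]
      omega
    · have e1 : 2 ^ (38 * r + 5) = 2 * M := by
        rw [hM, ← pow_succ']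
      have e2 : 2 * n * (k + 1) = 2 * n * k + 2 * n := by ring
      omega
    · intro p hp hp3 hpb hpn
      have hp2 : ¬ 2 ∣ p := by
        intro h
        omega
      have e1 : p ∣ N := by
        have hpp : ¬ p ∣ 2 := by
          intro h
          have := (Nat.prime_dvd_prime_iff_eq hp Nat.prime_two).1 h
          omega
        exact Nat.dvd_ordCompl_of_dvd_not_dvd hpn hp2
      have e2 : p ∣ Nat.gcd (b₀ + 2 * n * k) N := Nat.dvd_gcd hpb e1
      rw [hk2] at e2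
      exact hp.one_lt.ne' (Nat.dvd_one.1 e2)
  · rw [card_image_of_injective _ (by
      intro k k' h
      have h' : 2 * n * k = 2 * n * k' := by
        have : b₀ + 2 * n * k = b₀ + 2 * n * k' := h
        omega
      exact Nat.eq_of_mul_eq_mul_left (by omega) h')]
    have e1 : (1 + N.primeFactors.card) * (K.card + N.divisors.card) ≤ (72 * r + 11) * (K.card + t) :=
      Nat.mul_le_mul (by omega) (by omega)
    have e2 : 2 ^ (2 * r) ≤ (72 * r + 11) * (K.card + t) := le_trans hsv e1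
    have e3 : (72 * r + 11) * (K.card + t) = (72 * r + 11) * K.card + (72 * r + 11) * t := by ring
    have e4 : 2 * (72 * r + 11) * K.card = 2 * ((72 * r + 11) * K.card) := by ring
    have e5 : 2 * (72 * r + 11) * t = 2 * ((72 * r + 11) * t) := by ring
    omega

theorem fam_y (r t x : ℕ) (hr : 1 ≤ r) (ht : ∀ n : ℕ, 0 < n → n ≤ 2 ^ (72 * r + 10) → n.divisors.card ≤ t)
    (h1 : 0 < x) (h2 : x < 2 ^ (18 * r + 1)) (hlarge : 2 * (72 * r + 11) * t ≤ 2 ^ (2 * r)) :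
    2 ^ (9 * r) ≤ 2 * (18 * r + 2) * ((Icc 1 (2 ^ (9 * r))).filter fun y => Nat.Coprime x y).card := by
  classical
  have hsv := sieve x 1 1 (2 ^ (9 * r)) h1 (Nat.coprime_one_left x)
  have hom := omega_le x (18 * r) h1 h2
  have htx := ht x h1 (by
    have : 2 ^ (18 * r + 1) ≤ 2 ^ (72 * r + 10) := Nat.pow_le_pow_right (by norm_num) (by omega)
    omega)
  have hcard : ((range (2 ^ (9 * r))).filter fun k => Nat.Coprime (1 + 1 * k) x).card =
      ((Icc 1 (2 ^ (9 * r))).filter fun y => Nat.Coprime x y).card := by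
    refine card_bij (fun k _ => 1 + k) ?_ ?_ ?_
    · intro k hk
      rw [mem_filter, mem_range, one_mul] at hk
      rw [mem_filter, mem_Icc]
      exact ⟨⟨by omega, by omega⟩, hk.2.symm⟩
    · intro k _ k' _ h
      omega
    · intro y hy
      rw [mem_filter, mem_Icc] at hy
      refine ⟨y - 1, ?_, by omega⟩
      rw [mem_filter, mem_range, one_mul]
      refine ⟨by omega, ?_⟩
      rw [show 1 + (y - 1) = y by omega]
      exact hy.2.symm
  rw [hcard] at hsv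
  set K := ((Icc 1 (2 ^ (9 * r))).filter fun y => Nat.Coprime x y).card with hK
  have e1 : (1 + x.primeFactors.card) * (K + x.divisors.card) ≤ (18 * r + 2) * (K + t) :=
    Nat.mul_le_mul (by omega) (by omega)
  have e2 : 2 ^ (9 * r) ≤ (18 * r + 2) * (K + t) := le_trans hsv e1
  have e3 : (18 * r + 2) * (K + t) = (18 * r + 2) * K + (18 * r + 2) * t := by ring
  have e4 : 2 * (18 * r + 2) * K = 2 * ((18 * r + 2) * K) := by ring
  have e5 : 2 * ((18 * r + 2) * t) ≤ 2 ^ (9 * r) := by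
    calc 2 * ((18 * r + 2) * t) = 2 * (18 * r + 2) * t := by ring
      _ ≤ 2 * (72 * r + 11) * t := Nat.mul_le_mul_right _ (by omega)
      _ ≤ 2 ^ (2 * r) := hlarge
      _ ≤ 2 ^ (9 * r) := Nat.pow_le_pow_right (by norm_num) (by omega)
  omega

end Pool.Agent.H15.GP
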