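import Mathlib
import Pool.Agent.H15.GP.FamB

/-!
# FamC: the size of the family

There are `2^(18r-1)` even `x` in `[2^(18r), 2^(18r+1))`; for each of them at least `2^(9r)/(2 (18r+2))` numbers `y` (`fam_y`), for each pair at least `2^(2r)/(2 (72r+11))` numbers `b` (`fam_b`).
`S` = the sigma set (`Finset.sigma`, or `biUnion` of images; cardinality by `Finset.card_sigma` / `Finset.card_biUnion`).
`4 (18r+2) (72r+11) |S| ≥ 2^(18r-1) 2^(9r) 2^(2r) = 2^(29r-1)`.
-/

set_option autoImplicit false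

namespace Pool.Agent.H15.GP

open Finset

theorem fam_count (r t : ℕ) (hr : 1 ≤ r) (ht : ∀ n : ℕ, 0 < n → n ≤ 2 ^ (72 * r + 10) → n.divisors.card ≤ t)
    (hlarge : 2 * (72 * r + 11) * t ≤ 2 ^ (2 * r)) :
    ∃ S : Finset (ℕ × ℕ × ℕ), (∀ p ∈ S, Fam r p.1 p.2.1 p.2.2) ∧
      2 ^ (29 * r) ≤ 8 * (18 * r + 2) * (72 * r + 11) * S.card := by
  classical
  -- the sets of `b`
  have hex : ∀ x y : ℕ, ∃ S : Finset ℕ, (Even x ∧ 2 ^ (18 * r) ≤ x ∧ x < 2 ^ (18 * r + 1) ∧ 0 < y ∧
      y ≤ 2 ^ (9 * r) ∧ Nat.Coprime x y) → (∀ b ∈ S, Fam r x y b) ∧ 2 ^ (2 * r) ≤ 2 * (72 * r + 11) * S.card := by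
    intro x y
    by_cases h : Even x ∧ 2 ^ (18 * r) ≤ x ∧ x < 2 ^ (18 * r + 1) ∧ 0 < y ∧ y ≤ 2 ^ (9 * r) ∧ Nat.Coprime x y
    · obtain ⟨h1, h2, h3, h4, h5, h6⟩ := h
      obtain ⟨S, hS⟩ := fam_b r t x y hr ht h1 h2 h3 h4 h5 h6 hlarge
      exact ⟨S, fun _ => hS⟩
    · exact ⟨∅, fun h' => absurd h' h⟩
  choose F hF using hex
  set X : Finset ℕ := (range (2 ^ (18 * r - 1))).image fun j => 2 ^ (18 * r) + 2 * j with hX
  have hXcard : X.card = 2 ^ (18 * r - 1) := by
    rw [hX, card_image_of_injective _ (by intro a b h; simpa using h), card_range]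
  have hpow : 2 ^ (18 * r) = 2 * 2 ^ (18 * r - 1) := by
    rw [← pow_succ']
    congr 1
    omega
  have hXmem : ∀ x ∈ X, Even x ∧ 2 ^ (18 * r) ≤ x ∧ x < 2 ^ (18 * r + 1) := by
    intro x hx
    rw [hX, mem_image] at hx
    obtain ⟨j, hj, rfl⟩ := hx
    rw [mem_range] at hj
    refine ⟨?_, by omega, ?_⟩
    · rw [hpow, ← mul_add]
      exact even_two_mul _
    · rw [pow_succ]
      omega
  let Y : ℕ → Finset ℕ := fun x => (Icc 1 (2 ^ (9 * r))).filter fun y => Nat.Coprime x y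
  let S : Finset (ℕ × ℕ × ℕ) := X.biUnion fun x => (Y x).biUnion fun y => (F x y).image fun b => (x, y, b)
  refine ⟨S, ?_, ?_⟩
  · intro p hp
    simp only [S, mem_biUnion, mem_image] at hp
    obtain ⟨x, hx, y, hy, b, hb, rfl⟩ := hp
    obtain ⟨h1, h2, h3⟩ := hXmem x hx
    simp only [Y, mem_filter, mem_Icc] at hy
    exact (hF x y ⟨h1, h2, h3, by omega, hy.1.2, hy.2⟩).1 b hb
  · have hcard : S.card = ∑ x ∈ X, ∑ y ∈ Y x, (F x y).card := by
      rw [card_biUnion]
      · refine sum_congr rfl fun x _ => ?_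
        rw [card_biUnion]
        · refine sum_congr rfl fun y _ => ?_
          rw [card_image_of_injective]
          intro b b' h
          simpa using h
        · intro y _ y' _ hne
          rw [Function.onFun, disjoint_left]
          intro p hp hp'
          rw [mem_image] at hp hp'
          obtain ⟨b, _, rfl⟩ := hp
          obtain ⟨b', _, h⟩ := hp'
          simp only [Prod.mk.injEq] at h
          exact hne h.2.1.symm
      · intro x _ x' _ hne
        rw [Function.onFun, disjoint_left]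
        intro p hp hp'
        rw [mem_biUnion] at hp hp'
        obtain ⟨y, _, hp⟩ := hp
        obtain ⟨y', _, hp'⟩ := hp'
        rw [mem_image] at hp hp'
        obtain ⟨b, _, rfl⟩ := hp
        obtain ⟨b', _, h⟩ := hp'
        simp only [Prod.mk.injEq] at h
        exact hne h.1.symm
    have h1 : ∀ x ∈ X, 2 ^ (11 * r) ≤ 4 * (18 * r + 2) * (72 * r + 11) * ∑ y ∈ Y x, (F x y).card := by
      intro x hx
      obtain ⟨e1, e2, e3⟩ := hXmem x hx
      have hpos : 0 < x := lt_of_lt_of_le (by positivity) e2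
      have h2 := fam_y r t x hr ht hpos e3 hlarge
      have h3 : (Y x).card * 2 ^ (2 * r) ≤ 2 * (72 * r + 11) * ∑ y ∈ Y x, (F x y).card := by
        rw [← smul_eq_mul, ← sum_const, mul_sum]
        refine sum_le_sum fun y hy => ?_
        simp only [Y, mem_filter, mem_Icc] at hy
        exact (hF x y ⟨e1, e2, e3, by omega, hy.1.2, hy.2⟩).2
      calc 2 ^ (11 * r) = 2 ^ (9 * r) * 2 ^ (2 * r) := by
            rw [← pow_add]
            congr 1
            ring
        _ ≤ (2 * (18 * r + 2) * (Y x).card) * 2 ^ (2 * r) := Nat.mul_le_mul_right _ h2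
        _ = 2 * (18 * r + 2) * ((Y x).card * 2 ^ (2 * r)) := by ring
        _ ≤ 2 * (18 * r + 2) * (2 * (72 * r + 11) * ∑ y ∈ Y x, (F x y).card) := Nat.mul_le_mul_left _ h3
        _ = 4 * (18 * r + 2) * (72 * r + 11) * ∑ y ∈ Y x, (F x y).card := by ring
    have h2 : X.card * 2 ^ (11 * r) ≤ 4 * (18 * r + 2) * (72 * r + 11) * S.card := by
      rw [hcard, mul_sum, ← smul_eq_mul, ← sum_const]
      exact sum_le_sum h1
    rw [hXcard] at h2
    calc 2 ^ (29 * r) = 2 * (2 ^ (18 * r - 1) * 2 ^ (11 * r)) := by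
          rw [← pow_add, ← pow_succ']
          congr 1
          omega
      _ ≤ 2 * (4 * (18 * r + 2) * (72 * r + 11) * S.card) := Nat.mul_le_mul_left _ h2
      _ = 8 * (18 * r + 2) * (72 * r + 11) * S.card := by ring

end Pool.Agent.H15.GP
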