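import Mathlib
import Pool.Agent.H15.GP.Fam

/-!
# Fib: few triples give the same `d`

For a triple with `fd = d`: `n = x² + y²`, `h = (16 b² + 1)/n`, `n h = 16 b² + 1`, `4 d + 7 n = h + 2` (`fam_eq`), so
`(h + 7 n)² = (h - 7 n)² + 28 h n = (4 d - 2)² + 28 (16 b² + 1) = 16 (d² - d + 2) + 7 (8 b)²`: `(h + 7n, 8b)` is a solution for `D = 7`, `N = 16 (d² - d + 2)`, with `0 < 8 b < 2^(38r+8)`.
`gcd(7, N) = 1`: otherwise `7 ∣ (d² - d + 2)/4` (`4 ∣ d² - d + 2`), but `GoodP d`.  `N ≤ 2^(80r+30)`.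
The map is injective: `h + 7 n` and `h - 7 n = 4 d - 2` determine `n`; `8 b` determines `b`; `n = x² + y²` with `0 < y ≤ 2^(9r)`, `y² ≤ 2^(18r) ≤ x`, so `x² < n < (x + 1)²` determines `x`, then `y`.
`pell_count` with exponent `38 r + 8`.  (If `S` is empty the statement is trivial.)
-/

set_option autoImplicit false

namespace Pool.Agent.H15.GP

open Finset

/-- `n = x² + y²` determines `x` and `y` -/
theorem sum_sq_inj (r x y x' y' : ℕ) (h1 : 2 ^ (18 * r) ≤ x) (h1' : 2 ^ (18 * r) ≤ x') (hy : 0 < y) (hy' : 0 < y')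
    (h2 : y ≤ 2 ^ (9 * r)) (h2' : y' ≤ 2 ^ (9 * r)) (h : x ^ 2 + y ^ 2 = x' ^ 2 + y' ^ 2) : x = x' ∧ y = y' := by
  have e1 : y ^ 2 ≤ 2 ^ (18 * r) := by
    calc y ^ 2 ≤ (2 ^ (9 * r)) ^ 2 := Nat.pow_le_pow_left h2 2
      _ = 2 ^ (18 * r) := by
          rw [← pow_mul]
          congr 1
          ring
  have e1' : y' ^ 2 ≤ 2 ^ (18 * r) := by
    calc y' ^ 2 ≤ (2 ^ (9 * r)) ^ 2 := Nat.pow_le_pow_left h2' 2
      _ = 2 ^ (18 * r) := by
          rw [← pow_mul]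
          congr 1
          ring
  have hxx : x = x' := by
    rcases lt_trichotomy x x' with hlt | heq | hlt
    · exfalso
      have h3 : (x + 1) ^ 2 ≤ x' ^ 2 := Nat.pow_le_pow_left hlt 2
      have h4 : (x + 1) ^ 2 = x ^ 2 + 2 * x + 1 := by ring
      omega
    · exact heq
    · exfalso
      have h3 : (x' + 1) ^ 2 ≤ x ^ 2 := Nat.pow_le_pow_left hlt 2
      have h4 : (x' + 1) ^ 2 = x' ^ 2 + 2 * x' + 1 := by ring
      omega
  refine ⟨hxx, ?_⟩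
  rw [hxx] at h
  have h5 : y ^ 2 = y' ^ 2 := by omega
  exact Nat.pow_left_injective (by norm_num) h5

theorem fam_fiber (r t d : ℕ) (hr : 1 ≤ r) (ht : ∀ n : ℕ, 0 < n → n ≤ 2 ^ (80 * r + 30) → n.divisors.card ≤ t)
    (S : Finset (ℕ × ℕ × ℕ)) (hS : ∀ p ∈ S, Fam r p.1 p.2.1 p.2.2 ∧ fd p.1 p.2.1 p.2.2 = d) :
    S.card ≤ 2 * t ^ 2 * (38 * r + 8) := by
  classical
  rcases S.eq_empty_or_nonempty with h0 | ⟨p₀, hp₀⟩
  · rw [h0]
    simp
  obtain ⟨hF₀, hd₀⟩ := hS p₀ hp₀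
  have hG := fam_goodp hr hF₀
  obtain ⟨_, _, _, _, hdlt⟩ := fam_eq hr hF₀
  rw [hd₀] at hG hdlt
  have hKeq := hG.eq
  have hd16 := hG.1
  have hd1 : d ≤ d ^ 2 := Nat.le_self_pow (by norm_num) d
  set N := 16 * (d ^ 2 - d + 2) with hN
  have hNpos : 0 < N := by omega
  have hco : Nat.Coprime 7 N := by
    rw [Nat.Prime.coprime_iff_not_dvd (by norm_num)]
    intro h7
    have h8 : 7 ∣ 64 * ((d ^ 2 - d + 2) / 4) := by
      have : 64 * ((d ^ 2 - d + 2) / 4) = N := by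
        rw [hN]
        omega
      rw [this]
      exact h7
    have h9 : 7 ∣ (d ^ 2 - d + 2) / 4 := (show Nat.Coprime 7 64 by norm_num).dvd_of_dvd_mul_left h8
    have := hG.2 7 (by norm_num) h9
    omega
  have hNle : N ≤ 2 ^ (80 * r + 30) := by
    have e1 : d ^ 2 ≤ (2 ^ (40 * r + 13)) ^ 2 := Nat.pow_le_pow_left hdlt.le 2
    have e2 : (2 ^ (40 * r + 13)) ^ 2 = 2 ^ (80 * r + 26) := by
      rw [← pow_mul]
      congr 1
      ring
    have e3 : 2 ^ (80 * r + 30) = 16 * 2 ^ (80 * r + 26) := by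
      rw [show 80 * r + 30 = 80 * r + 26 + 4 by ring, pow_add]
      ring
    omega
  have hdata : ∀ p ∈ S, ∃ n h : ℕ, n = p.1 ^ 2 + p.2.1 ^ 2 ∧ h = (16 * p.2.2 ^ 2 + 1) / n ∧
      n * h = 16 * p.2.2 ^ 2 + 1 ∧ 4 * d + 7 * n = h + 2 := by
    intro p hp
    obtain ⟨hF, hd⟩ := hS p hp
    obtain ⟨e1, e2, _⟩ := fam_eq hr hF
    rw [hd] at e2
    exact ⟨_, _, rfl, rfl, e1, e2⟩
  let φ : ℕ × ℕ × ℕ → ℕ × ℕ := fun p =>
    ((16 * p.2.2 ^ 2 + 1) / (p.1 ^ 2 + p.2.1 ^ 2) + 7 * (p.1 ^ 2 + p.2.1 ^ 2), 8 * p.2.2)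
  have hinj : Set.InjOn φ S := by
    intro p hp p' hp' heq
    rw [Finset.mem_coe] at hp hp'
    obtain ⟨n, h, hn, hh, e1, e2⟩ := hdata p hp
    obtain ⟨n', h', hn', hh', e1', e2'⟩ := hdata p' hp'
    simp only [φ, ← hn, ← hn', ← hh, ← hh', Prod.mk.injEq] at heq
    obtain ⟨f1, f2⟩ := heq
    have hb : p.2.2 = p'.2.2 := by omega
    have hnn : n = n' := by omega
    obtain ⟨a1, a2, a3, a4, a5, -⟩ := (hS p hp).1
    obtain ⟨b1, b2, b3, b4, b5, -⟩ := (hS p' hp').1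
    obtain ⟨g1, g2⟩ := sum_sq_inj r p.1 p.2.1 p'.1 p'.2.1 a2 b2 a4 b4 a5 b5 (by rw [← hn, ← hn', hnn])
    exact Prod.ext g1 (Prod.ext g2 hb)
  rw [← card_image_of_injOn hinj]
  have hpc := pell_count 7 N (38 * r + 8) (by norm_num) hNpos hco (S.image φ) (by
    intro q hq
    rw [mem_image] at hq
    obtain ⟨p, hp, rfl⟩ := hq
    obtain ⟨n, h, hn, hh, e1, e2⟩ := hdata p hp
    obtain ⟨-, -, -, -, -, -, -, -, b1, b2, -⟩ := (hS p hp).1
    simp only [φ, ← hn, ← hh]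
    refine ⟨?_, ?_, ?_⟩
    · have z1 : (n : ℤ) * h = 16 * (p.2.2 : ℤ) ^ 2 + 1 := by exact_mod_cast e1
      have z2 : 4 * (d : ℤ) + 7 * n = h + 2 := by exact_mod_cast e2
      have z3 : (N : ℤ) = 16 * ((d : ℤ) ^ 2 - d + 2) := by
        rw [hN]
        push_cast [Nat.cast_sub hd1]
        ring
      have z4 : ((h : ℤ) + 7 * n) ^ 2 = 7 * (8 * (p.2.2 : ℤ)) ^ 2 + N := by
        rw [z3]
        have z5 : (h : ℤ) = 4 * d + 7 * n - 2 := by linarith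
        rw [z5] at z1 ⊢
        linear_combination (28 : ℤ) * z1
      exact_mod_cast z4
    · have : 0 < 2 ^ (38 * r + 4) := by positivity
      omega
    · have : 2 ^ (38 * r + 8) = 8 * 2 ^ (38 * r + 5) := by
        rw [show 38 * r + 8 = 38 * r + 5 + 3 by ring, pow_add]
        ring
      omega)
  refine le_trans hpc (Nat.mul_le_mul_right _ (Nat.mul_le_mul_left _ (Nat.pow_le_pow_left (ht N hNpos hNle) 2)))

end Pool.Agent.H15.GP
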