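import Mathlib
import Pool.Agent.H15.GP.Defs

/-!
# GS: a connected regular graph gives a system

`G` connected, `d`-regular, `A = ` adjacency.  Call a pair of vertex sets `(S, T)` closed if `x ∈ S ↔ y ∈ T` for all adjacent `x, y` (ordered pairs).
Case 1: every closed pair with `S` or `T` nonempty is `(V, V)`.  Take `P = B = V`, `inc x y = G.Adj x y`.
Case 2: there is a closed `(S, T)`, `S` or `T` nonempty, not `(V, V)`.  `S ∩ T` and `S ∪ T` are closed under adjacency, so (connectivity) `S ∪ T = V` and `S ∩ T` is `∅` or `V`; it is not `V`.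
So `T` is the complement of `S`, every edge joins `S` and `T`; both are nonempty (`d > 0`).  Take `P = ↥S`, `B = ↥T`, `inc = Adj`.
`row`, `col`: all `d` neighbours of `x ∈ S` are in `T`.  `conn`: a closed pair `(S', T')` of the system gives the set `S' ∪ T' ⊆ V` closed under adjacency.
`psd`: extend `f` on `S` by zero to `V`: for `v ∈ S` the neighbours of `v` are in `T`, the inner sum is 0; `psd'` the same.
In case 1 `psd` and `psd'` are `hq` itself (`neighborFinset`).
-/

set_option autoImplicit false

namespace Pool.Agent.H15.GP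

open Finset

/-- a nonempty set closed under adjacency is everything -/
theorem closed_all {V : Type} {G : SimpleGraph V} (hconn : G.Connected) (S : Set V) (P : V) (hP : P ∈ S)
    (hS : ∀ p ∈ S, ∀ q, G.Adj p q → q ∈ S) (v : V) : v ∈ S := by
  obtain ⟨w⟩ := hconn.preconnected P v
  induction w with
  | nil => exact hP
  | cons h _ ih => exact ih (hS _ hP _ h)

open Classical in
theorem exists_sys {V : Type} [Fintype V] (G : SimpleGraph V) (d : ℕ) (hd : 0 < d) (hconn : G.Connected)
    (hreg : ∀ v, G.degree v = d)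
    (hq : ∀ f : V → ℤ, (100 * (d : ℤ) - 201) * ∑ v, f v ^ 2 ≤ 100 * ∑ v, (∑ w ∈ G.neighborFinset v, f w) ^ 2) :
    ∃ (P B : Type) (_ : Fintype P) (_ : Fintype B) (_ : Nonempty P), Nonempty (Sys P B d) := by
  have hnf : ∀ v, G.neighborFinset v = univ.filter fun w => G.Adj v w := fun v => G.neighborFinset_eq_filter
  have hdeg : ∀ v, (univ.filter fun w => G.Adj v w).card = d := by
    intro v
    rw [← hnf, SimpleGraph.card_neighborFinset_eq_degree, hreg]
  have hdeg' : ∀ v, (univ.filter fun w => G.Adj w v).card = d := by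
    intro v
    rw [← hdeg v]
    congr 1
    ext w
    simp only [mem_filter, mem_univ, true_and]
    exact G.adj_comm w v
  have hnbr : ∀ v, ∃ w, G.Adj v w := by
    intro v
    have h1 : 0 < (univ.filter fun w => G.Adj v w).card := by rw [hdeg]; exact hd
    obtain ⟨w, hw⟩ := card_pos.1 h1
    exact ⟨w, (mem_filter.1 hw).2⟩
  by_cases hcase : ∀ (S T : Set V), (S.Nonempty ∨ T.Nonempty) →
      (∀ x b, G.Adj x b → (x ∈ S ↔ b ∈ T)) → S = Set.univ ∧ T = Set.univ
  · -- not bipartite
    refine ⟨V, V, inferInstance, inferInstance, hconn.nonempty, ⟨?_⟩⟩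
    exact
      { inc := G.Adj
        row := fun x => by convert hdeg x
        col := fun b => by convert hdeg' b
        conn := hcase
        psd := fun f => by
          have h1 := hq f
          have h2 : ∀ v, ∑ w ∈ G.neighborFinset v, f w = ∑ x ∈ univ.filter (fun x => G.Adj x v), f x := by
            intro v
            refine sum_congr ?_ fun _ _ => rfl
            rw [hnf]
            ext w
            simp only [mem_filter, mem_univ, true_and]
            exact G.adj_comm v w
          have h3 : ∑ v, (∑ w ∈ G.neighborFinset v, f w) ^ 2 =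
              ∑ v, (∑ x ∈ univ.filter (fun x => G.Adj x v), f x) ^ 2 := sum_congr rfl fun v _ => by rw [h2 v]
          rw [h3] at h1
          convert h1
        psd' := fun f => by
          have h1 := hq f
          have h3 : ∑ v, (∑ w ∈ G.neighborFinset v, f w) ^ 2 =
              ∑ v, (∑ x ∈ univ.filter (fun x => G.Adj v x), f x) ^ 2 := sum_congr rfl fun v _ => by rw [hnf]
          rw [h3] at h1
          convert h1 }
  · -- bipartite
    push Not at hcase
    obtain ⟨S, T, hne, hST, hnot⟩ := hcase
    obtain ⟨v₀⟩ := hconn.nonempty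
    have hST' : ∀ x b, G.Adj x b → (x ∈ T ↔ b ∈ S) := by
      intro x b h
      exact (hST b x h.symm).symm
    have hunion : ∀ v, v ∈ S ∪ T := by
      have hne' : ∃ u, u ∈ S ∪ T := by
        rcases hne with ⟨u, hu⟩ | ⟨u, hu⟩
        · exact ⟨u, Or.inl hu⟩
        · exact ⟨u, Or.inr hu⟩
      obtain ⟨u, hu⟩ := hne'
      refine closed_all hconn (S ∪ T) u hu ?_
      rintro p (hp | hp) q hpq
      · exact Or.inr ((hST p q hpq).1 hp)
      · exact Or.inl ((hST' p q hpq).1 hp)
    have hinter : ∀ v, v ∈ S → v ∉ T := by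
      intro v hvS hvT
      have hall : ∀ w, w ∈ S ∩ T := by
        refine closed_all hconn (S ∩ T) v ⟨hvS, hvT⟩ ?_
        rintro p ⟨hpS, hpT⟩ q hpq
        exact ⟨(hST' p q hpq).1 hpT, (hST p q hpq).1 hpS⟩
      have h1 : S = Set.univ := Set.eq_univ_of_forall fun w => (hall w).1
      have h2 : T = Set.univ := Set.eq_univ_of_forall fun w => (hall w).2
      exact hnot h1 h2
    have hTS : ∀ v, v ∉ S → v ∈ T := fun v hv => (hunion v).resolve_left hv
    have hadjS : ∀ x y, G.Adj x y → x ∈ S → y ∈ T := fun x y h hx => (hST x y h).1 hx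
    have hadjT : ∀ x y, G.Adj x y → x ∈ T → y ∈ S := fun x y h hx => (hST' x y h).1 hx
    have hneS : Nonempty S := by
      rcases hne with ⟨u, hu⟩ | ⟨u, hu⟩
      · exact ⟨⟨u, hu⟩⟩
      · obtain ⟨w, hw⟩ := hnbr u
        exact ⟨⟨w, hadjT u w hw hu⟩⟩
    -- the quadratic form of a function on one side
    have hpsd : ∀ (A B : Set V), (∀ v, v ∈ A → v ∉ B) → (∀ v, v ∉ A → v ∈ B) →
        (∀ x y, G.Adj x y → x ∈ A → y ∈ B) → (∀ x y, G.Adj x y → x ∈ B → y ∈ A) → ∀ f : A → ℤ,
        (100 * (d : ℤ) - 201) * ∑ x, f x ^ 2 ≤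
          100 * ∑ b : B, (∑ x ∈ univ.filter (fun x : A => G.Adj x.1 b.1), f x) ^ 2 := by
      intro A B hAB hBA hadjA hadjB f
      set F : V → ℤ := fun v => if h : v ∈ A then f ⟨v, h⟩ else 0 with hF
      have hFA : ∀ x : A, F x.1 = f x := by
        intro x
        simp only [hF]
        rw [dif_pos x.2]
      have hF0 : ∀ v, v ∉ A → F v = 0 := by
        intro v hv
        simp only [hF]
        rw [dif_neg hv]
      have hsum : ∀ (X : Set V) (g : V → ℤ), (∀ v, v ∉ X → g v = 0) → ∑ v, g v = ∑ x : X, g x.1 := by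
        intro X g hg
        have e1 : ∑ v, g v = ∑ v ∈ univ.filter (fun v => v ∈ X), g v := by
          rw [sum_filter]
          refine sum_congr rfl fun v _ => ?_
          by_cases hv : v ∈ X
          · rw [if_pos hv]
          · rw [if_neg hv, hg v hv]
        rw [e1]
        exact (sum_subtype (univ.filter fun v => v ∈ X) (fun x => by simp) g)
      have h1 := hq F
      have h2 : ∑ v, F v ^ 2 = ∑ x, f x ^ 2 := by
        rw [hsum A (fun v => F v ^ 2) fun v hv => by simp only [hF0 v hv]; ring]
        exact sum_congr rfl fun x _ => by rw [hFA]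
      have h3 : ∑ v, (∑ w ∈ G.neighborFinset v, F w) ^ 2 =
          ∑ b : B, (∑ x ∈ univ.filter (fun x : A => G.Adj x.1 b.1), f x) ^ 2 := by
        rw [hsum B (fun v => (∑ w ∈ G.neighborFinset v, F w) ^ 2) fun v hv => by
          have hvA : v ∈ A := by
            by_contra h
            exact hv (hBA v h)
          have : ∑ w ∈ G.neighborFinset v, F w = 0 := by
            refine sum_eq_zero fun w hw => ?_
            rw [SimpleGraph.mem_neighborFinset] at hw
            exact hF0 w fun hwA => hAB w hwA (hadjA v w hw hvA)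
          simp only [this]
          ring]
        refine sum_congr rfl fun b _ => ?_
        congr 1
        rw [hnf, sum_filter]
        rw [hsum A (fun w => if G.Adj b.1 w then F w else 0) fun w hw => by simp only [hF0 w hw, ite_self]]
        rw [sum_filter]
        refine sum_congr rfl fun x _ => ?_
        rw [hFA, G.adj_comm]
      rw [h2, h3] at h1
      exact h1
    have hrow : ∀ (A B : Set V), (∀ x y, G.Adj x y → x ∈ A → y ∈ B) → ∀ x : A,
        (univ.filter fun b : B => G.Adj x.1 b.1).card = d := by
      intro A B hadjA x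
      rw [← hdeg x.1]
      refine card_bij (fun b _ => b.1) ?_ ?_ ?_
      · intro b hb
        rw [mem_filter] at hb ⊢
        exact ⟨mem_univ _, hb.2⟩
      · intro b _ b' _ h
        exact Subtype.ext h
      · intro y hy
        rw [mem_filter] at hy
        exact ⟨⟨y, hadjA x.1 y hy.2 x.2⟩, by rw [mem_filter]; exact ⟨mem_univ _, hy.2⟩, rfl⟩
    refine ⟨S, T, inferInstance, inferInstance, hneS, ⟨?_⟩⟩
    exact
      { inc := fun x b => G.Adj x.1 b.1
        row := fun x => by convert hrow S T hadjS x
        col := fun b => by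
          have h1 := hrow T S hadjT b
          have h2 : (univ.filter fun x : S => G.Adj x.1 b.1) = univ.filter fun x : S => G.Adj b.1 x.1 := by
            ext x
            simp only [mem_filter, mem_univ, true_and]
            exact G.adj_comm _ _
          rw [← h2] at h1
          convert h1
        conn := fun U W hne hUW => by
          have hcl : ∀ v, (∃ h : v ∈ S, (⟨v, h⟩ : S) ∈ U) ∨ (∃ h : v ∈ T, (⟨v, h⟩ : T) ∈ W) := by
            have hne' : ∃ u, (∃ h : u ∈ S, (⟨u, h⟩ : S) ∈ U) ∨ (∃ h : u ∈ T, (⟨u, h⟩ : T) ∈ W) := by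
              rcases hne with ⟨u, hu⟩ | ⟨u, hu⟩
              · exact ⟨u.1, Or.inl ⟨u.2, hu⟩⟩
              · exact ⟨u.1, Or.inr ⟨u.2, hu⟩⟩
            obtain ⟨u, hu⟩ := hne'
            refine closed_all hconn {v | (∃ h : v ∈ S, (⟨v, h⟩ : S) ∈ U) ∨ (∃ h : v ∈ T, (⟨v, h⟩ : T) ∈ W)} u hu ?_
            rintro p (⟨hp, hpU⟩ | ⟨hp, hpW⟩) q hpq
            · exact Or.inr ⟨hadjS p q hpq hp, (hUW ⟨p, hp⟩ ⟨q, hadjS p q hpq hp⟩ hpq).1 hpU⟩
            · exact Or.inl ⟨hadjT p q hpq hp, (hUW ⟨q, hadjT p q hpq hp⟩ ⟨p, hp⟩ hpq.symm).2 hpW⟩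
          constructor
          · refine Set.eq_univ_of_forall fun x => ?_
            rcases hcl x.1 with ⟨h, hU⟩ | ⟨h, _⟩
            · exact hU
            · exact absurd h (hinter x.1 x.2)
          · refine Set.eq_univ_of_forall fun b => ?_
            rcases hcl b.1 with ⟨h, _⟩ | ⟨h, hW⟩
            · exact absurd b.2 (hinter b.1 h)
            · exact hW
        psd := fun f => by
          have h1 := hpsd S T hinter hTS hadjS hadjT f
          convert h1
        psd' := fun f => by
          have h1 := hpsd T S (fun v hT hS => hinter v hS hT) (fun v hv => (hunion v).resolve_right hv) hadjT hadjS f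
          have h2 : ∀ x : S, (univ.filter fun b : T => G.Adj b.1 x.1) = univ.filter fun b : T => G.Adj x.1 b.1 := by
            intro x
            ext b
            simp only [mem_filter, mem_univ, true_and]
            exact G.adj_comm _ _
          have h3 : ∑ x : S, (∑ b ∈ univ.filter (fun b : T => G.Adj b.1 x.1), f b) ^ 2 =
              ∑ x : S, (∑ b ∈ univ.filter (fun b : T => G.Adj x.1 b.1), f b) ^ 2 :=
            sum_congr rfl fun x _ => by rw [h2 x]
          rw [h3] at h1
          convert h1 }

end Pool.Agent.H15.GP
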