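import Mathlib

/-!
# SyH: determinants: `δ` is a square if `s (L - 1)` is odd

`N` (points × blocks, `card P = card B = L s`, `s = card C`) with `N Nᵀ = δ I + U M Uᵀ`, `U` the `P × C` matrix of the map `π` with fibers of size `L` (`Uᵀ U = L I`), and `R Rᵀ = δ I + L M`.
`det (N Nᵀ) = δ^n det (I + δ⁻¹ U M Uᵀ) = δ^n det (I + δ⁻¹ M Uᵀ U) = δ^(n - s) det (δ I + L M) = δ^(n-s) (det R)²` over `ℚ` (`Matrix.det_one_add_mul_comm`; reindex the columns of `N` and `R` by equivalences
`P ≃ B`, `C ≃ D`).  `det N ≠ 0` by `hinj` (`Matrix.exists_vecMul_eq_zero_iff` over `ℤ`), `n - s = s (L - 1)` is odd, so `δ` is the square of a rational.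
-/

set_option autoImplicit false

namespace Pool.Agent.H15.GP

open Finset Matrix

open Classical in
theorem det_blow {P B C D : Type} [Fintype P] [Fintype B] [Fintype C] [Fintype D] (δ L : ℕ) (hδ : 0 < δ) (hL : 0 < L)
    (N : P → B → ℤ) (R : C → D → ℤ) (M : C → C → ℤ) (π : P → C)
    (hPB : Fintype.card P = Fintype.card B) (hCD : Fintype.card C = Fintype.card D)
    (hfib : ∀ p, (univ.filter fun x => π x = p).card = L)
    (hN : ∀ x y, ∑ b, N x b * N y b = (if x = y then (δ : ℤ) else 0) + M (π x) (π y))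
    (hR : ∀ p p', ∑ q, R p q * R p' q = (if p = p' then (δ : ℤ) else 0) + L * M p p')
    (hinj : ∀ f : P → ℤ, (∀ b, ∑ x, f x * N x b = 0) → f = 0)
    (hodd : Odd (Fintype.card C * (L - 1))) : IsSquare δ := by
  have e1 : P ≃ B := Fintype.equivOfCardEq hPB
  have e2 : C ≃ D := Fintype.equivOfCardEq hCD
  have hδ' : (δ : ℚ) ≠ 0 := by exact_mod_cast hδ.ne'
  let A₀ : Matrix P P ℤ := fun x y => N x (e1 y)
  let A : Matrix P P ℚ := A₀.map (Int.cast : ℤ → ℚ)
  let A' : Matrix C C ℚ := fun p q => (R p (e2 q) : ℚ)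
  let U : Matrix P C ℚ := fun x p => if π x = p then 1 else 0
  let M' : Matrix C C ℚ := fun p q => (M p q : ℚ)
  have hA : A * Aᵀ = (δ : ℚ) • (1 : Matrix P P ℚ) + U * (M' * Uᵀ) := by
    ext x y
    rw [Matrix.mul_apply, Matrix.add_apply, Matrix.smul_apply, Matrix.mul_apply, Matrix.one_apply]
    have h1 : ∑ j, A x j * Aᵀ j y = ((∑ b, N x b * N y b : ℤ) : ℚ) := by
      rw [← e1.sum_comp]
      push_cast
      rfl
    rw [h1, hN x y]
    have h2 : ∑ j, U x j * (M' * Uᵀ) j y = (M (π x) (π y) : ℚ) := by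
      rw [sum_eq_single (π x)]
      · rw [mul_apply, sum_eq_single (π y)]
        · simp [U, M']
        · intro p _ hp
          simp [U, Ne.symm hp]
        · simp
      · intro p _ hp
        simp [U, Ne.symm hp]
      · simp
    rw [h2]
    push_cast
    by_cases hxy : x = y
    · simp [hxy]
    · simp [hxy]
  have hU : Uᵀ * U = (L : ℚ) • (1 : Matrix C C ℚ) := by
    ext p q
    rw [Matrix.mul_apply, Matrix.smul_apply, Matrix.one_apply]
    by_cases hpq : p = q
    · subst hpq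
      have h1 : ∑ j, Uᵀ p j * U j p = ((univ.filter fun x => π x = p).card : ℚ) := by
        rw [card_filter]
        push_cast
        refine sum_congr rfl fun x _ => ?_
        by_cases h : π x = p <;> simp [U, h]
      rw [h1, hfib p]
      simp
    · rw [if_neg hpq, smul_zero]
      refine sum_eq_zero fun x _ => ?_
      by_cases h : π x = p
      · have : π x ≠ q := fun h' => hpq (h.symm.trans h')
        simp [U, this]
      · simp [U, h]
  have hA' : A' * A'ᵀ = (δ : ℚ) • (1 : Matrix C C ℚ) + (L : ℚ) • M' := by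
    ext p q
    rw [Matrix.mul_apply, Matrix.add_apply, Matrix.smul_apply, Matrix.smul_apply, Matrix.one_apply]
    have h1 : ∑ j, A' p j * A'ᵀ j q = ((∑ b, R p b * R q b : ℤ) : ℚ) := by
      rw [← e2.sum_comp]
      push_cast
      rfl
    rw [h1, hR p q]
    push_cast
    by_cases hpq : p = q
    · simp [hpq, M']
    · simp [hpq, M']
  have hdetA : A.det ^ 2 = (δ : ℚ) ^ Fintype.card P * det (1 + ((δ : ℚ)⁻¹ * L) • M') := by
    have h1 : A.det ^ 2 = (A * Aᵀ).det := by rw [det_mul, det_transpose, sq]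
    have h2 : (δ : ℚ) • (1 : Matrix P P ℚ) + U * (M' * Uᵀ) =
        (δ : ℚ) • (1 + ((δ : ℚ)⁻¹ • U) * (M' * Uᵀ)) := by
      rw [smul_add, Matrix.smul_mul, smul_smul, mul_inv_cancel₀ hδ', one_smul]
    rw [h1, hA, h2, det_smul, det_one_add_mul_comm]
    congr 2
    rw [Matrix.mul_smul, Matrix.mul_assoc, hU, Matrix.mul_smul, Matrix.mul_one, smul_smul]
  have hdetA' : A'.det ^ 2 = (δ : ℚ) ^ Fintype.card C * det (1 + ((δ : ℚ)⁻¹ * L) • M') := by
    have h1 : A'.det ^ 2 = (A' * A'ᵀ).det := by rw [det_mul, det_transpose, sq]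
    have h2 : (δ : ℚ) • (1 : Matrix C C ℚ) + (L : ℚ) • M' = (δ : ℚ) • (1 + ((δ : ℚ)⁻¹ * L) • M') := by
      rw [smul_add, smul_smul, ← mul_assoc, mul_inv_cancel₀ hδ', one_mul]
    rw [h1, hA', h2, det_smul]
  have hcard : Fintype.card P = Fintype.card C * L := by
    have h1 : Fintype.card P = ∑ p : C, (univ.filter fun x => π x = p).card := by
      rw [← card_univ]
      exact card_eq_sum_card_fiberwise fun x _ => mem_univ (π x)
    rw [h1, sum_congr rfl fun p _ => hfib p, sum_const, card_univ, smul_eq_mul]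
  have hdet0 : A.det ≠ 0 := by
    intro h0
    have h1 : A₀.det = 0 := by
      have h2 : ((A₀.det : ℤ) : ℚ) = A.det := by
        have := (Int.castRingHom ℚ).map_det A₀
        simpa [A] using this
      rw [h0] at h2
      exact_mod_cast h2
    obtain ⟨v, hv, hv0⟩ := exists_vecMul_eq_zero_iff.2 h1
    apply hv
    apply hinj v
    intro b
    have h3 := congrFun hv0 (e1.symm b)
    simpa [vecMul, dotProduct, A₀] using h3
  obtain ⟨j, hj⟩ := hodd
  have hLs : Fintype.card P = Fintype.card C + (2 * j + 1) := by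
    rw [hcard, ← hj]
    obtain ⟨L', rfl⟩ : ∃ L', L = L' + 1 := ⟨L - 1, by omega⟩
    simp
    ring
  have hmain : A.det ^ 2 = (δ : ℚ) * ((δ : ℚ) ^ j * A'.det) ^ 2 := by
    rw [hdetA, mul_pow, hdetA', hLs]
    ring
  have hx : (δ : ℚ) ^ j * A'.det ≠ 0 := by
    intro h0
    rw [h0] at hmain
    apply hdet0
    have : A.det ^ 2 = 0 := by rw [hmain]; ring
    exact pow_eq_zero_iff (two_ne_zero) |>.1 this
  rw [← Rat.isSquare_natCast_iff]
  refine ⟨A.det / ((δ : ℚ) ^ j * A'.det), ?_⟩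
  have hx2 : ((δ : ℚ) ^ j * A'.det) ^ 2 ≠ 0 := pow_ne_zero 2 hx
  rw [div_mul_div_comm, ← sq, hmain, ← sq, mul_div_assoc, div_self hx2, mul_one]

end Pool.Agent.H15.GP
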