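import Mathlib
import Pool.Agent.H15.GP.GrT

/-!
# SyA: the Gram matrix of a system

`G x y = c x y - (d - 2) [x = y]`, `c x y` the number of blocks through `x` and `y`.
`sum_sq`: `∑_b (∑_{x ∈ b} f x)² = ∑ₓ ∑ᵧ f x f y c x y` (expand the square, exchange the sums; compare `Pool.Agent.H17.inc_quad`).
`gram`: symmetric, `G x x = d - (d - 2) = 2`, nonnegative; `100 bil G f f = 100 ∑_b (∑_{x ∈ b} f x)² - 100 (d - 2) ∑ f² ≥ (100 d - 201 - 100 d + 200) ∑ f² = - ∑ f²` by `S.psd`.
-/

set_option autoImplicit false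

namespace Pool.Agent.H15.GP

open Finset

noncomputable section

variable {P B : Type} [Fintype P] [Fintype B] {d : ℕ} (S : Sys P B d)

theorem Sys.c_comm (x y : P) : S.c x y = S.c y x := by
  unfold Sys.c
  congr 1
  ext b
  simp only [mem_filter, mem_univ, true_and]
  exact and_comm

theorem Sys.c_self (x : P) : S.c x x = d := by
  unfold Sys.c
  refine Eq.trans ?_ (S.row x)
  congr 1
  ext b
  simp only [mem_filter, mem_univ, true_and, and_self]

open Classical in
theorem Sys.sum_sq (f : P → ℤ) :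
    ∑ b, (∑ x ∈ univ.filter (fun x => S.inc x b), f x) ^ 2 = ∑ x, ∑ y, f x * f y * (S.c x y : ℤ) := by
  have e1 : ∀ b, (∑ x ∈ univ.filter (fun x => S.inc x b), f x) ^ 2 =
      ∑ x, ∑ y, f x * f y * (if S.inc x b ∧ S.inc y b then 1 else 0) := by
    intro b
    rw [sum_filter, sq, sum_mul_sum]
    refine sum_congr rfl fun x _ => sum_congr rfl fun y _ => ?_
    by_cases hx : S.inc x b <;> by_cases hy : S.inc y b <;> simp [hx, hy]
  rw [sum_congr rfl fun b _ => e1 b, sum_comm]
  refine sum_congr rfl fun x _ => ?_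
  rw [sum_comm]
  refine sum_congr rfl fun y _ => ?_
  rw [← mul_sum]
  congr 1
  unfold Sys.c
  rw [card_filter]
  push_cast
  rfl

theorem Sys.gram : Gram S.G := by
  classical
  refine ⟨fun x y => ?_, fun x => ?_, fun x y => ?_, fun f => ?_⟩
  · unfold Sys.G
    rw [S.c_comm x y]
    by_cases h : x = y
    · rw [h]
    · rw [if_neg h, if_neg (Ne.symm h)]
  · unfold Sys.G
    rw [S.c_self, if_pos rfl]
    ring
  · unfold Sys.G
    by_cases h : x = y
    · rw [h, S.c_self, if_pos rfl]
      norm_num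
    · rw [if_neg h, sub_zero]
      positivity
  · have h1 := S.psd f
    rw [S.sum_sq f] at h1
    have h2 : bil S.G f f = ∑ x, ∑ y, f x * f y * (S.c x y : ℤ) - ((d : ℤ) - 2) * ∑ x, f x ^ 2 := by
      unfold bil
      rw [mul_sum, ← sum_sub_distrib]
      refine sum_congr rfl fun x _ => ?_
      have e1 : ∀ y, f x * f y * S.G x y =
          f x * f y * (S.c x y : ℤ) - (if x = y then ((d : ℤ) - 2) * (f x * f y) else 0) := by
        intro y
        unfold Sys.G
        split_ifs <;> ring
      rw [sum_congr rfl fun y _ => e1 y, sum_sub_distrib, sum_ite_eq, if_pos (mem_univ _)]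
      ring
    rw [h2]
    linarith

end

end Pool.Agent.H15.GP
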