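import Mathlib
import Pool.Agent.H15.GP.Defs

/-!
# SyB: `G N = N G'`, and the row sums of `G`

`GN`: `∑_{y ∈ b} c(x, y)` counts the pairs `(y, m)` with `y ∈ b`, `x, y ∈ m`; so does `∑_{m ∋ x} c'(m, b)`.  The diagonal terms are `(d - 2) [x ∈ b]` on both sides.
`sum_G`: `∑_y c(x, y) = ∑_{m ∋ x} |m| = d²`, minus `d - 2`.
-/

set_option autoImplicit false

namespace Pool.Agent.H15.GP

open Finset

noncomputable section

variable {P B : Type} [Fintype P] [Fintype B] {d : ℕ} (S : Sys P B d)

open Classical in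
theorem Sys.GN (x : P) (b : B) :
    ∑ y ∈ univ.filter (fun y => S.inc y b), S.G x y = ∑ m ∈ univ.filter (fun m => S.inc x m), S.dual.G m b := by
  have h1 : ∑ y ∈ univ.filter (fun y => S.inc y b), (S.c x y : ℤ) =
      ∑ m ∈ univ.filter (fun m => S.inc x m), (S.dual.c m b : ℤ) := by
    have e1 : ∀ y, (S.c x y : ℤ) = ∑ m, if S.inc x m ∧ S.inc y m then (1 : ℤ) else 0 := by
      intro y
      unfold Sys.c
      rw [card_filter]
      push_cast
      rfl
    have e2 : ∀ m, (S.dual.c m b : ℤ) = ∑ y, if S.inc y m ∧ S.inc y b then (1 : ℤ) else 0 := by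
      intro m
      unfold Sys.c Sys.dual
      rw [card_filter]
      push_cast
      rfl
    rw [sum_congr rfl fun y _ => e1 y, sum_congr rfl fun m _ => e2 m, sum_filter, sum_filter]
    have e3 : ∀ y, (if S.inc y b then ∑ m, (if S.inc x m ∧ S.inc y m then (1 : ℤ) else 0) else 0) =
        ∑ m, if S.inc y b ∧ S.inc x m ∧ S.inc y m then (1 : ℤ) else 0 := by
      intro y
      by_cases h : S.inc y b <;> simp [h]
    have e4 : ∀ m, (if S.inc x m then ∑ y, (if S.inc y m ∧ S.inc y b then (1 : ℤ) else 0) else 0) =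
        ∑ y, if S.inc y b ∧ S.inc x m ∧ S.inc y m then (1 : ℤ) else 0 := by
      intro m
      by_cases h : S.inc x m
      · simp only [h, if_true, true_and]
        refine sum_congr rfl fun y _ => ?_
        by_cases h1 : S.inc y m <;> by_cases h2 : S.inc y b <;> simp [h1, h2]
      · simp [h]
    rw [sum_congr rfl fun y _ => e3 y, sum_congr rfl fun m _ => e4 m, sum_comm]
  have h2 : ∑ y ∈ univ.filter (fun y => S.inc y b), (if x = y then (d : ℤ) - 2 else 0) =
      ∑ m ∈ univ.filter (fun m => S.inc x m), (if m = b then (d : ℤ) - 2 else 0) := by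
    rw [sum_ite_eq, sum_ite_eq']
    simp only [mem_filter, mem_univ, true_and]
  unfold Sys.G
  rw [sum_sub_distrib, sum_sub_distrib, h1, h2]

theorem Sys.sum_G (x : P) : ∑ y, S.G x y = (d : ℤ) ^ 2 - d + 2 := by
  classical
  have h1 : ∑ y, (S.c x y : ℤ) = (d : ℤ) ^ 2 := by
    have e1 : ∀ y, (S.c x y : ℤ) = ∑ m, if S.inc x m ∧ S.inc y m then (1 : ℤ) else 0 := by
      intro y
      unfold Sys.c
      rw [card_filter]
      push_cast
      rfl
    rw [sum_congr rfl fun y _ => e1 y, sum_comm]
    have e2 : ∀ m, ∑ y, (if S.inc x m ∧ S.inc y m then (1 : ℤ) else 0) = if S.inc x m then (d : ℤ) else 0 := by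
      intro m
      by_cases h : S.inc x m
      · rw [if_pos h]
        simp only [h, true_and]
        have h5 : ((univ.filter fun y => S.inc y m).card : ℤ) = d := by
          exact_mod_cast congrArg (Nat.cast : ℕ → ℤ) (S.col m)
        rw [card_filter] at h5
        push_cast at h5
        exact h5
      · simp [h]
    rw [sum_congr rfl fun m _ => e2 m, ← sum_filter, sum_const, S.row x, nsmul_eq_mul]
    ring
  unfold Sys.G
  rw [sum_sub_distrib, h1, sum_ite_eq, if_pos (mem_univ _)]
  ring

end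

end Pool.Agent.H15.GP
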