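import Mathlib
import Pool.Agent.H15.GP.SyA
import Pool.Agent.H15.GP.SyB

/-!
# SyC: parallel points, the flag identity, and parallel blocks meet a class in the same number of points

`par x y` means `G x y = 2` (in particular `par x x`).  By `Gram.par` parallel points have equal rows of `G`, so `par` is an equivalence relation.
`le_two`, `one_le`: `G x y ≤ 2`; if `x, y ∈ b` then `G x y ≥ 1` (`c x y ≥ 1` if `x ≠ y`, `G x x = 2`), so `G x y = 1 + [par x y]`.
`sum_flag`: for `x ∈ b`: `∑_{y ∈ b} G x y = d + #{y ∈ b : par x y}`.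
`flag`: for `x ∈ b`: `#{y ∈ b : par x y} = #{m ∋ x : par' b m}`: both sides plus `d` are the two sides of `GN` (`sum_flag` for `S` and `S.dual`, symmetry of `G'`).
`par_count`: let `par' b m`.  By `GN` and equality of the rows `b`, `m` of `G'`: `∑_{y ∈ b} G x y = ∑_{y ∈ m} G x y` for every `x`.
  Fix `x`.  If some `z ∈ b` and some `w ∈ m` are parallel to `x`: `∑_{y ∈ b} G x y = ∑_{y ∈ b} G z y = d + #{y ∈ b : par z y}`, the same for `m` and `w`, so the two numbers are equal.
  If `z ∈ b` is parallel to `x` and no point of `m` is: `∑_{y ∈ m} G x y ≤ d` (terms at most 1), but `∑_{y ∈ b} G x y = d + #{y ∈ b : par x y} ≥ d + 1`, contradiction; the same with `b`, `m` exchanged.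
  If neither: both numbers are 0.
-/

set_option autoImplicit false

namespace Pool.Agent.H15.GP

open Finset

noncomputable section

variable {P B : Type} [Fintype P] [Fintype B] {d : ℕ} (S : Sys P B d)

/-- Parallel points. -/
def Sys.par (x y : P) : Prop := S.G x y = 2

theorem Sys.par_G {x y : P} (h : S.par x y) (z : P) : S.G x z = S.G y z := S.gram.par h z

theorem Sys.par_equiv : Equivalence S.par := by
  refine ⟨fun x => S.gram.diag x, fun {x y} h => ?_, fun {x y z} h1 h2 => ?_⟩
  · show S.G y x = 2
    rw [S.gram.symm]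
    exact h
  · show S.G x z = 2
    rw [S.par_G h1 z]
    exact h2

theorem Sys.one_le {x y : P} {b : B} (hx : S.inc x b) (hy : S.inc y b) : 1 ≤ S.G x y := by
  classical
  by_cases hxy : x = y
  · subst hxy
    rw [S.gram.diag]
    norm_num
  · unfold Sys.G
    rw [if_neg hxy, sub_zero]
    have h1 : 0 < S.c x y := by
      unfold Sys.c
      exact card_pos.2 ⟨b, by simp [hx, hy]⟩
    exact_mod_cast h1

open Classical in
theorem Sys.sum_flag {x : P} {b : B} (h : S.inc x b) :
    ∑ y ∈ univ.filter (fun y => S.inc y b), S.G x y = d + ((univ.filter fun y => S.inc y b ∧ S.par x y).card : ℤ) := by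
  have h1 : ∀ y ∈ univ.filter (fun y => S.inc y b), S.G x y = 1 + (if S.par x y then 1 else 0) := by
    intro y hy
    rw [mem_filter] at hy
    have h2 := S.one_le h hy.2
    have h3 := S.gram.le_two x y
    by_cases hp : S.par x y
    · rw [if_pos hp]
      exact hp
    · rw [if_neg hp]
      have h4 : S.G x y ≠ 2 := hp
      omega
  rw [sum_congr rfl h1, sum_add_distrib, sum_const, S.col b, nsmul_eq_mul, mul_one, ← sum_filter, filter_filter,
    sum_const, nsmul_eq_mul, mul_one]

open Classical in
theorem Sys.flag {x : P} {b : B} (h : S.inc x b) :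
    (univ.filter fun y => S.inc y b ∧ S.par x y).card = (univ.filter fun m => S.inc x m ∧ S.dual.par b m).card := by
  have h1 := S.sum_flag h
  have h2 := S.dual.sum_flag (x := b) (b := x) h
  have h3 := S.GN x b
  have h4 : ∑ m ∈ univ.filter (fun m => S.inc x m), S.dual.G m b =
      ∑ m ∈ univ.filter (fun m => S.dual.inc m x), S.dual.G b m :=
    sum_congr rfl fun m _ => S.dual.gram.symm m b
  rw [h4, h2, h1] at h3
  have h5 : (univ.filter fun m => S.dual.inc m x ∧ S.dual.par b m) =
      univ.filter fun m => S.inc x m ∧ S.dual.par b m := rfl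
  rw [h5] at h3
  have h6 : ((univ.filter fun y => S.inc y b ∧ S.par x y).card : ℤ) =
      ((univ.filter fun m => S.inc x m ∧ S.dual.par b m).card : ℤ) := by linarith
  exact_mod_cast h6

theorem Sys.par_iff {x z : P} (h : S.par x z) (y : P) : S.par x y ↔ S.par z y := by
  unfold Sys.par
  rw [S.par_G h y]

open Classical in
theorem Sys.par_count {b m : B} (h : S.dual.par b m) (x : P) :
    (univ.filter fun y => S.inc y b ∧ S.par x y).card = (univ.filter fun y => S.inc y m ∧ S.par x y).card := by
  -- the sums over `b` and `m` agree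
  have hsum : ∀ x, ∑ y ∈ univ.filter (fun y => S.inc y b), S.G x y =
      ∑ y ∈ univ.filter (fun y => S.inc y m), S.G x y := by
    intro x
    rw [S.GN x b, S.GN x m]
    refine sum_congr rfl fun k _ => ?_
    rw [S.dual.gram.symm k b, S.dual.gram.symm k m]
    exact S.dual.par_G h k
  -- the sum over a block containing a parallel point
  have hval : ∀ (c : B) (z : P), S.inc z c → S.par x z → ∑ y ∈ univ.filter (fun y => S.inc y c), S.G x y =
      d + ((univ.filter fun y => S.inc y c ∧ S.par x y).card : ℤ) := by
    intro c z hz hp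
    have e1 := S.sum_flag hz
    have e2 : ∑ y ∈ univ.filter (fun y => S.inc y c), S.G x y = ∑ y ∈ univ.filter (fun y => S.inc y c), S.G z y :=
      sum_congr rfl fun y _ => S.par_G hp y
    have e3 : (univ.filter fun y => S.inc y c ∧ S.par x y) = univ.filter fun y => S.inc y c ∧ S.par z y := by
      ext y
      simp only [mem_filter, mem_univ, true_and, S.par_iff hp y]
    rw [e2, e1, e3]
  -- the sum over a block without parallel point
  have hle : ∀ c : B, (∀ z, S.inc z c → ¬ S.par x z) → ∑ y ∈ univ.filter (fun y => S.inc y c), S.G x y ≤ d := by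
    intro c hc
    have e1 : ∀ y ∈ univ.filter (fun y => S.inc y c), S.G x y ≤ 1 := by
      intro y hy
      rw [mem_filter] at hy
      have h3 := S.gram.le_two x y
      have h4 : S.G x y ≠ 2 := hc y hy.2
      omega
    refine le_trans (sum_le_sum e1) ?_
    rw [sum_const, S.col c, nsmul_eq_mul, mul_one]
  have hcard : ∀ (c : B) (z : P), S.inc z c → S.par x z → 0 < (univ.filter fun y => S.inc y c ∧ S.par x y).card :=
    fun c z hz hp => card_pos.2 ⟨z, by simp [hz, hp]⟩
  by_cases hb : ∃ z, S.inc z b ∧ S.par x z
  · obtain ⟨z, hz, hp⟩ := hb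
    have e1 := hval b z hz hp
    have e2 := hcard b z hz hp
    by_cases hm : ∃ w, S.inc w m ∧ S.par x w
    · obtain ⟨w, hw, hpw⟩ := hm
      have e3 := hval m w hw hpw
      have e4 := hsum x
      have e5 : ((univ.filter fun y => S.inc y b ∧ S.par x y).card : ℤ) =
          ((univ.filter fun y => S.inc y m ∧ S.par x y).card : ℤ) := by linarith
      exact_mod_cast e5
    · exfalso
      push Not at hm
      have e3 := hle m hm
      have e4 := hsum x
      have e5 : (0 : ℤ) < ((univ.filter fun y => S.inc y b ∧ S.par x y).card : ℤ) := by exact_mod_cast e2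
      linarith
  · by_cases hm : ∃ w, S.inc w m ∧ S.par x w
    · exfalso
      obtain ⟨w, hw, hpw⟩ := hm
      push Not at hb
      have e1 := hval m w hw hpw
      have e2 := hcard m w hw hpw
      have e3 := hle b hb
      have e4 := hsum x
      have e5 : (0 : ℤ) < ((univ.filter fun y => S.inc y m ∧ S.par x y).card : ℤ) := by exact_mod_cast e2
      linarith
    · push Not at hb hm
      rw [filter_eq_empty_iff.2 (fun y _ h => hb y h.1 h.2), filter_eq_empty_iff.2 (fun y _ h => hm y h.1 h.2)]

end

end Pool.Agent.H15.GP
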