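import Mathlib
import Pool.Agent.H15.GP.SyC

/-!
# SyD: the numbers `r(x, b)` and the size of the classes

`rr'`: for all `x`, `b`: `#{y ∈ b : par x y} = #{m ∋ x : par' b m}`.
  If some `y ∈ b` is parallel to `x`: `#{z ∈ b : par x z} = #{z ∈ b : par y z} = #{m ∋ y : par' b m}` (`flag`) `= #{m ∋ x : par' b m}` (`par_count` of the dual system).
  If some `m ∋ x` is parallel to `b`, the same argument in the dual system.  Otherwise both numbers are 0.
`class_flag`: `x ∈ b`, `C = [x]`, `D = [b]`, `r = #{y ∈ b : par x y} > 0`.  The incident pairs `(y, m)`, `y ∈ C`, `m ∈ D`: `|C| r` (each `y ∈ C` is on `#{m ∋ y : par' b m} = #{m ∋ x : par' b m} = r` blocks of `D`)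
  and `|D| r` (each `m ∈ D` has `r` points of `C`).  So `|C| = |D|` (`Finset.sum_card_bipartiteAbove_eq_sum_card_bipartiteBelow`).
`class_card`: if there is a point `x₀` let `L = |[x₀]|` and apply `S.conn` to `{x : |[x]| = L}`, `{b : |[b]| = L}`.  If there is no point and `d > 0` there is no block (`S.col`), take `L = 1`.
-/

set_option autoImplicit false

namespace Pool.Agent.H15.GP

open Finset

noncomputable section

variable {P B : Type} [Fintype P] [Fintype B] {d : ℕ} (S : Sys P B d)

open Classical in
theorem Sys.rr_aux (S : Sys P B d) (x : P) (b : B) (h : ∃ y, S.inc y b ∧ S.par x y) :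
    (univ.filter fun y => S.inc y b ∧ S.par x y).card = (univ.filter fun m => S.inc x m ∧ S.dual.par b m).card := by
  obtain ⟨y, hy, hp⟩ := h
  have e1 : (univ.filter fun z => S.inc z b ∧ S.par x z) = univ.filter fun z => S.inc z b ∧ S.par y z := by
    ext z
    simp only [mem_filter, mem_univ, true_and, S.par_iff hp z]
  have e2 := S.flag hy
  have e3 := S.dual.par_count (b := x) (m := y) hp b
  have e4 : (univ.filter fun m => S.inc y m ∧ S.dual.par b m).card =
      (univ.filter fun m => S.inc x m ∧ S.dual.par b m).card := e3.symm
  rw [e1, e2, e4]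

open Classical in
theorem Sys.rr' (x : P) (b : B) :
    (univ.filter fun y => S.inc y b ∧ S.par x y).card = (univ.filter fun m => S.inc x m ∧ S.dual.par b m).card := by
  by_cases h1 : ∃ y, S.inc y b ∧ S.par x y
  · exact S.rr_aux x b h1
  · by_cases h2 : ∃ m, S.inc x m ∧ S.dual.par b m
    · have := S.dual.rr_aux b x h2
      exact this.symm
    · push Not at h1 h2
      rw [filter_eq_empty_iff.2 (fun y _ h => h1 y h.1 h.2), filter_eq_empty_iff.2 (fun y _ h => h2 y h.1 h.2),
        card_empty, card_empty]

open Classical in
theorem Sys.class_flag {x : P} {b : B} (h : S.inc x b) :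
    (univ.filter fun y => S.par x y).card = (univ.filter fun m => S.dual.par b m).card := by
  have hpos : 0 < (univ.filter fun y => S.inc y b ∧ S.par x y).card :=
    card_pos.2 ⟨x, by simp [h, show S.par x x from S.gram.diag x]⟩
  set r := (univ.filter fun y => S.inc y b ∧ S.par x y).card with hr
  have h1 : ∑ y ∈ univ.filter (fun y => S.par x y), (univ.filter fun m => S.inc y m ∧ S.dual.par b m).card =
      ∑ m ∈ univ.filter (fun m => S.dual.par b m), (univ.filter fun y => S.inc y m ∧ S.par x y).card := by
    have e1 : ∀ y, (univ.filter fun m => S.inc y m ∧ S.dual.par b m).card =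
        ∑ m ∈ univ.filter (fun m => S.dual.par b m), if S.inc y m then 1 else 0 := by
      intro y
      rw [← card_filter, filter_filter]
      congr 1
      ext m
      simp only [mem_filter, mem_univ, true_and]
      exact and_comm
    have e2 : ∀ m, (univ.filter fun y => S.inc y m ∧ S.par x y).card =
        ∑ y ∈ univ.filter (fun y => S.par x y), if S.inc y m then 1 else 0 := by
      intro m
      rw [← card_filter, filter_filter]
      congr 1
      ext y
      simp only [mem_filter, mem_univ, true_and]
      exact and_comm
    rw [sum_congr rfl fun y _ => e1 y, sum_congr rfl fun m _ => e2 m, sum_comm]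
  have h2 : ∀ y ∈ univ.filter (fun y => S.par x y), (univ.filter fun m => S.inc y m ∧ S.dual.par b m).card = r := by
    intro y hy
    have hp : S.par x y := (mem_filter.1 hy).2
    rw [← S.rr' y b, hr]
    congr 1
    ext z
    simp only [mem_filter, mem_univ, true_and, S.par_iff hp z]
  have h3 : ∀ m ∈ univ.filter (fun m => S.dual.par b m), (univ.filter fun y => S.inc y m ∧ S.par x y).card = r := by
    intro m hm
    have hp : S.dual.par b m := (mem_filter.1 hm).2
    exact (S.par_count hp x).symm
  rw [sum_congr rfl h2, sum_congr rfl h3, sum_const, sum_const, smul_eq_mul, smul_eq_mul] at h1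
  exact Nat.eq_of_mul_eq_mul_right hpos h1

open Classical in
theorem Sys.class_card (hd : 0 < d) : ∃ L, 0 < L ∧ (∀ x, (univ.filter fun y => S.par x y).card = L) ∧
    ∀ b, (univ.filter fun m => S.dual.par b m).card = L := by
  by_cases hP : Nonempty P
  · obtain ⟨x₀⟩ := hP
    refine ⟨(univ.filter fun y => S.par x₀ y).card, card_pos.2 ⟨x₀, by simp [show S.par x₀ x₀ from S.gram.diag x₀]⟩, ?_⟩
    have h := S.conn {x | (univ.filter fun y => S.par x y).card = (univ.filter fun y => S.par x₀ y).card}
      {b | (univ.filter fun m => S.dual.par b m).card = (univ.filter fun y => S.par x₀ y).card}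
      (Or.inl ⟨x₀, rfl⟩) (by
        intro x b hxb
        simp only [Set.mem_ofPred_eq]
        rw [S.class_flag hxb])
    constructor
    · intro x
      have : x ∈ ({x | (univ.filter fun y => S.par x y).card = (univ.filter fun y => S.par x₀ y).card} : Set P) := by
        rw [h.1]
        exact Set.mem_univ x
      exact this
    · intro b
      have : b ∈ ({b | (univ.filter fun m => S.dual.par b m).card = (univ.filter fun y => S.par x₀ y).card} : Set B) := by
        rw [h.2]
        exact Set.mem_univ b
      exact this
  · refine ⟨1, one_pos, fun x => absurd ⟨x⟩ hP, fun b => ?_⟩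
    exfalso
    have h1 := S.col b
    have h2 : (univ.filter fun x => S.inc x b).card = 0 := by
      rw [card_eq_zero, filter_eq_empty_iff]
      intro x
      exact absurd ⟨x⟩ hP
    omega

end

end Pool.Agent.H15.GP
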