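import Mathlib
import Pool.Agent.H15.GP.SyC

/-!
# SyE: `∑_{b ∋ x'} r(x, b) = [x ∥ x'] (d - 2) + L G x x'`

`∑_{b ∋ x'} #{y ∈ b : par x y} = ∑_{y ∥ x} c(x', y) = ∑_{y ∥ x} (G x' y + [x' = y] (d - 2)) = L G x' x + [x ∥ x'] (d - 2)`, because `G x' y = G x' x` for `y ∥ x` (`par_G`, symmetry).
-/

set_option autoImplicit false

namespace Pool.Agent.H15.GP

open Finset

noncomputable section

variable {P B : Type} [Fintype P] [Fintype B] {d : ℕ} (S : Sys P B d)

open Classical in
theorem Sys.sum_rr (L : ℕ) (x x' : P) (hL : (univ.filter fun y => S.par x y).card = L) :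
    ∑ b ∈ univ.filter (fun b => S.inc x' b), ((univ.filter fun y => S.inc y b ∧ S.par x y).card : ℤ) =
      (if S.par x x' then (d : ℤ) - 2 else 0) + L * S.G x x' := by
  have h1 : ∑ b ∈ univ.filter (fun b => S.inc x' b), ((univ.filter fun y => S.inc y b ∧ S.par x y).card : ℤ) =
      ∑ y ∈ univ.filter (fun y => S.par x y), (S.c x' y : ℤ) := by
    have e1 : ∀ b, ((univ.filter fun y => S.inc y b ∧ S.par x y).card : ℤ) =
        ∑ y ∈ univ.filter (fun y => S.par x y), if S.inc y b then (1 : ℤ) else 0 := by
      intro b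
      have : (univ.filter fun y => S.inc y b ∧ S.par x y) =
          (univ.filter fun y => S.par x y).filter fun y => S.inc y b := by
        rw [filter_filter]
        ext y
        simp only [mem_filter, mem_univ, true_and]
        exact and_comm
      rw [this, card_filter]
      push_cast
      rfl
    have e2 : ∀ y, (S.c x' y : ℤ) = ∑ b ∈ univ.filter (fun b => S.inc x' b), if S.inc y b then (1 : ℤ) else 0 := by
      intro y
      unfold Sys.c
      have : (univ.filter fun b => S.inc x' b ∧ S.inc y b) =
          (univ.filter fun b => S.inc x' b).filter fun b => S.inc y b := by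
        rw [filter_filter]
      rw [this, card_filter]
      push_cast
      rfl
    rw [sum_congr rfl fun b _ => e1 b, sum_congr rfl fun y _ => e2 y, sum_comm]
  have h2 : ∀ y ∈ univ.filter (fun y => S.par x y), (S.c x' y : ℤ) =
      S.G x x' + (if x' = y then (d : ℤ) - 2 else 0) := by
    intro y hy
    have hp : S.par x y := (mem_filter.1 hy).2
    have e1 : S.G x' y = S.G x x' := by
      rw [S.gram.symm x' y, ← S.par_G hp x']
    have e2 : S.G x' y = (S.c x' y : ℤ) - (if x' = y then (d : ℤ) - 2 else 0) := rfl
    linarith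
  rw [h1, sum_congr rfl h2, sum_add_distrib, sum_const, hL, nsmul_eq_mul, sum_ite_eq]
  simp only [mem_filter, mem_univ, true_and]
  ring

end

end Pool.Agent.H15.GP
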