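import Mathlib
import Pool.Agent.H15.GP.SyD
import Pool.Agent.H15.GP.SyE

/-!
# SyG: the quotient matrix

`Cl S` is the quotient of the points by `par`.  `M ⟦x⟧ ⟦y⟧ = G x y` (well defined by `par_G`), `R ⟦x⟧ ⟦b⟧ = #{y ∈ b : par x y} = #{m ∋ x : par' b m}` (well defined by `rr'`, `par_count` for `S` and `S.dual`,
or: `{y : inc y b ∧ par x y}` depends only on the class of `x`; `{m : inc x m ∧ par' b m}` only on the class of `b`; the two numbers agree by `rr'`).
`R_rowsum`: `∑_q R ⟦x⟧ q = ∑_q #{m ∋ x : ⟦m⟧ = q} = #{m ∋ x} = d` (`Finset.card_eq_sum_card_fiberwise`).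
`R_dual`: `S.dual.R q p = S.R p q` (`rr'`).
`R_mul`: `∑_q R ⟦x⟧ q R ⟦x'⟧ q = ∑_q R ⟦x⟧ q #{b ∋ x' : ⟦b⟧ = q} = ∑_{b ∋ x'} R ⟦x⟧ ⟦b⟧`, then `sum_rr`.
`card_Cl`: `card P = L card (Cl S)` (all classes have `L` elements).
`fib`: the fiber of the quotient map over a class.
-/

set_option autoImplicit false

namespace Pool.Agent.H15.GP

open Finset

noncomputable section

variable {P B : Type} [Fintype P] [Fintype B] {d : ℕ} (S : Sys P B d)

/-- The setoid of parallel points. -/
def Sys.setoid : Setoid P := ⟨S.par, S.par_equiv⟩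

/-- The classes of parallel points. -/
abbrev Sys.Cl : Type := Quotient S.setoid

instance : Fintype S.Cl := Fintype.ofFinite _

/-- The quotient of a point. -/
def Sys.cls (x : P) : S.Cl := Quotient.mk S.setoid x

theorem Sys.cls_eq {x y : P} : S.cls x = S.cls y ↔ S.par x y := Quotient.eq

theorem Sys.cls_surj (p : S.Cl) : ∃ x, S.cls x = p := Quotient.exists_rep p

/-- The quotient of `G`. -/
def Sys.M (p q : S.Cl) : ℤ := S.G p.out q.out

open Classical in
/-- The quotient matrix. -/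
def Sys.R (p : S.Cl) (q : S.dual.Cl) : ℕ := (univ.filter fun y => S.inc y q.out ∧ S.par p.out y).card

theorem Sys.out_par (x : P) : S.par (S.cls x).out x := by
  rw [← S.cls_eq]
  exact Quotient.out_eq (S.cls x)

theorem Sys.M_mk (x y : P) : S.M (S.cls x) (S.cls y) = S.G x y := by
  unfold Sys.M
  rw [S.par_G (S.out_par x) _, S.gram.symm x _, S.par_G (S.out_par y) _, S.gram.symm y x]

open Classical in
theorem Sys.R_mk (x : P) (b : B) : S.R (S.cls x) (S.dual.cls b) = (univ.filter fun y => S.inc y b ∧ S.par x y).card := by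
  unfold Sys.R
  have h1 : (univ.filter fun y => S.inc y (S.dual.cls b).out ∧ S.par (S.cls x).out y) =
      univ.filter fun y => S.inc y (S.dual.cls b).out ∧ S.par x y := by
    ext y
    simp only [mem_filter, mem_univ, true_and, S.par_iff (S.out_par x) y]
  rw [h1]
  exact S.par_count (S.dual.out_par b) x

open Classical in
theorem Sys.R_mk' (x : P) (b : B) :
    S.R (S.cls x) (S.dual.cls b) = (univ.filter fun m => S.inc x m ∧ S.dual.par b m).card := by
  rw [S.R_mk, S.rr']

theorem Sys.R_rowsum (p : S.Cl) : ∑ q, S.R p q = d := by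
  classical
  obtain ⟨x, rfl⟩ := S.cls_surj p
  have h1 : (univ.filter fun m => S.inc x m).card = ∑ q : S.dual.Cl, ((univ.filter fun m => S.inc x m).filter
      fun m => S.dual.cls m = q).card := card_eq_sum_card_fiberwise fun m _ => mem_univ (S.dual.cls m)
  refine Eq.trans ?_ (h1.symm.trans (S.row x))
  refine sum_congr rfl fun q _ => ?_
  obtain ⟨b, rfl⟩ := S.dual.cls_surj q
  rw [S.R_mk', filter_filter]
  congr 1
  ext m
  simp only [mem_filter, mem_univ, true_and, S.dual.cls_eq]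
  constructor
  · rintro ⟨h, h'⟩
    exact ⟨h, S.dual.par_equiv.symm h'⟩
  · rintro ⟨h, h'⟩
    exact ⟨h, S.dual.par_equiv.symm h'⟩

theorem Sys.R_colsum (q : S.dual.Cl) : ∑ p, S.R p q = d := by
  classical
  obtain ⟨b, rfl⟩ := S.dual.cls_surj q
  have h1 : (univ.filter fun y => S.inc y b).card = ∑ p : S.Cl, ((univ.filter fun y => S.inc y b).filter
      fun y => S.cls y = p).card := card_eq_sum_card_fiberwise fun y _ => mem_univ (S.cls y)
  refine Eq.trans ?_ (h1.symm.trans (S.col b))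
  refine sum_congr rfl fun p _ => ?_
  obtain ⟨x, rfl⟩ := S.cls_surj p
  rw [S.R_mk, filter_filter]
  congr 1
  ext m
  simp only [mem_filter, mem_univ, true_and, S.cls_eq]
  constructor
  · rintro ⟨h, h'⟩
    exact ⟨h, S.par_equiv.symm h'⟩
  · rintro ⟨h, h'⟩
    exact ⟨h, S.par_equiv.symm h'⟩

theorem Sys.R_dual (p : S.Cl) (q : S.dual.Cl) : S.dual.R q p = S.R p q := by
  obtain ⟨x, rfl⟩ := S.cls_surj p
  obtain ⟨b, rfl⟩ := S.dual.cls_surj q
  rw [S.R_mk']
  exact S.dual.R_mk b x

open Classical in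
theorem Sys.fib (L : ℕ) (hL : ∀ x, (univ.filter fun y => S.par x y).card = L) (p : S.Cl) :
    (univ.filter fun x => S.cls x = p).card = L := by
  obtain ⟨x, rfl⟩ := S.cls_surj p
  rw [← hL x]
  congr 1
  ext y
  simp only [mem_filter, mem_univ, true_and, S.cls_eq]
  exact ⟨fun h => S.par_equiv.symm h, fun h => S.par_equiv.symm h⟩

open Classical in
theorem Sys.card_Cl (L : ℕ) (hL : ∀ x, (univ.filter fun y => S.par x y).card = L) :
    Fintype.card P = Fintype.card S.Cl * L := by
  have h1 : (univ : Finset P).card = ∑ p : S.Cl, (univ.filter fun x => S.cls x = p).card :=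
    card_eq_sum_card_fiberwise fun x _ => mem_univ (S.cls x)
  rw [card_univ] at h1
  rw [h1, sum_congr rfl fun p _ => S.fib L hL p, sum_const, card_univ, smul_eq_mul]

open Classical in
theorem Sys.R_mul (L : ℕ) (hL : ∀ x, (univ.filter fun y => S.par x y).card = L) (p p' : S.Cl) :
    ∑ q, (S.R p q : ℤ) * S.R p' q = (if p = p' then (d : ℤ) - 2 else 0) + L * S.M p p' := by
  obtain ⟨x, rfl⟩ := S.cls_surj p
  obtain ⟨x', rfl⟩ := S.cls_surj p'
  have h1 : ∑ b ∈ univ.filter (fun b => S.inc x' b), (S.R (S.cls x) (S.dual.cls b) : ℤ) =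
      ∑ q, (S.R (S.cls x) q : ℤ) * S.R (S.cls x') q := by
    have e1 : ∑ b ∈ univ.filter (fun b => S.inc x' b), (S.R (S.cls x) (S.dual.cls b) : ℤ) =
        ∑ q : S.dual.Cl, ∑ b ∈ (univ.filter (fun b => S.inc x' b)).filter (fun b => S.dual.cls b = q),
          (S.R (S.cls x) (S.dual.cls b) : ℤ) :=
      (sum_fiberwise_of_maps_to (fun b _ => mem_univ (S.dual.cls b)) _).symm
    rw [e1]
    refine sum_congr rfl fun q _ => ?_
    have e2 : ∀ b ∈ (univ.filter (fun b => S.inc x' b)).filter (fun b => S.dual.cls b = q),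
        (S.R (S.cls x) (S.dual.cls b) : ℤ) = (S.R (S.cls x) q : ℤ) := by
      intro b hb
      rw [(mem_filter.1 hb).2]
    rw [sum_congr rfl e2, sum_const, nsmul_eq_mul, mul_comm]
    congr 1
    obtain ⟨b, rfl⟩ := S.dual.cls_surj q
    rw [S.R_mk', filter_filter]
    congr 2
    ext m
    simp only [mem_filter, mem_univ, true_and, S.dual.cls_eq]
    constructor
    · rintro ⟨h, h'⟩
      exact ⟨h, S.dual.par_equiv.symm h'⟩
    · rintro ⟨h, h'⟩
      exact ⟨h, S.dual.par_equiv.symm h'⟩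
  rw [← h1]
  have h2 : ∀ b, (S.R (S.cls x) (S.dual.cls b) : ℤ) = ((univ.filter fun y => S.inc y b ∧ S.par x y).card : ℤ) := by
    intro b
    rw [S.R_mk]
  rw [sum_congr rfl fun b _ => h2 b, S.sum_rr L x x' (hL x), S.M_mk]
  simp only [S.cls_eq]

end

end Pool.Agent.H15.GP
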