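import Mathlib
import Pool.Agent.H15.GP.SyG

/-!
# SyR: the graph on the classes

`Γ`: classes `p`, `q` are adjacent iff `M p q = 1`.
`M_gm`: `M p q = 2` iff `p = q` (`par`), and `0 ≤ M p q ≤ 2` (`Gram.nonneg`, `Gram.le_two`), so `M = gm Γ`.
`conn_Cl`: if `x, y ∈ b` then `⟦x⟧ = ⟦y⟧` or `⟦x⟧ ~ ⟦y⟧` (`one_le`, `le_two`); apply `S.conn` to the points `x` with `Γ.Reachable ⟦x₀⟧ ⟦x⟧` and the blocks which contain such a point.
`degree_Cl`: `∑_q M p q = 2 + degree p` (`M_gm`) and `L ∑_q M p q = ∑_y G x y = d² - d + 2` (`sum_G`; `fib`: the fibers of `cls` have `L` elements), so `L (degree p + 2) + d = d² + 2`.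
-/

set_option autoImplicit false

namespace Pool.Agent.H15.GP

open Finset

noncomputable section

variable {P B : Type} [Fintype P] [Fintype B] {d : ℕ} (S : Sys P B d)

/-- The graph on the classes. -/
def Sys.Gam : SimpleGraph S.Cl where
  Adj p q := S.M p q = 1
  symm := ⟨fun p q (h : S.M p q = 1) => by
    show S.M q p = 1
    rw [← h]
    exact S.gram.symm _ _⟩
  loopless := ⟨fun p (h : S.M p p = 1) => by
    have h2 : S.M p p = 2 := S.gram.diag _
    omega⟩

theorem Sys.M_two {p q : S.Cl} : S.M p q = 2 ↔ p = q := by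
  obtain ⟨x, rfl⟩ := S.cls_surj p
  obtain ⟨y, rfl⟩ := S.cls_surj q
  rw [S.M_mk, S.cls_eq]
  exact Iff.rfl

theorem Sys.M_gm : S.M = gm S.Gam := by
  classical
  funext p q
  have h0 : 0 ≤ S.M p q := S.gram.nonneg _ _
  have h2 : S.M p q ≤ 2 := S.gram.le_two _ _
  unfold gm
  by_cases hpq : p = q
  · rw [if_pos hpq]
    exact S.M_two.2 hpq
  · rw [if_neg hpq]
    have hne : S.M p q ≠ 2 := fun h => hpq (S.M_two.1 h)
    by_cases hadj : S.Gam.Adj p q
    · rw [if_pos hadj]
      exact hadj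
    · rw [if_neg hadj]
      have hne1 : S.M p q ≠ 1 := hadj
      omega

/-- two points of a block have equal or adjacent classes -/
theorem Sys.reach {x y : P} {b : B} (hx : S.inc x b) (hy : S.inc y b) : S.Gam.Reachable (S.cls x) (S.cls y) := by
  by_cases h : S.cls x = S.cls y
  · rw [h]
  · have h1 : S.M (S.cls x) (S.cls y) ≠ 2 := fun h' => h (S.M_two.1 h')
    have h2 := S.one_le hx hy
    have h3 := S.gram.le_two x y
    rw [S.M_mk] at h1
    have h4 : S.Gam.Adj (S.cls x) (S.cls y) := by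
      show S.M (S.cls x) (S.cls y) = 1
      rw [S.M_mk]
      omega
    exact h4.reachable

theorem Sys.conn_Cl (hd : 0 < d) [Nonempty P] : S.Gam.Connected := by
  classical
  obtain ⟨x₀⟩ := ‹Nonempty P›
  have hex : ∀ b : B, ∃ x, S.inc x b := by
    intro b
    have h1 := S.col b
    have h2 : 0 < (univ.filter fun x => S.inc x b).card := by omega
    obtain ⟨x, hx⟩ := card_pos.1 h2
    exact ⟨x, (mem_filter.1 hx).2⟩
  have h := S.conn {x | S.Gam.Reachable (S.cls x₀) (S.cls x)}
    {b | ∃ x, S.inc x b ∧ S.Gam.Reachable (S.cls x₀) (S.cls x)} (Or.inl ⟨x₀, SimpleGraph.Reachable.refl _⟩) (by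
      intro x b hxb
      constructor
      · intro hx
        exact ⟨x, hxb, hx⟩
      · rintro ⟨y, hyb, hy⟩
        exact hy.trans (S.reach hyb hxb))
  have hall : ∀ x, S.Gam.Reachable (S.cls x₀) (S.cls x) := by
    intro x
    have : x ∈ ({x | S.Gam.Reachable (S.cls x₀) (S.cls x)} : Set P) := by
      rw [h.1]
      exact Set.mem_univ x
    exact this
  have : Nonempty S.Cl := ⟨S.cls x₀⟩
  refine ⟨fun p q => ?_⟩
  obtain ⟨x, rfl⟩ := S.cls_surj p
  obtain ⟨y, rfl⟩ := S.cls_surj q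
  exact (hall x).symm.trans (hall y)

open Classical in
theorem Sys.degree_Cl (hd : 2 ≤ d) (L : ℕ) (hL : ∀ x, (univ.filter fun y => S.par x y).card = L) (p : S.Cl) :
    L * (S.Gam.degree p + 2) + d = d ^ 2 + 2 := by
  have h1 : ∑ q, S.M p q = S.Gam.degree p + 2 := by
    rw [S.M_gm]
    have e1 : ∀ q, gm S.Gam p q = (if p = q then 2 else 0) + (if S.Gam.Adj p q then 1 else 0) := by
      intro q
      unfold gm
      by_cases hpq : p = q
      · subst hpq
        simp
      · simp [hpq]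
    rw [sum_congr rfl fun q _ => e1 q, sum_add_distrib, sum_ite_eq, if_pos (mem_univ _), sum_boole]
    have e2 : (univ.filter fun q => S.Gam.Adj p q).card = S.Gam.degree p := by
      rw [← SimpleGraph.card_neighborFinset_eq_degree, SimpleGraph.neighborFinset_eq_filter]
    rw [e2]
    ring
  obtain ⟨x, rfl⟩ := S.cls_surj p
  have h2 : (L : ℤ) * ∑ q, S.M (S.cls x) q = ∑ y, S.G x y := by
    have e1 : ∑ y, S.G x y = ∑ q : S.Cl, ∑ y ∈ univ.filter (fun y => S.cls y = q), S.G x y :=
      (sum_fiberwise_of_maps_to (fun y _ => mem_univ (S.cls y)) _).symm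
    rw [e1, mul_sum]
    refine sum_congr rfl fun q _ => ?_
    have e2 : ∀ y ∈ univ.filter (fun y => S.cls y = q), S.G x y = S.M (S.cls x) q := by
      intro y hy
      rw [← (mem_filter.1 hy).2, S.M_mk]
    rw [sum_congr rfl e2, sum_const, S.fib L hL q, nsmul_eq_mul]
  rw [h1, S.sum_G x] at h2
  have h3 : ((L * (S.Gam.degree (S.cls x) + 2) + d : ℕ) : ℤ) = ((d ^ 2 + 2 : ℕ) : ℤ) := by
    push_cast
    linarith
  exact_mod_cast h3

end

end Pool.Agent.H15.GP
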