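import Mathlib
import Pool.Agent.H15.GP.SyR
import Pool.Agent.H15.GP.SyH

/-!
# SyS: positivity of the quotient, and the square condition

`gram_Cl`: `gm Γ = M` (`M_gm`); test function supported on representatives: `g x = f ⟦x⟧` if `x = (⟦x⟧).out`, `0` otherwise: `bil G g g = bil M f f`, `∑ g² = ∑ f²`; apply `S.gram.psd g`.
`card_eq`: the incident pairs: `card P · d = card B · d`.
`sq_Cl`: `det_blow` with `N x b = [x ∈ b]`, `δ = d - 2`, `π = S.cls`, `R = S.R`, `M = S.M`; `hN`: `∑_b N x b N y b = c x y = G x y + (d - 2) [x = y]` and `M_mk`;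
`hR` is `R_mul`; `hfib` is `fib`; `hinj` from `S.psd` (`100 d - 201 > 0`); `hCD`: `card P = card Cl · L`, `card B = card (dual Cl) · L` (`card_Cl` for `S` and `S.dual`), `card_eq`, `L > 0`.
-/

set_option autoImplicit false

namespace Pool.Agent.H15.GP

open Finset

noncomputable section

variable {P B : Type} [Fintype P] [Fintype B] {d : ℕ} (S : Sys P B d)

theorem Sys.gram_Cl : Gram (gm S.Gam) := by
  classical
  refine ⟨fun p q => ?_, fun p => ?_, fun p q => ?_, fun f => ?_⟩
  · rw [← S.M_gm]
    exact S.gram.symm _ _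
  · rw [← S.M_gm]
    exact S.gram.diag _
  · rw [← S.M_gm]
    exact S.gram.nonneg _ _
  · rw [← S.M_gm]
    have hout : ∀ p : S.Cl, S.cls p.out = p := fun p => Quotient.out_eq p
    have hinj : Function.Injective (fun p : S.Cl => p.out) := by
      intro p q h
      have h' : p.out = q.out := h
      rw [← hout p, ← hout q, h']
    set g : P → ℤ := fun x => if x = (S.cls x).out then f (S.cls x) else 0 with hg
    have hgout : ∀ p : S.Cl, g p.out = f p := by
      intro p
      simp only [hg, hout, if_true]
    have hg0 : ∀ x, x ∉ univ.image (fun p : S.Cl => p.out) → g x = 0 := by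
      intro x hx
      simp only [hg]
      rw [if_neg]
      intro h
      exact hx (mem_image.2 ⟨S.cls x, mem_univ _, h.symm⟩)
    have hsum : ∀ F : P → ℤ, (∀ x, x ∉ univ.image (fun p : S.Cl => p.out) → F x = 0) →
        ∑ x, F x = ∑ p : S.Cl, F p.out := by
      intro F hF
      rw [← sum_subset (subset_univ (univ.image fun p : S.Cl => p.out)) fun x _ hx => hF x hx,
        sum_image fun p _ q _ h => hinj h]
    have h1 := S.gram.psd g
    have h2 : ∑ x, g x ^ 2 = ∑ p, f p ^ 2 := by
      rw [hsum (fun x => g x ^ 2) (fun x hx => by rw [hg0 x hx]; ring)]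
      exact sum_congr rfl fun p _ => by rw [hgout]
    have h3 : bil S.G g g = bil S.M f f := by
      unfold bil
      rw [hsum (fun x => ∑ y, g x * g y * S.G x y) (fun x hx => by
        refine sum_eq_zero fun y _ => ?_
        rw [hg0 x hx]
        ring)]
      refine sum_congr rfl fun p _ => ?_
      rw [hsum (fun y => g p.out * g y * S.G p.out y) (fun y hy => by
        rw [hg0 y hy]
        ring)]
      refine sum_congr rfl fun q _ => ?_
      rw [hgout, hgout]
      rfl
    rw [h2, h3] at h1
    exact h1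

theorem Sys.card_eq (S : Sys P B d) (hd : 0 < d) : Fintype.card P = Fintype.card B := by
  classical
  have h1 : ∑ x : P, (univ.filter fun b => S.inc x b).card = ∑ b : B, (univ.filter fun x => S.inc x b).card := by
    simp only [card_filter]
    rw [sum_comm]
  rw [sum_congr rfl fun x _ => S.row x, sum_congr rfl fun b _ => S.col b, sum_const, sum_const, card_univ,
    card_univ, smul_eq_mul, smul_eq_mul] at h1
  exact Nat.eq_of_mul_eq_mul_right hd h1

open Classical in
theorem Sys.card_Cl_eq (hd : 0 < d) (L : ℕ) (hLpos : 0 < L) (hL : ∀ x, (univ.filter fun y => S.par x y).card = L)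
    (hL' : ∀ b, (univ.filter fun m => S.dual.par b m).card = L) : Fintype.card S.Cl = Fintype.card S.dual.Cl := by
  have h1 := S.card_Cl L hL
  have h2 := S.dual.card_Cl L hL'
  have h3 := S.card_eq hd
  rw [h1, h2] at h3
  exact Nat.eq_of_mul_eq_mul_right hLpos h3

open Classical in
theorem Sys.sq_Cl (hd : 3 ≤ d) (L : ℕ) (hLpos : 0 < L) (hL : ∀ x, (univ.filter fun y => S.par x y).card = L)
    (hL' : ∀ b, (univ.filter fun m => S.dual.par b m).card = L)
    (hodd : Odd (Fintype.card S.Cl * (L - 1))) : IsSquare (d - 2) := by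
  have hcast : ((d - 2 : ℕ) : ℤ) = (d : ℤ) - 2 := by
    push_cast [Nat.cast_sub (show 2 ≤ d by omega)]
    ring
  refine det_blow (d - 2) L (by omega) hLpos (fun x b => if S.inc x b then 1 else 0)
    (fun p q => (S.R p q : ℤ)) S.M S.cls (S.card_eq (by omega)) (S.card_Cl_eq (by omega) L hLpos hL hL')
    (fun p => by convert S.fib L hL p) ?_ ?_ ?_ hodd
  · intro x y
    rw [S.M_mk, hcast]
    have h1 : ∑ b, (if S.inc x b then (1 : ℤ) else 0) * (if S.inc y b then 1 else 0) = (S.c x y : ℤ) := by
      unfold Sys.c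
      rw [card_filter]
      push_cast
      refine sum_congr rfl fun b _ => ?_
      by_cases hx : S.inc x b <;> by_cases hy : S.inc y b <;> simp [hx, hy]
    rw [h1]
    unfold Sys.G
    ring
  · intro p p'
    rw [hcast]
    convert S.R_mul L hL p p'
  · intro f hf
    have h1 := S.psd f
    have h2 : ∀ b, ∑ x ∈ univ.filter (fun x => S.inc x b), f x = 0 := by
      intro b
      rw [sum_filter]
      refine Eq.trans ?_ (hf b)
      refine sum_congr rfl fun x _ => ?_
      by_cases hx : S.inc x b <;> simp [hx]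
    have h3 : ∑ b, (∑ x ∈ univ.filter (fun x => S.inc x b), f x) ^ 2 = 0 :=
      sum_eq_zero fun b _ => by rw [h2 b]; ring
    rw [h3, mul_zero] at h1
    have h4 : (0 : ℤ) < 100 * (d : ℤ) - 201 := by
      have : (3 : ℤ) ≤ d := by exact_mod_cast hd
      linarith
    have h5 : ∑ x, f x ^ 2 ≤ 0 := by
      by_contra hc
      have := mul_pos h4 (not_le.1 hc)
      linarith
    have h6 : ∑ x, f x ^ 2 = 0 := le_antisymm h5 (sum_nonneg fun x _ => sq_nonneg _)
    funext x
    have h7 := (sum_eq_zero_iff_of_nonneg (fun x _ => sq_nonneg (f x))).1 h6 x (mem_univ x)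
    simpa using h7

end

end Pool.Agent.H15.GP
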