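import Mathlib
import Pool.Agent.H15.GP.SyS

/-!
# SyX: the reduced structure of a system

`C = S.Cl`, `D = S.dual.Cl`, `R = S.R`, `Γ = S.Gam`; `L` from `class_card`, `k` the degree of one class (`degree_Cl` shows that all degrees are equal, since `L > 0`).
`rr`, `rr_adj`, `rr_nadj` from `R_mul` with `M p p = 2`, `M p q = 1` for adjacent, `0` otherwise (`M_gm`); `cc` from `R_mul` of the dual and `R_dual`.
-/

set_option autoImplicit false

namespace Pool.Agent.H15.GP

open Finset

noncomputable section

variable {P B : Type} [Fintype P] [Fintype B] {d : ℕ}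

theorem exists_red (S : Sys P B d) (hd : 3 ≤ d) [Nonempty P] :
    ∃ (C D : Type) (_ : Fintype C) (_ : Fintype D) (L k : ℕ), Nonempty (Red C D d L k) := by
  classical
  obtain ⟨L, hLpos, hL, hL'⟩ := S.class_card (by omega)
  have hne : Nonempty S.Cl := ⟨S.cls (Classical.arbitrary P)⟩
  let p₀ : S.Cl := Classical.arbitrary _
  have hdiag : ∀ p, S.M p p = 2 := fun p => S.gram.diag _
  have hmul := S.R_mul L hL
  have hmul' := S.dual.R_mul L hL'
  refine ⟨S.Cl, S.dual.Cl, inferInstance, inferInstance, L, S.Gam.degree p₀, ⟨?_⟩⟩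
  have hk : ∀ p, S.Gam.degree p = S.Gam.degree p₀ := by
    intro p
    have h1 := S.degree_Cl (by omega) L hL p
    have h2 := S.degree_Cl (by omega) L hL p₀
    have h3 : L * (S.Gam.degree p + 2) = L * (S.Gam.degree p₀ + 2) := by omega
    have := Nat.eq_of_mul_eq_mul_left hLpos h3
    omega
  refine
    { R := S.R
      Γ := S.Gam
      Lpos := hLpos
      card := S.card_Cl_eq (by omega) L hLpos hL hL'
      rowsum := S.R_rowsum
      colsum := S.R_colsum
      rr := ?_
      rr_adj := ?_
      rr_nadj := ?_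
      cc := ?_
      conn := S.conn_Cl (by omega)
      reg := fun p => by convert hk p
      hK := by convert S.degree_Cl (by omega) L hL p₀
      gram := S.gram_Cl
      sq := ?_ }
  · intro p
    have h := hmul p p
    rw [if_pos rfl, hdiag] at h
    have h2 : ((d - 2 + 2 * L : ℕ) : ℤ) = (d : ℤ) - 2 + L * 2 := by
      push_cast [Nat.cast_sub (show 2 ≤ d by omega)]
      ring
    have h3 : ((∑ q, S.R p q ^ 2 : ℕ) : ℤ) = ((d - 2 + 2 * L : ℕ) : ℤ) := by
      rw [h2, ← h]
      push_cast
      exact sum_congr rfl fun q _ => by ring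
    exact_mod_cast h3
  · intro p p' hpp
    have h := hmul p p'
    rw [if_neg hpp.ne, show S.M p p' = 1 from hpp] at h
    have h3 : ((∑ q, S.R p q * S.R p' q : ℕ) : ℤ) = (L : ℤ) := by
      push_cast
      rw [h]
      ring
    exact_mod_cast h3
  · intro p p' hne hpp
    have h := hmul p p'
    have h0 : S.M p p' = 0 := by
      rw [S.M_gm]
      simp [gm, hne, hpp]
    rw [if_neg hne, h0] at h
    have h3 : ((∑ q, S.R p q * S.R p' q : ℕ) : ℤ) = ((0 : ℕ) : ℤ) := by
      push_cast
      rw [h]
      ring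
    exact_mod_cast h3
  · intro q
    have h := hmul' q q
    rw [if_pos rfl, show S.dual.M q q = 2 from S.dual.gram.diag _] at h
    have h2 : ((d - 2 + 2 * L : ℕ) : ℤ) = (d : ℤ) - 2 + L * 2 := by
      push_cast [Nat.cast_sub (show 2 ≤ d by omega)]
      ring
    have h3 : ((∑ p, S.R p q ^ 2 : ℕ) : ℤ) = ((d - 2 + 2 * L : ℕ) : ℤ) := by
      rw [h2, ← h]
      push_cast
      refine sum_congr rfl fun p _ => ?_
      rw [S.R_dual p q]
      ring
    exact_mod_cast h3
  · intro hodd
    exact S.sq_Cl hd L hLpos hL hL' hodd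

end

end Pool.Agent.H15.GP
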