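import Mathlib
import Pool.Agent.H15.GP.Asm
import Pool.Agent.H15.GP.SyX
import Pool.Agent.H15.GP.GS
import Pool.Agent.H17.Incidence

/-!
# Fin: the bound for all regular graphs, and no plane

`gap_le_of_crit`: otherwise `γ = √(d - 2 - 1/100)/d < gap G`; `Pool.Agent.H17.quad_of_lt_gap` for an integer function `f ≠ 0` (cast to `ℝ`): `γ² d ∑ f² < (1/d) ∑_v (∑_{w ~ v} f w)²`, so
`(d - 2 - 1/100) ∑ f² < ∑_v (…)²`, times 100: the hypothesis `hq` of `exists_sys` (for `f = 0` trivial).  `exists_sys`, `exists_red`, `Red.red_false`.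
`no_plane`: the incidence graph of a plane of order `d - 1` is in `InRegular d` and has gap at least `√(d-1)/d` (`Pool.Agent.H17.plane_gap`), which is larger than `√(d - 2 - 1/100)/d`.
`gapRegular_le`: the supremum of a set of numbers `≤ c` (nonempty or not: `Real.sSup_le`, `0 ≤ c`).
-/

set_option autoImplicit false

namespace Pool.Agent.H15.GP

open Finset Pool.Agent.H17

theorem gap_le_of_crit {d : ℕ} (h : Crit d) {V : Type} [Fintype V] (G : SimpleGraph V) (hG : InRegular d G) :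
    gap G ≤ √((d : ℝ) - 2 - 1 / 100) / d := by
  classical
  by_contra hlt
  rw [not_le] at hlt
  have hd15 := h.ge
  have hd : (15 : ℝ) ≤ d := by exact_mod_cast hd15
  have hdpos : (0 : ℝ) < d := by linarith
  have hreg : ∀ v, G.degree v = d := fun v => by convert hG.2.2 v
  have hpos : ∀ v, 0 < G.degree v := fun v => by rw [hreg v]; omega
  have hγ : 0 ≤ √((d : ℝ) - 2 - 1 / 100) / d := by positivity
  have hq : ∀ f : V → ℤ, (100 * (d : ℤ) - 201) * ∑ v, f v ^ 2 ≤
      100 * ∑ v, (∑ w ∈ G.neighborFinset v, f w) ^ 2 := by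
    intro f
    by_cases hf : f = 0
    · subst hf
      simp
    · have hf' : (fun v => (f v : ℝ)) ≠ 0 := by
        intro h0
        apply hf
        funext v
        have := congrFun h0 v
        simpa using this
      have h1 := quad_of_lt_gap G (fun v => by convert hpos v) hγ hlt (fun v => (f v : ℝ)) hf'
      have h2 : ∑ v, (G.degree v : ℝ) * (f v : ℝ) ^ 2 = d * ∑ v, (f v : ℝ) ^ 2 := by
        rw [mul_sum]
        exact sum_congr rfl fun v _ => by rw [hreg v]
      have h3 : ∑ v, (1 / (G.degree v : ℝ)) * (∑ w ∈ G.neighborFinset v, (f w : ℝ)) ^ 2 =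
          (1 / d) * ∑ v, (∑ w ∈ G.neighborFinset v, (f w : ℝ)) ^ 2 := by
        rw [mul_sum]
        exact sum_congr rfl fun v _ => by rw [hreg v]
      have h4 : (√((d : ℝ) - 2 - 1 / 100) / d) ^ 2 = ((d : ℝ) - 2 - 1 / 100) / d ^ 2 := by
        rw [div_pow, Real.sq_sqrt (by linarith)]
      have h5 : (√((d : ℝ) - 2 - 1 / 100) / d) ^ 2 * (d * ∑ v, (f v : ℝ) ^ 2) <
          (1 / d) * ∑ v, (∑ w ∈ G.neighborFinset v, (f w : ℝ)) ^ 2 := by
        rw [← h2, ← h3]
        convert h1
      rw [h4] at h5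
      have h6 : ((d : ℝ) - 2 - 1 / 100) * ∑ v, (f v : ℝ) ^ 2 <
          ∑ v, (∑ w ∈ G.neighborFinset v, (f w : ℝ)) ^ 2 := by
        have h7 : ((d : ℝ) - 2 - 1 / 100) / d ^ 2 * (d * ∑ v, (f v : ℝ) ^ 2) =
            (1 / d) * (((d : ℝ) - 2 - 1 / 100) * ∑ v, (f v : ℝ) ^ 2) := by
          field_simp
        rw [h7] at h5
        exact lt_of_mul_lt_mul_left h5 (by positivity)
      have h8 : (100 * (d : ℝ) - 201) * ∑ v, (f v : ℝ) ^ 2 ≤
          100 * ∑ v, (∑ w ∈ G.neighborFinset v, (f w : ℝ)) ^ 2 := by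
        have : (100 * (d : ℝ) - 201) * ∑ v, (f v : ℝ) ^ 2 =
          100 * (((d : ℝ) - 2 - 1 / 100) * ∑ v, (f v : ℝ) ^ 2) := by ring
        rw [this]
        linarith
      exact_mod_cast h8
  obtain ⟨P, B, iP, iB, nP, ⟨S⟩⟩ := exists_sys G d (by omega) hG.2.1 (fun v => by convert hreg v)
    (fun f => by convert hq f)
  obtain ⟨C, D, iC, iD, L, k, ⟨M⟩⟩ := exists_red S (by omega)
  exact M.red_false h

theorem no_plane {d : ℕ} (h : Crit d) : ¬ PlaneExists (d - 1) := by
  rintro ⟨P, L, mem, hP, hL, hPL, horder⟩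
  let _ : Fintype P := Fintype.ofFinite P
  let _ : Fintype L := Fintype.ofFinite L
  obtain ⟨h1, h2⟩ := plane_gap (P := P) (L := L) (d - 1) horder
  have hd15 := h.ge
  have hd : (15 : ℝ) ≤ d := by exact_mod_cast hd15
  rw [show d - 1 + 1 = d by omega] at h2
  have h3 := gap_le_of_crit h _ h2
  have h4 : ((d - 1 : ℕ) : ℝ) = (d : ℝ) - 1 := by
    push_cast [Nat.cast_sub (show 1 ≤ d by omega)]
    ring
  rw [h4, sub_add_cancel] at h1
  have h5 : √((d : ℝ) - 2 - 1 / 100) / d < √((d : ℝ) - 1) / d := by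
    apply div_lt_div_of_pos_right _ (by linarith)
    exact Real.sqrt_lt_sqrt (by linarith) (by linarith)
  linarith

theorem gapRegular_le {d : ℕ} (h : Crit d) : gapRegular d ≤ √((d : ℝ) - 2 - 1 / 100) / d := by
  refine Real.sSup_le ?_ (by positivity)
  rintro g ⟨V, iV, G, hG, rfl⟩
  exact gap_le_of_crit h G hG

theorem crit15 : Crit 15 := by
  refine ⟨by norm_num, ?_, ?_⟩
  · intro p hp hdvd
    norm_num at hdvd
    have h53 : (53 : ℕ).Prime := by norm_num
    rcases (Nat.dvd_prime h53).1 hdvd with h | h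
    · exact absurd hp (by rw [h]; norm_num)
    · rw [h]
  · intro q hq hdvd
    norm_num at hdvd
    have h53 : (53 : ℕ).Prime := by norm_num
    rcases (Nat.dvd_prime h53).1 hdvd with h | h
    · omega
    · subst h
      norm_num

end Pool.Agent.H15.GP
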