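import Mathlib
import Pool.Agent.H92.DivBound

/-!
# Tau: the divisor bound in the form used here

`Pool.Agent.H5.W.divisor_bound` (file `Pool/Agent/H92/DivBound.lean`) with `ε = 1/1000`: `τ(n) ≤ C₀ n^(1/1000) ≤ C₀ 2^u` if `n ≤ 2^(1000 u)`; take `C = ⌈C₀⌉₊` (positive).
-/

set_option autoImplicit false

namespace Pool.Agent.H15.GP

theorem tau_bound : ∃ C : ℕ, 0 < C ∧ ∀ u n : ℕ, 0 < n → n ≤ 2 ^ (1000 * u) → n.divisors.card ≤ C * 2 ^ u := by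
  obtain ⟨C, hC, h⟩ := Pool.Agent.H5.W.divisor_bound (1 / 1000) (by norm_num)
  refine ⟨⌈C⌉₊, Nat.ceil_pos.2 hC, fun u n hn hnu => ?_⟩
  have h1 := h n hn
  have h2 : (n : ℝ) ^ ((1 : ℝ) / 1000) ≤ 2 ^ u := by
    have h3 : (n : ℝ) ≤ (2 : ℝ) ^ (1000 * u) := by exact_mod_cast hnu
    calc (n : ℝ) ^ ((1 : ℝ) / 1000) ≤ ((2 : ℝ) ^ (1000 * u)) ^ ((1 : ℝ) / 1000) :=
          Real.rpow_le_rpow (by positivity) h3 (by norm_num)
      _ = 2 ^ u := by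
          rw [← Real.rpow_natCast, ← Real.rpow_mul (by norm_num), ← Real.rpow_natCast]
          congr 1
          push_cast
          ring
  have h4 : (n.divisors.card : ℝ) ≤ ((⌈C⌉₊ * 2 ^ u : ℕ) : ℝ) := by
    push_cast
    calc (n.divisors.card : ℝ) ≤ C * (n : ℝ) ^ ((1 : ℝ) / 1000) := h1
      _ ≤ ⌈C⌉₊ * 2 ^ u := mul_le_mul (Nat.le_ceil C) h2 (by positivity) (by positivity)
  exact_mod_cast h4

end Pool.Agent.H15.GP
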