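import Mathlib
import Pool.Agent.H15.GP.Tau
import Pool.Agent.H15.GP.Fib
import Pool.Agent.H15.GP.FamC

/-!
# InfC: infinitely many critical `d`

Let `C` be the constant of `tau_bound`, `u` large, `r = 5 u`, `t = C 2^u`: `τ(n) ≤ t` for all `n ≤ 2^(1000u)`, which covers all the numbers used (`72r+10`, `80r+30`, `54r+4`, `4(27r+14)+3 ≤ 1000 u`).
`large` (elementary growth: `2^(6u)` beats a polynomial): for `u ≥ u₀(C)`:
 (a) `2 (72 r + 11) t ≤ 2^(2r)`,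
 (b) `8 (18r+2)(72r+11) · 2 t² (38r+8) · (2 t² (40r+14) + 2^14 t) < 2^(2r)`   (`t⁴ = C⁴ 2^(4u)`, `2^(2r) = 2^(10u)`).
Suppose every `d = fd x y b` of the family of `r` is not critical.  The set `Dset` of these `d` has (`bad_count` with `K = 40r+13`, `z = 27r`, `w = 27r+14`; `2K + 1 = 80r+27 ≤ 2w + z = 81r + 28`)
at most `2^(27r) (2 t² (40r+14)) + 2^(27r+14) t` elements; `fam_fiber` and `Finset.card_le_mul_card_image`: `|S| ≤ 2 t² (38r+8) |Dset|`; `fam_count`: `2^(29r) ≤ 8 (18r+2)(72r+11) |S|`.  Together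
`2^(29r) ≤ 8 (18r+2)(72r+11) 2 t² (38r+8) 2^(27r) (2 t² (40r+14) + 2^14 t)`, contradicting (b).  So some `fd x y b ≥ 2^(40r)` is critical: critical numbers are unbounded (`Set.infinite_of_not_bddAbove`).
-/

set_option autoImplicit false

namespace Pool.Agent.H15.GP

open Finset

theorem large (C M : ℕ) : ∃ u : ℕ, 1 ≤ u ∧ M < 2 ^ (40 * (5 * u)) ∧
    2 * (72 * (5 * u) + 11) * (C * 2 ^ u) ≤ 2 ^ (2 * (5 * u)) ∧
    8 * (18 * (5 * u) + 2) * (72 * (5 * u) + 11) * (2 * (C * 2 ^ u) ^ 2 * (38 * (5 * u) + 8)) *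
      (2 * (C * 2 ^ u) ^ 2 * (40 * (5 * u) + 14) + 2 ^ 14 * (C * 2 ^ u)) < 2 ^ (2 * (5 * u)) := by
  obtain ⟨A, hA⟩ : ∃ A : ℕ, A = 8 * 92 * 371 * 396 * 16812 := ⟨_, rfl⟩
  set u := A * (C + 1) ^ 4 + M with hu
  have hA1 : 1 ≤ A := by omega
  have hC1 : 1 ≤ (C + 1) ^ 4 := Nat.one_le_pow _ _ (by omega)
  have hu1 : 1 ≤ u := by
    have : 1 * 1 ≤ A * (C + 1) ^ 4 := Nat.mul_le_mul hA1 hC1
    omega
  obtain ⟨T, hT⟩ : ∃ T : ℕ, T = 2 ^ u := ⟨_, rfl⟩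
  have huT : u < T := by
    rw [hT]
    exact Nat.lt_two_pow_self
  have hAT : A * (C + 1) ^ 4 < T := by omega
  have hT1 : 1 ≤ T := by omega
  have hT10 : 2 ^ (2 * (5 * u)) = T ^ 10 := by
    rw [hT, ← pow_mul]
    congr 1
    ring
  have hCC : C ≤ (C + 1) ^ 4 := by
    calc C ≤ C + 1 := by omega
      _ = (C + 1) ^ 1 := (pow_one _).symm
      _ ≤ (C + 1) ^ 4 := Nat.pow_le_pow_right (by omega) (by norm_num)
  refine ⟨u, hu1, ?_, ?_, ?_⟩
  · calc M < 2 ^ M := Nat.lt_two_pow_self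
      _ ≤ 2 ^ (40 * (5 * u)) := Nat.pow_le_pow_right (by norm_num) (by omega)
  · rw [hT10, ← hT]
    have e1 : 72 * (5 * u) + 11 ≤ 371 * T := by omega
    have e2 : 742 * C ≤ T := by
      have : 742 * C ≤ A * (C + 1) ^ 4 := Nat.mul_le_mul (by omega) hCC
      omega
    calc 2 * (72 * (5 * u) + 11) * (C * T) ≤ 2 * (371 * T) * (C * T) :=
          Nat.mul_le_mul_right _ (Nat.mul_le_mul_left _ e1)
      _ = (742 * C) * T ^ 2 := by ring
      _ ≤ T * T ^ 2 := Nat.mul_le_mul_right _ e2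
      _ = T ^ 3 := by ring
      _ ≤ T ^ 10 := Nat.pow_le_pow_right hT1 (by norm_num)
  · rw [hT10, ← hT]
    have e1 : 18 * (5 * u) + 2 ≤ 92 * T := by omega
    have e2 : 72 * (5 * u) + 11 ≤ 371 * T := by omega
    have e3 : 38 * (5 * u) + 8 ≤ 198 * T := by omega
    have e4 : 40 * (5 * u) + 14 ≤ 214 * T := by omega
    have e5 : 2 * (C * T) ^ 2 * (40 * (5 * u) + 14) + 2 ^ 14 * (C * T) ≤ 16812 * (C + 1) ^ 2 * T ^ 3 := by
      have f1 : 2 * (C * T) ^ 2 * (40 * (5 * u) + 14) ≤ 428 * (C + 1) ^ 2 * T ^ 3 := by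
        calc 2 * (C * T) ^ 2 * (40 * (5 * u) + 14) ≤ 2 * ((C + 1) * T) ^ 2 * (214 * T) :=
              Nat.mul_le_mul (Nat.mul_le_mul_left _ (Nat.pow_le_pow_left (Nat.mul_le_mul_right _ (by omega)) 2)) e4
          _ = 428 * (C + 1) ^ 2 * T ^ 3 := by ring
      have f2 : 2 ^ 14 * (C * T) ≤ 16384 * (C + 1) ^ 2 * T ^ 3 := by
        have g1 : C ≤ (C + 1) ^ 2 := by nlinarith
        have g2 : T ≤ T ^ 3 := Nat.le_self_pow (by norm_num) T
        calc 2 ^ 14 * (C * T) ≤ 2 ^ 14 * ((C + 1) ^ 2 * T ^ 3) :=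
              Nat.mul_le_mul_left _ (Nat.mul_le_mul g1 g2)
          _ = 16384 * (C + 1) ^ 2 * T ^ 3 := by norm_num; ring
      calc _ ≤ 428 * (C + 1) ^ 2 * T ^ 3 + 16384 * (C + 1) ^ 2 * T ^ 3 := Nat.add_le_add f1 f2
        _ = 16812 * (C + 1) ^ 2 * T ^ 3 := by ring
    have e6 : 2 * (C * T) ^ 2 * (38 * (5 * u) + 8) ≤ 396 * (C + 1) ^ 2 * T ^ 3 := by
      calc 2 * (C * T) ^ 2 * (38 * (5 * u) + 8) ≤ 2 * ((C + 1) * T) ^ 2 * (198 * T) :=
            Nat.mul_le_mul (Nat.mul_le_mul_left _ (Nat.pow_le_pow_left (Nat.mul_le_mul_right _ (by omega)) 2)) e3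
        _ = 396 * (C + 1) ^ 2 * T ^ 3 := by ring
    calc 8 * (18 * (5 * u) + 2) * (72 * (5 * u) + 11) * (2 * (C * T) ^ 2 * (38 * (5 * u) + 8)) *
          (2 * (C * T) ^ 2 * (40 * (5 * u) + 14) + 2 ^ 14 * (C * T))
        ≤ 8 * (92 * T) * (371 * T) * (396 * (C + 1) ^ 2 * T ^ 3) * (16812 * (C + 1) ^ 2 * T ^ 3) :=
          Nat.mul_le_mul (Nat.mul_le_mul (Nat.mul_le_mul (Nat.mul_le_mul_left _ e1) e2) e6) e5
      _ = (A * (C + 1) ^ 4) * T ^ 8 := by rw [hA]; ring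
      _ < T * T ^ 8 := Nat.mul_lt_mul_of_pos_right hAT (by positivity)
      _ = T ^ 9 := by ring
      _ ≤ T ^ 10 := Nat.pow_le_pow_right hT1 (by norm_num)

theorem crit_unbounded (M : ℕ) : ∃ d, M < d ∧ Crit d := by
  classical
  obtain ⟨C, hC, htau⟩ := tau_bound
  obtain ⟨u, hu, hM, ha, hb⟩ := large C M
  set r := 5 * u with hr
  set t := C * 2 ^ u with ht
  have hr1 : 1 ≤ r := by omega
  have htau' : ∀ e n : ℕ, 0 < n → n ≤ 2 ^ e → e ≤ 1000 * u → n.divisors.card ≤ t := by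
    intro e n hn hne he
    exact htau u n hn (le_trans hne (Nat.pow_le_pow_right (by norm_num) he))
  obtain ⟨S, hS, hScard⟩ := fam_count r t hr1 (fun n hn h => htau' _ n hn h (by omega)) ha
  by_contra hcon
  push Not at hcon
  set Dset := S.image fun p => fd p.1 p.2.1 p.2.2 with hD
  have hbad : Dset.card ≤ 2 ^ (27 * r) * (2 * t ^ 2 * (40 * r + 13 + 1)) + 2 ^ (27 * r + 14) * t := by
    refine bad_count (40 * r + 13) (27 * r) (27 * r + 14) t (by omega) (by omega)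
      (fun n hn h => htau' _ n hn h (by omega)) (fun n hn h => htau' _ n hn h (by omega)) Dset ?_
    intro d hd
    rw [hD, mem_image] at hd
    obtain ⟨p, hp, rfl⟩ := hd
    have hF := hS p hp
    obtain ⟨_, _, _, h4, h5⟩ := fam_eq hr1 hF
    exact ⟨fam_goodp hr1 hF, fun hc => hcon _ (lt_of_lt_of_le hM h4) hc, h5⟩
  have hfib : S.card ≤ 2 * t ^ 2 * (38 * r + 8) * Dset.card := by
    rw [hD]
    refine card_le_mul_card_image _ _ fun d hd => ?_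
    refine fam_fiber r t d hr1 (fun n hn h => htau' _ n hn h (by omega)) _ ?_
    intro p hp
    rw [mem_filter] at hp
    exact ⟨hS p hp.1, hp.2⟩
  have h1 : 2 ^ (29 * r) ≤ 8 * (18 * r + 2) * (72 * r + 11) * (2 * t ^ 2 * (38 * r + 8) *
      (2 ^ (27 * r) * (2 * t ^ 2 * (40 * r + 13 + 1)) + 2 ^ (27 * r + 14) * t)) :=
    le_trans hScard (Nat.mul_le_mul_left _ (le_trans hfib (Nat.mul_le_mul_left _ hbad)))
  have h2 : 8 * (18 * r + 2) * (72 * r + 11) * (2 * t ^ 2 * (38 * r + 8) *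
      (2 ^ (27 * r) * (2 * t ^ 2 * (40 * r + 13 + 1)) + 2 ^ (27 * r + 14) * t)) =
      2 ^ (27 * r) * (8 * (18 * r + 2) * (72 * r + 11) * (2 * t ^ 2 * (38 * r + 8)) *
      (2 * t ^ 2 * (40 * r + 14) + 2 ^ 14 * t)) := by
    rw [pow_add]
    ring
  have h3 : 2 ^ (29 * r) = 2 ^ (27 * r) * 2 ^ (2 * r) := by
    rw [← pow_add]
    congr 1
    ring
  rw [h2, h3] at h1
  have h4 := Nat.le_of_mul_le_mul_left h1 (by positivity)
  omega

theorem crit_infinite : {d : ℕ | Crit d}.Infinite := by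
  refine Set.infinite_of_not_bddAbove ?_
  rintro ⟨M, hM⟩
  obtain ⟨d, hd, hc⟩ := crit_unbounded M
  have := hM hc
  omega

end Pool.Agent.H15.GP
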